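import Pool.Agent.Lib.MP_ea09ae_al.Defs

/-!
# The number of states
-/

namespace Pool.Agent.Lib.MP_ea09ae_al

/-- The number of states. -/
def nstates (N v B cκ cι : ℕ) : ℕ := (1 + 3 * B + 2 * cκ + cι) ^ (2 * N * (v + B))

namespace CardAux

/-- the codes of symbols -/
abbrev Cd (B : ℕ) (κ ι : Type) : Type := (Fin B ⊕ Fin B ⊕ Fin B) ⊕ (κ ⊕ κ ⊕ ι)

/-- the code of a symbol -/
def code {κ ι : Type} (B : ℕ) : Sy κ ι → Option (Cd B κ ι)
  | .inl (.p a) => if h : a < B then some (.inl (.inl ⟨a, h⟩)) else none
  | .inl (.q a) => if h : a < B then some (.inl (.inr (.inl ⟨a, h⟩))) else none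
  | .inl (.x a) => if h : a < B then some (.inl (.inr (.inr ⟨a, h⟩))) else none
  | .inr (.p k) => some (.inr (.inl k))
  | .inr (.q k) => some (.inr (.inr (.inl k)))
  | .inr (.x i) => some (.inr (.inr (.inr i)))

/-- admissible symbols -/
def ok {κ ι : Type} (B : ℕ) (s : Sy κ ι) : Prop := ∀ l, s = Sum.inl l → small B l

theorem code_ne {κ ι : Type} {B : ℕ} {s : Sy κ ι} (h : ok B s) : code B s ≠ none := by
  rcases s with (a | a | a) | (k | k | i)
  · have : a < B := h _ rfl
    simp [code, this]
  · have : a < B := h _ rfl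
    simp [code, this]
  · have : a < B := h _ rfl
    simp [code, this]
  · simp [code]
  · simp [code]
  · simp [code]

theorem code_inj {κ ι : Type} {B : ℕ} {s t : Sy κ ι} (hs : ok B s) (ht : ok B t)
    (h : code B s = code B t) : s = t := by
  rcases s with (a | a | a) | (a | a | a) <;> rcases t with (b | b | b) | (b | b | b)
  all_goals first
    | (have h1 : a < B := hs _ rfl
       have h2 : b < B := ht _ rfl
       simp [code, h1, h2] at h
       try rw [h])
    | (have h1 : a < B := hs _ rfl
       simp [code, h1] at h)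
    | (have h2 : b < B := ht _ rfl
       simp [code, h2] at h)
    | (simp [code] at h
       try rw [h])

theorem len_eq {κ ι : Type} (w : List (Sy κ ι)) : w.length = vcount w + lcount w := by
  induction w with
  | nil => rfl
  | cons s w ih =>
    unfold vcount lcount at *
    rcases s with s | s
    · simp only [List.length_cons, List.countP_cons, Sum.isRight_inl, Sum.isLeft_inl]
      simp
      omega
    · simp only [List.length_cons, List.countP_cons, Sum.isRight_inr, Sum.isLeft_inr]
      simp
      omega

theorem words_eq {κ ι : Type} {B M : ℕ} {w w' : List (Sy κ ι)} (hw : w.length ≤ M)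
    (hw' : w'.length ≤ M) (hs : ∀ s ∈ w, ok B s) (hs' : ∀ s ∈ w', ok B s)
    (h : ∀ j, j < M → (w[j]?).bind (code B) = (w'[j]?).bind (code B)) : w = w' := by
  apply List.ext_getElem?
  intro j
  by_cases hj : j < M
  · have h1 := h j hj
    rcases h2 : w[j]? with _ | s
    · rw [h2] at h1
      rcases h3 : w'[j]? with _ | s'
      · rfl
      · rw [h3] at h1
        simp only [Option.bind_none, Option.bind_some] at h1
        exact absurd h1.symm (code_ne (hs' s' (List.mem_of_getElem? h3)))
    · rw [h2] at h1
      rcases h3 : w'[j]? with _ | s'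
      · rw [h3] at h1
        simp only [Option.bind_none, Option.bind_some] at h1
        exact absurd h1 (code_ne (hs s (List.mem_of_getElem? h2)))
      · rw [h3] at h1
        simp only [Option.bind_some] at h1
        rw [code_inj (hs s (List.mem_of_getElem? h2)) (hs' s' (List.mem_of_getElem? h3)) h1]
  · rw [List.getElem?_eq_none (by omega), List.getElem?_eq_none (by omega)]

/-- a word of a system -/
def wd {κ ι : Type} (S : Sys κ ι) (i : ℕ) (b : Bool) : List (Sy κ ι) :=
  match S[i]? with
  | some e => if b = true then e.1 else e.2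
  | none => []

theorem wd_prop {κ ι : Type} {N v B : ℕ} {S : Sys κ ι} (h : Bd N v B S) (i : ℕ) (b : Bool) :
    (wd S i b).length ≤ v + B ∧ ∀ s ∈ wd S i b, ok B s := by
  obtain ⟨-, h2, h3, h4⟩ := h
  unfold wd
  rcases hi : S[i]? with _ | e
  · simp
  · have he : e ∈ S := List.mem_of_getElem? hi
    have a1 : vcount e.1 + vcount e.2 ≤ vtot S :=
      List.le_sum_of_mem (List.mem_map_of_mem he (f := fun e => vcount e.1 + vcount e.2))
    have a2 : lcount e.1 + lcount e.2 ≤ ltot S :=
      List.le_sum_of_mem (List.mem_map_of_mem he (f := fun e => lcount e.1 + lcount e.2))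
    have b1 := len_eq e.1
    have b2 := len_eq e.2
    cases b
    · refine ⟨by simp; omega, ?_⟩
      intro s hs l hl
      subst hl
      exact (h4 e he).2 l (by simpa using hs)
    · refine ⟨by simp; omega, ?_⟩
      intro s hs l hl
      subst hl
      exact (h4 e he).1 l (by simpa using hs)

/-- the code of a system -/
def enc {κ ι : Type} (N v B : ℕ) (S : Sys κ ι) :
    (Fin N × Bool × Fin (v + B)) → Option (Cd B κ ι) :=
  fun t => ((wd S t.1 t.2.1)[(t.2.2 : ℕ)]?).bind (code B)

theorem enc_inj {κ ι : Type} {N v B : ℕ} {S S' : Sys κ ι} (h : Bd N v B S) (h' : Bd N v B S')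
    (he : enc N v B S = enc N v B S') : S = S' := by
  have hw : ∀ i, i < N → ∀ b, wd S i b = wd S' i b := by
    intro i hi b
    refine words_eq (wd_prop h i b).1 (wd_prop h' i b).1 (wd_prop h i b).2 (wd_prop h' i b).2 ?_
    intro j hj
    exact congrFun he (⟨i, hi⟩, b, ⟨j, hj⟩)
  apply List.ext_getElem?
  intro i
  by_cases hi : i < N
  · have hl : i < S.length := by rw [h.1]; exact hi
    have hl' : i < S'.length := by rw [h'.1]; exact hi
    have e1 : S[i]? = some S[i] := List.getElem?_eq_getElem hl
    have e2 : S'[i]? = some S'[i] := List.getElem?_eq_getElem hl'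
    have ht := hw i hi true
    have hf := hw i hi false
    simp only [wd, e1, e2] at ht hf
    rw [e1, e2]
    congr 1
    exact Prod.ext (by simpa using ht) (by simpa using hf)
  · have a1 := h.1
    have a2 := h'.1
    rw [List.getElem?_eq_none (by omega), List.getElem?_eq_none (by omega)]

end CardAux

open CardAux in
theorem card_Bd {κ ι : Type} [Fintype κ] [Fintype ι] (N v B : ℕ) :
    Finite {S : Sys κ ι // Bd N v B S} ∧
      Nat.card {S : Sys κ ι // Bd N v B S} ≤
        nstates N v B (Fintype.card κ) (Fintype.card ι) := by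
  classical
  have hinj : Function.Injective
      (fun S : {S : Sys κ ι // Bd N v B S} => enc N v B S.1) := by
    intro S S' h
    exact Subtype.ext (enc_inj S.2 S'.2 h)
  refine ⟨Finite.of_injective _ hinj, ?_⟩
  refine (Nat.card_le_card_of_injective _ hinj).trans (le_of_eq ?_)
  rw [Nat.card_eq_fintype_card]
  simp only [Fintype.card_fun, Fintype.card_option, Fintype.card_sum, Fintype.card_fin,
    Fintype.card_prod, Fintype.card_bool, nstates]
  congr 1 <;> ring

end Pool.Agent.Lib.MP_ea09ae_al
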