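import Mathlib

/-!
# Iteration over a finite set of states
-/

namespace Pool.Agent.Lib.MP_ea09ae_al

open Classical in
theorem iterate_aux {X : Type} [Fintype X] (P : X → ℕ → Prop) (B G : ℕ) (hG : 1 ≤ G)
    (hmono : ∀ x m n, m ≤ n → P x m → P x n)
    (h : ∀ x n, P x n → (∀ m < n, ¬ P x m) →
      P x B ∨ ∃ y n', n' < n ∧ P y n' ∧ ∀ m, P y m → P x (G * m)) (n : ℕ) :
    ∀ x, P x n → (∀ m < n, ¬ P x m) →
      P x (G ^ (Finset.univ.filter (fun y : X => ∃ m < n, P y m)).card * B) := by
  induction n using Nat.strong_induction_on with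
  | _ n ih =>
    intro x hx hmin
    rcases h x n hx hmin with hB | ⟨y, n', hn', hy, himp⟩
    · exact hmono x _ _ (Nat.le_mul_of_pos_left _ (pow_pos hG _)) hB
    · have hex : ∃ m, P y m := ⟨n', hy⟩
      have h1 := Nat.find_spec hex
      have h2 : ∀ m < Nat.find hex, ¬ P y m := fun m hm => Nat.find_min hex hm
      have h3 : Nat.find hex ≤ n' := Nat.find_min' hex hy
      have h4 := himp _ (ih (Nat.find hex) (by omega) y h1 h2)
      refine hmono x _ _ ?_ h4
      rw [← mul_assoc, ← pow_succ']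
      refine Nat.mul_le_mul_right _ (Nat.pow_le_pow_right hG ?_)
      refine Nat.succ_le_of_lt (Finset.card_lt_card ?_)
      rw [Finset.ssubset_iff_of_subset]
      · refine ⟨y, ?_, ?_⟩
        · rw [Finset.mem_filter]
          exact ⟨Finset.mem_univ _, Nat.find hex, by omega, h1⟩
        · rw [Finset.mem_filter]
          rintro ⟨-, m, hm, hm'⟩
          exact h2 m hm hm'
      · intro z hz
        rw [Finset.mem_filter] at hz ⊢
        obtain ⟨-, m, hm, hm'⟩ := hz
        exact ⟨Finset.mem_univ _, m, by omega, hm'⟩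

theorem iterate {X : Type} [Fintype X] (P : X → ℕ → Prop) (B G : ℕ) (hG : 1 ≤ G)
    (hmono : ∀ x m n, m ≤ n → P x m → P x n)
    (h : ∀ x n, P x n → (∀ m < n, ¬ P x m) →
      P x B ∨ ∃ y n', n' < n ∧ P y n' ∧ ∀ m, P y m → P x (G * m)) :
    ∀ x n, P x n → P x (G ^ Fintype.card X * B) := by
  classical
  intro x n hx
  have hex : ∃ m, P x m := ⟨n, hx⟩
  refine hmono x _ _ ?_ (iterate_aux P B G hG hmono h (Nat.find hex) x (Nat.find_spec hex)
    fun m hm => Nat.find_min hex hm)
  exact Nat.mul_le_mul_right _ (Nat.pow_le_pow_right hG (Finset.card_le_univ _))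

end Pool.Agent.Lib.MP_ea09ae_al
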