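import Pool.Agent.Lib.MP_ea09ae_al.Step
import Pool.Agent.Lib.MP_ea09ae_al.Iter
import Pool.Agent.Lib.MP_ea09ae_al.Card

/-!
# Minimal solutions are bounded
-/

namespace Pool.Agent.Lib.MP_ea09ae_al

theorem hasSol_mono {κ ι : Type} (S : Sys κ ι) (m n : ℕ) (h : m ≤ n) (hm : HasSol S m) :
    HasSol S n := by
  obtain ⟨σ, h1, h2⟩ := hm
  exact ⟨σ, h1, h2.trans h⟩

theorem vcount_add_lcount {κ ι : Type} (w : List (Sy κ ι)) : vcount w + lcount w = w.length := by
  unfold vcount lcount
  induction w with
  | nil => rfl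
  | cons a w ih =>
    rw [List.countP_cons, List.countP_cons, List.length_cons]
    cases a <;> simp <;> omega

theorem le_sum_map {X : Type} (f : X → ℕ) (l : List X) (a : X) (ha : a ∈ l) :
    f a ≤ (l.map f).sum := by
  induction l with
  | nil => simp at ha
  | cons b l ih =>
    simp only [List.map_cons, List.sum_cons]
    rcases List.mem_cons.1 ha with rfl | ha
    · omega
    · have := ih ha
      omega

theorem gfun_pos (N T c : ℕ) (hT : 1 ≤ T) : 1 ≤ gfun N T c := by
  unfold gfun
  exact Nat.mul_pos (by omega) (Nat.pos_of_ne_zero (by positivity))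

theorem bounded {κ ι : Type} [Fintype κ] [Fintype ι] (S : Sys κ ι) (N v : ℕ) (hN : 1 ≤ N)
    (hS : Bd N v (16 * v + 8 * N) S) (n : ℕ) (h : HasSol S n) :
    HasSol S (gfun N (v + (16 * v + 8 * N)) (Fintype.card κ + Fintype.card ι) ^
      nstates N v (16 * v + 8 * N) (Fintype.card κ) (Fintype.card ι) * (16 * v + 8 * N)) := by
  set B := 16 * v + 8 * N with hB
  set T := v + B with hT
  set G := gfun N T (Fintype.card κ + Fintype.card ι) with hG
  have hT1 : 1 ≤ T := by omega
  have hG1 : 1 ≤ G := gfun_pos _ _ _ hT1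
  obtain ⟨hfin, hcard⟩ := card_Bd (κ := κ) (ι := ι) N v B
  have := Fintype.ofFinite {S : Sys κ ι // Bd N v B S}
  have key := iterate (X := {S : Sys κ ι // Bd N v B S}) (fun S n => HasSol S.1 n) B G hG1
    (fun S m n hmn hm => hasSol_mono S.1 m n hmn hm) (by
      rintro ⟨S, hS⟩ n hn hmin
      obtain ⟨hS1, hS2, hS3, hS4⟩ := hS
      rcases le_or_gt n B with hnB | hnB
      · exact Or.inl (hasSol_mono S n B hnB hn)
      · right
        obtain ⟨σ, hσ, hw⟩ := hn
        change wt σ S ≤ n at hw
        have hw' : n ≤ wt σ S := by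
          by_contra hc
          exact hmin _ (not_le.1 hc) ⟨σ, hσ, le_rfl⟩
        have hwN : S.length < wt σ S := by
          rw [hS1]
          omega
        obtain ⟨Lp, Lx, h1, h2⟩ := choose_cut S σ hσ v (by omega) hS2 (by omega) hwN
        have hTS : ∀ e ∈ S, e.1.length ≤ T ∧ e.2.length ≤ T := by
          intro e he
          have h3 := le_sum_map (fun e : List (Sy κ ι) × List (Sy κ ι) => vcount e.1 + vcount e.2) S e he
          have h4 := le_sum_map (fun e : List (Sy κ ι) × List (Sy κ ι) => lcount e.1 + lcount e.2) S e he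
          have h5 := vcount_add_lcount e.1
          have h6 := vcount_add_lcount e.2
          change _ ≤ vtot S at h3
          change _ ≤ ltot S at h4
          omega
        obtain ⟨S', a1, a2, a3, a4, ⟨σ', a5, a6⟩, a7⟩ := step S σ hσ Lp Lx h1 T hTS B (by omega)
        refine ⟨⟨S', by omega, by omega, a3, a4⟩, wt σ' S', by omega, ⟨σ', a5, le_rfl⟩, ?_⟩
        intro m hm
        have := a7 m hm
        rw [hS1] at this
        exact this)
  have h1 := key ⟨S, hS⟩ n h
  refine hasSol_mono S _ _ ?_ h1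
  apply Nat.mul_le_mul_right
  apply Nat.pow_le_pow_right hG1
  rw [← Nat.card_eq_fintype_card]
  exact hcard

end Pool.Agent.Lib.MP_ea09ae_al
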