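import Pool.Agent.Lib.MP_ea09ae_al.Words

/-!
# Computability
-/

namespace Pool.Agent.Lib.MP_ea09ae_al

theorem primrec_pow : Primrec₂ ((· ^ ·) : ℕ → ℕ → ℕ) :=
  Primrec₂.unpaired'.1 Nat.Primrec.pow

theorem primrec_push : Primrec₂ push := by
  have h1 : PrimrecPred (fun a : List (Fin 3) × Fin 3 => a.2 = 2) :=
    Primrec.eq.comp Primrec.snd (Primrec.const 2)
  have h2 : PrimrecPred (fun a : List (Fin 3) × Fin 3 => a.1.take 2 = [1, 0]) :=
    Primrec.eq.comp (Primrec.list_take.comp (Primrec.const 2) Primrec.fst) (Primrec.const [1, 0])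
  have h3 : Primrec (fun a : List (Fin 3) × Fin 3 => a.1.drop 2) :=
    Primrec.list_drop.comp (Primrec.const 2) Primrec.fst
  have h4 : Primrec (fun a : List (Fin 3) × Fin 3 => a.2 :: a.1) :=
    Primrec.list_cons.comp Primrec.snd Primrec.fst
  exact Primrec.ite (h1.and h2) h3 h4

theorem primrec_nf : Primrec nf := by
  have h : Primrec (fun w : List (Fin 3) => w.foldl (fun s b => push s b) []) :=
    Primrec.list_foldl (h := fun _ sb => push sb.1 sb.2) Primrec.id (Primrec.const [])
      ((primrec_push.comp (Primrec.fst.comp Primrec.snd) (Primrec.snd.comp Primrec.snd)).to₂)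
  exact h

theorem primrec_substw : Primrec₂ substw := by
  have hg : Primrec₂ (fun (a : List (List (Fin 3)) × EWord) (s : Fin 3 ⊕ ℕ) =>
      (Sum.casesOn s (fun l => [l]) (fun k => a.1.getD k []) : List (Fin 3))) := by
    refine Primrec.sumCasesOn (f := fun x : (List (List (Fin 3)) × EWord) × (Fin 3 ⊕ ℕ) => x.2)
      (g := fun _ l => [l]) (h := fun x k => x.1.1.getD k []) Primrec.snd ?_ ?_
    · exact (Primrec.list_cons.comp Primrec.snd (Primrec.const [])).to₂
    · exact ((Primrec.list_getD []).comp (Primrec.fst.comp (Primrec.fst.comp Primrec.fst))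
        Primrec.snd).to₂
  have h := Primrec.list_flatMap (f := fun a : List (List (Fin 3)) × EWord => a.2)
    Primrec.snd hg
  refine Primrec.of_eq h ?_
  rintro ⟨τ, w⟩
  unfold substw
  congr 1

theorem primrecRel_check : PrimrecRel (fun (S : ESys) (τ : List (List (Fin 3))) => Check S τ) := by
  have h1 : PrimrecRel (fun (e : EWord × EWord) (τ : List (List (Fin 3))) =>
      nf (substw τ e.1) = nf (substw τ e.2)) := by
    refine PrimrecRel.comp Primrec.eq ?_ ?_
    · exact primrec_nf.comp (primrec_substw.comp Primrec.snd (Primrec.fst.comp Primrec.fst))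
    · exact primrec_nf.comp (primrec_substw.comp Primrec.snd (Primrec.snd.comp Primrec.fst))
  exact PrimrecRel.forall_mem_list h1

/-- bound for the codes of lists of length at most `m` whose entries have codes at most `E` -/
def lbound (E : ℕ) : ℕ → ℕ
  | 0 => 0
  | m + 1 => (E + lbound E m + 1) ^ 2 + 1

theorem encode_list_le {A : Type} [Encodable A] (E m : ℕ) (l : List A) (hl : l.length ≤ m)
    (hE : ∀ a ∈ l, Encodable.encode a ≤ E) : Encodable.encode l ≤ lbound E m := by
  induction l generalizing m with
  | nil => simp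
  | cons a l ih =>
    cases m with
    | zero => simp at hl
    | succ m =>
      have h1 := ih m (by simpa using hl) (fun b hb => hE b (List.mem_cons_of_mem _ hb))
      have h2 := hE a List.mem_cons_self
      rw [Encodable.encode_list_cons]
      unfold lbound
      have h3 := Nat.pair_lt_max_add_one_sq (Encodable.encode a) (Encodable.encode l)
      have h4 : max (Encodable.encode a) (Encodable.encode l) + 1 ≤ E + lbound E m + 1 := by
        have : max (Encodable.encode a) (Encodable.encode l) ≤ E + lbound E m :=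
          max_le (by omega) (by omega)
        omega
      have h5 := Nat.pow_le_pow_left h4 2
      omega

theorem primrec_lbound : Primrec₂ lbound := by
  have h : Primrec₂ (fun (E : ℕ) (n : ℕ) =>
      (n.rec (motive := fun _ => ℕ) 0 (fun _ IH => (E + IH + 1) ^ 2 + 1) : ℕ)) := by
    refine Primrec.nat_rec (f := fun _ : ℕ => 0) (g := fun E x => (E + x.2 + 1) ^ 2 + 1)
      (Primrec.const 0) ?_
    have h1 : Primrec (fun a : ℕ × (ℕ × ℕ) => a.1 + a.2.2) :=
      Primrec.nat_add.comp Primrec.fst (Primrec.snd.comp Primrec.snd)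
    exact (Primrec.succ.comp (primrec_pow.comp (Primrec.succ.comp h1) (Primrec.const 2))).to₂
  refine Primrec₂.of_eq h ?_
  intro E n
  induction n with
  | zero => rfl
  | succ n ih =>
    change (E + (Nat.rec (motive := fun _ => ℕ) 0 (fun _ IH => (E + IH + 1) ^ 2 + 1) n) + 1) ^ 2
      + 1 = lbound E (n + 1)
    rw [ih]
    rfl

end Pool.Agent.Lib.MP_ea09ae_al
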