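import Mathlib

/-!
# Facts about `List.splitBy`
-/

namespace Pool.Agent.Lib.MP_ea09ae_al

theorem splitBy_map {X Y : Type} (r : X → X → Bool) (r' : Y → Y → Bool) (φ : X → Y)
    (h : ∀ s t, r' (φ s) (φ t) = r s t) (w : List X) :
    (w.map φ).splitBy r' = (w.splitBy r).map (List.map φ) := by
  rw [List.splitBy_eq_iff]
  refine ⟨?_, ?_, ?_, ?_⟩
  · rw [← List.map_flatten, List.flatten_splitBy]
  · intro hmem
    rw [List.mem_map] at hmem
    obtain ⟨l, hl, hl'⟩ := hmem
    rw [List.map_eq_nil_iff] at hl'
    exact List.ne_nil_of_mem_splitBy hl hl'
  · intro m hm
    rw [List.mem_map] at hm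
    obtain ⟨l, hl, rfl⟩ := hm
    rw [List.isChain_map]
    simp only [h]
    exact List.isChain_of_mem_splitBy hl
  · rw [List.isChain_map]
    refine (List.isChain_getLast_head_splitBy r w).imp ?_
    rintro a b ⟨ha, hb, hab⟩
    refine ⟨by simpa using ha, by simpa using hb, ?_⟩
    rw [List.getLast_map, List.head_map, h]
    exact hab

theorem splitBy_reverse {X : Type} (r : X → X → Bool) (w : List X) :
    w.reverse.splitBy (fun s t => r t s) = ((w.splitBy r).map List.reverse).reverse := by
  rw [List.splitBy_eq_iff]
  refine ⟨?_, ?_, ?_, ?_⟩
  · rw [← List.reverse_flatten, List.flatten_splitBy]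
  · intro hmem
    rw [List.mem_reverse, List.mem_map] at hmem
    obtain ⟨l, hl, hl'⟩ := hmem
    rw [List.reverse_eq_nil_iff] at hl'
    exact List.ne_nil_of_mem_splitBy hl hl'
  · intro m hm
    rw [List.mem_reverse, List.mem_map] at hm
    obtain ⟨l, hl, rfl⟩ := hm
    rw [List.isChain_reverse]
    exact List.isChain_of_mem_splitBy hl
  · rw [List.isChain_reverse, List.isChain_map]
    refine (List.isChain_getLast_head_splitBy r w).imp ?_
    rintro a b ⟨ha, hb, hab⟩
    refine ⟨by simpa using hb, by simpa using ha, ?_⟩
    rw [List.getLast_reverse, List.head_reverse]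
    exact hab

private theorem length_loop {X : Type} (r : X → X → Bool) (l : List X) :
    ∀ (a : X) (g : List X) (gs : List (List X)),
      (List.splitBy.loop r l a g gs).length =
        gs.length + (List.splitBy.loop r l a [] []).length := by
  induction l with
  | nil =>
    intro a g gs
    simp [List.splitBy.loop]
  | cons b l ih =>
    intro a g gs
    simp only [List.splitBy.loop]
    split
    · rw [ih, ih b [a] []]
      simp
    · rw [ih, ih b [] [([a] : List X).reverse]]
      simp
      omega

private theorem length_cons_cons {X : Type} (r : X → X → Bool) (s t : X) (w : List X) :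
    ((s :: t :: w).splitBy r).length =
      ((t :: w).splitBy r).length + if r s t = true then 0 else 1 := by
  change (List.splitBy.loop r (t :: w) s [] []).length =
    (List.splitBy.loop r w t [] []).length + _
  simp only [List.splitBy.loop]
  split
  · rename_i h
    rw [length_loop]
    simp [h]
  · rename_i h
    rw [length_loop]
    simp [h]
    omega

theorem length_splitBy_le {X : Type} (r : X → X → Bool) (w : List X) :
    (w.splitBy r).length ≤ w.length := by
  match w with
  | [] => simp
  | [a] => simp [List.splitBy, List.splitBy.loop]
  | s :: t :: w =>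
    have := length_splitBy_le r (t :: w)
    rw [length_cons_cons]
    simp only [List.length_cons] at this ⊢
    split_ifs <;> omega

theorem length_splitBy_append_le {X : Type} (r : X → X → Bool) (u v : List X) :
    ((u ++ v).splitBy r).length ≤ (u.splitBy r).length + (v.splitBy r).length := by
  match u with
  | [] => simp
  | [s] =>
    match v with
    | [] => simp
    | t :: v =>
      have h1 : ([s] : List X).splitBy r = [[s]] := by simp [List.splitBy, List.splitBy.loop]
      rw [h1, List.singleton_append, length_cons_cons]
      simp only [List.length_cons, List.length_nil]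
      split_ifs <;> omega
  | s :: t :: u =>
    have := length_splitBy_append_le r (t :: u) v
    rw [List.cons_append, List.cons_append, length_cons_cons, length_cons_cons]
    rw [List.cons_append] at this
    omega

theorem length_splitBy_cons {X : Type} (r : X → X → Bool) (s t : X) (w : List X)
    (h : r s t = true) :
    ((s :: t :: w).splitBy r).length = ((t :: w).splitBy r).length := by
  rw [length_cons_cons, if_pos h, add_zero]

theorem length_splitBy_lt {X : Type} (r : X → X → Bool) (u : List X) (s t : X) (w : List X)
    (h : r s t = true) :
    ((u ++ s :: t :: w).splitBy r).length < (u ++ s :: t :: w).length := by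
  have h1 := length_splitBy_append_le r u (s :: t :: w)
  have h2 := length_splitBy_le r u
  have h3 := length_splitBy_cons r s t w h
  have h4 := length_splitBy_le r (t :: w)
  rw [List.length_append]
  simp only [List.length_cons] at h4 ⊢
  omega

end Pool.Agent.Lib.MP_ea09ae_al
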