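import Pool.Agent.Lib.MP_ea09ae_al.Sym
import Pool.Agent.Lib.MP_ea09ae_al.Split

/-!
# The runs of the value of a word
-/

namespace Pool.Agent.Lib.MP_ea09ae_al

variable {C κ ι : Type}

private theorem runs_inl_chain (sd : Ltr ℕ ℕ → Bool) (b : List (SS C κ ι)) :
    ∀ s : SL C, ((.inl s : SS C κ ι) :: b).IsChain (fun x y => srel sd x y = true) →
      ∃ u : List (SL C), b = u.map .inl ∧
        (s :: u).IsChain (fun s t => grel sd (bs s) (bs t) = true) := by
  induction b with
  | nil => intro s _; exact ⟨[], rfl, List.isChain_singleton _⟩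
  | cons y b ih =>
    intro s h
    rw [List.isChain_cons_cons] at h
    cases y with
    | inl t =>
      obtain ⟨u, hu, hc⟩ := ih t h.2
      refine ⟨t :: u, by rw [hu]; rfl, ?_⟩
      rw [List.isChain_cons_cons]
      exact ⟨h.1, hc⟩
    | inr V => exact absurd h.1 (by simp [srel])

theorem block_cases (sd : Ltr ℕ ℕ → Bool) (W : List (SS C κ ι)) (b : List (SS C κ ι))
    (hb : b ∈ W.splitBy (srel sd)) :
    (∃ V, b = [.inr V]) ∨
      (∃ u : List (SL C), u ≠ [] ∧ b = u.map .inl ∧
        u.IsChain (fun s t => grel sd (bs s) (bs t) = true)) := by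
  have h1 := List.ne_nil_of_mem_splitBy hb
  have h2 := List.isChain_of_mem_splitBy hb
  cases b with
  | nil => exact absurd rfl h1
  | cons x b =>
    cases x with
    | inl s =>
      obtain ⟨u, hu, hc⟩ := runs_inl_chain sd b s h2
      exact Or.inr ⟨s :: u, by simp, by rw [hu]; rfl, hc⟩
    | inr V =>
      cases b with
      | nil => exact Or.inl ⟨V, rfl⟩
      | cons y b =>
        rw [List.isChain_cons_cons] at h2
        exact absurd h2.1 (by simp [srel])

/-- the value of one symbol -/
private def vS (z : C → ℕ) (mid : Ltr κ ι → List (Ltr ℕ ℕ)) : SS C κ ι → List (Ltr ℕ ℕ) :=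
  Sum.elim (evM z).letter mid

private theorem runs_expo (z : C → ℕ) (c : Option C) : ∃ n, expo z c = n + 1 := by
  cases c with
  | none => exact ⟨0, rfl⟩
  | some c => exact ⟨z c, rfl⟩

private theorem runs_letter (z : C → ℕ) (s : SL C) :
    ∃ n, (evM z).letter s = List.replicate (n + 1) (bs s) := by
  cases s with
  | p s =>
    obtain ⟨n, hn⟩ := runs_expo z s.2
    refine ⟨n, ?_⟩
    simp only [Mor.letter, evM, bs, hn, List.map_replicate]
  | q s =>
    obtain ⟨n, hn⟩ := runs_expo z s.2
    refine ⟨n, ?_⟩
    simp only [Mor.letter, evM, bs, hn, List.map_replicate, List.reverse_replicate]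
  | x s =>
    obtain ⟨n, hn⟩ := runs_expo z s.2
    refine ⟨n, ?_⟩
    simp only [Mor.letter, evM, bs, hn]

private theorem runs_word_cons (z : C → ℕ) (s : SL C) (u : List (SL C)) :
    (evM z).word (s :: u) = (evM z).letter s ++ (evM z).word u := by
  simp [Mor.word]

private theorem runs_word_head (z : C → ℕ) (u : List (SL C)) :
    ((evM z).word u).head? = u.head?.map bs := by
  cases u with
  | nil => rfl
  | cons s u =>
    obtain ⟨n, hn⟩ := runs_letter z s
    rw [runs_word_cons, hn, List.replicate_succ]
    rfl

private theorem runs_word_last (z : C → ℕ) (u : List (SL C)) :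
    ((evM z).word u).getLast? = u.getLast?.map bs := by
  induction u with
  | nil => rfl
  | cons s u ih =>
    obtain ⟨n, hn⟩ := runs_letter z s
    rw [runs_word_cons, List.getLast?_append, ih, hn]
    cases u with
    | nil => simp [List.getLast?_replicate]
    | cons t u =>
      rw [List.getLast?_cons_cons]
      have : ∃ x, (t :: u).getLast? = some x := by
        cases h : (t :: u).getLast? with
        | none => simp at h
        | some x => exact ⟨x, rfl⟩
      obtain ⟨x, hx⟩ := this
      rw [hx]
      rfl

private theorem runs_word_ne (z : C → ℕ) {u : List (SL C)} (hu : u ≠ []) :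
    (evM z).word u ≠ [] := by
  intro h
  have h1 := runs_word_head z u
  rw [h] at h1
  cases u with
  | nil => exact hu rfl
  | cons s u => simp at h1

private theorem runs_grel_refl {X : Type} [DecidableEq X] (sd : X → Bool) (s : X) :
    grel sd s s = true := by
  simp [grel]

private theorem runs_word_chain (sd : Ltr ℕ ℕ → Bool) (z : C → ℕ) (u : List (SL C))
    (h : u.IsChain (fun s t => grel sd (bs s) (bs t) = true)) :
    ((evM z).word u).IsChain (fun x y => grel sd x y = true) := by
  induction u with
  | nil => exact List.isChain_nil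
  | cons s u ih =>
    obtain ⟨n, hn⟩ := runs_letter z s
    rw [runs_word_cons]
    refine List.IsChain.append ?_ (ih h.tail) ?_
    · rw [hn]
      refine List.isChain_replicate_of_rel _ (runs_grel_refl sd _)
    · intro x hx y hy
      rw [hn] at hx
      rw [runs_word_head] at hy
      have hx' : x = bs s := by
        have := List.mem_of_mem_getLast? hx
        exact List.eq_of_mem_replicate this
      cases u with
      | nil => simp at hy
      | cons t u =>
        have hy' : y = bs t := by simpa using hy.symm
        rw [List.isChain_cons_cons] at h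
        rw [hx', hy']
        exact h.1

private theorem runs_aux {S X : Type} (r : X → X → Bool) (val : List S → List X)
    (T : List S → List (List X)) (L : List (List S)) (hne : ∀ b ∈ L, val b ≠ [])
    (hT : ∀ b ∈ L, (val b).splitBy r = T b)
    (hJ : L.IsChain (fun b1 b2 => ∀ x ∈ (val b1).getLast?, ∀ y ∈ (val b2).head?,
      r x y = false)) :
    (L.flatMap val).splitBy r = L.flatMap T := by
  induction L with
  | nil => simp
  | cons b L ih =>
    rw [List.flatMap_cons, List.flatMap_cons]
    have h1 := ih (fun b hb => hne b (List.mem_cons_of_mem _ hb))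
      (fun b hb => hT b (List.mem_cons_of_mem _ hb)) hJ.tail
    rw [List.splitBy_append, h1, hT b List.mem_cons_self]
    intro x hx y hy
    cases L with
    | nil => simp at hy
    | cons b2 L =>
      rw [List.isChain_cons_cons] at hJ
      refine hJ.1 x hx y ?_
      rw [List.flatMap_cons, List.head?_append_of_ne_nil _
        (hne b2 (List.mem_cons_of_mem _ List.mem_cons_self))] at hy
      exact hy

/-- which symbols can follow each other in a popped word -/
private def gr (D : PopD C κ ι) : SS C κ ι → SS C κ ι → Prop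
  | .inl _, .inl _ => True
  | .inl s, .inr V => s ∈ (D.pre V).getLast?
  | .inr V, .inl t => t ∈ (D.suf V).head?
  | .inr _, .inr _ => False

private def runsOk (D : PopD C κ ι) (l : List (SS C κ ι)) : Prop :=
  l.IsChain (gr D) ∧ (∀ x ∈ l.head?, ∃ s, x = .inl s) ∧ (∀ x ∈ l.getLast?, ∃ s, x = .inl s)

private theorem runsOk_append (D : PopD C κ ι) {a b : List (SS C κ ι)} (ha : runsOk D a)
    (hb : runsOk D b) : runsOk D (a ++ b) := by
  refine ⟨List.IsChain.append ha.1 hb.1 ?_, ?_, ?_⟩
  · intro x hx y hy
    obtain ⟨s, rfl⟩ := ha.2.2 x hx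
    obtain ⟨t, rfl⟩ := hb.2.1 y hy
    trivial
  · intro x hx
    rw [List.head?_append] at hx
    cases h : a.head? with
    | none =>
      rw [h] at hx
      exact hb.2.1 x (by simpa using hx)
    | some y =>
      rw [h] at hx
      refine ha.2.1 x ?_
      rw [h]
      simpa using hx
  · intro x hx
    rw [List.getLast?_append] at hx
    cases h : b.getLast? with
    | none =>
      rw [h] at hx
      exact ha.2.2 x (by simpa using hx)
    | some y =>
      rw [h] at hx
      refine hb.2.2 x ?_
      rw [h]
      simpa using hx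

private theorem runs_chain_inl (D : PopD C κ ι) (u : List (SL C)) :
    (u.map (Sum.inl : SL C → SS C κ ι)).IsChain (gr D) := by
  induction u with
  | nil => exact List.isChain_nil
  | cons s u ih =>
    cases u with
    | nil => exact List.isChain_singleton _
    | cons t u =>
      rw [List.map_cons, List.map_cons, List.isChain_cons_cons]
      exact ⟨trivial, ih⟩

private theorem runsOk_map (D : PopD C κ ι) (u : List (SL C)) :
    runsOk D (u.map (Sum.inl : SL C → SS C κ ι)) := by
  refine ⟨runs_chain_inl D u, ?_, ?_⟩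
  · intro x hx
    obtain ⟨s, -, rfl⟩ := List.mem_map.1 (List.mem_of_mem_head? hx)
    exact ⟨s, rfl⟩
  · intro x hx
    obtain ⟨s, -, rfl⟩ := List.mem_map.1 (List.mem_of_mem_getLast? hx)
    exact ⟨s, rfl⟩

private theorem runsOk_pop {sd : Ltr ℕ ℕ → Bool} {D : PopD C κ ι} {z : C → ℕ}
    {mid σ : Ltr κ ι → List (Ltr ℕ ℕ)} (h : Fits sd D z mid σ) (V : Ltr κ ι) :
    runsOk D (D.pop V) := by
  unfold PopD.pop
  by_cases hk : D.keep V = true
  · rw [if_pos hk]
    obtain ⟨-, hp, hs⟩ := h.yes V hk
    refine ⟨List.IsChain.append (List.IsChain.append (runs_chain_inl D _)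
      (List.isChain_singleton _) ?_) (runs_chain_inl D _) ?_, ?_, ?_⟩
    · intro x hx y hy
      rw [List.getLast?_map] at hx
      obtain ⟨s, hs1, rfl⟩ := Option.mem_map.1 hx
      have hy' : y = .inr V := by simpa using hy.symm
      rw [hy']
      exact hs1
    · intro x hx y hy
      rw [List.getLast?_append] at hx
      have hx' : x = .inr V := by simpa using hx.symm
      rw [List.head?_map] at hy
      obtain ⟨t, ht, rfl⟩ := Option.mem_map.1 hy
      rw [hx']
      exact ht
    · intro x hx
      rw [List.append_assoc, List.head?_append_of_ne_nil _ (by simpa using hp)] at hx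
      obtain ⟨s, -, rfl⟩ := List.mem_map.1 (List.mem_of_mem_head? hx)
      exact ⟨s, rfl⟩
    · intro x hx
      rw [List.getLast?_append_of_ne_nil _ (by simpa using hs)] at hx
      obtain ⟨s, -, rfl⟩ := List.mem_map.1 (List.mem_of_mem_getLast? hx)
      exact ⟨s, rfl⟩
  · rw [if_neg hk, List.append_nil]
    exact runsOk_append D (runsOk_map D _) (runsOk_map D _)

private theorem runsOk_popw {sd : Ltr ℕ ℕ → Bool} {D : PopD C κ ι} {z : C → ℕ}
    {mid σ : Ltr κ ι → List (Ltr ℕ ℕ)} (h : Fits sd D z mid σ) (w : List (Sy κ ι)) :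
    runsOk D (D.popw w) := by
  unfold PopD.popw
  induction w with
  | nil => exact ⟨List.isChain_nil, by simp, by simp⟩
  | cons s w ih =>
    rw [List.flatMap_cons]
    refine runsOk_append D ?_ ih
    cases s with
    | inl l => exact runsOk_map D [lift0 l]
    | inr V => exact runsOk_pop h V

private theorem runs_keep {D : PopD C κ ι} {w : List (Sy κ ι)} {V : Ltr κ ι}
    (hV : (.inr V : SS C κ ι) ∈ D.popw w) : D.keep V = true := by
  unfold PopD.popw at hV
  rw [List.mem_flatMap] at hV
  obtain ⟨s, -, hs⟩ := hV
  cases s with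
  | inl l => simp at hs
  | inr V' =>
    simp only [Sum.elim_inr, PopD.pop, List.mem_append, List.mem_map] at hs
    rcases hs with (⟨x, -, hx⟩ | hs) | ⟨x, -, hx⟩
    · exact absurd hx (by simp)
    · by_cases hk : D.keep V' = true
      · rw [if_pos hk] at hs
        have : V = V' := by simpa using hs
        rw [this]
        exact hk
      · rw [if_neg hk] at hs
        simp at hs
    · exact absurd hx (by simp)

private theorem runs_val_popw {sd : Ltr ℕ ℕ → Bool} {D : PopD C κ ι} {z : C → ℕ}
    {mid σ : Ltr κ ι → List (Ltr ℕ ℕ)} (h : Fits sd D z mid σ) (w : List (Sy κ ι)) :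
    (D.popw w).flatMap (vS z mid) = w.flatMap (Sum.elim (fun l => [l]) σ) := by
  unfold PopD.popw
  rw [List.flatMap_assoc]
  congr 1
  funext s
  cases s with
  | inl l =>
    cases l <;> simp [vS, lift0, Mor.letter, evM, expo]
  | inr V =>
    have hw : ∀ u : List (SL C), (u.map (Sum.inl : SL C → SS C κ ι)).flatMap (vS z mid) =
        (evM z).word u := by
      intro u
      rw [List.flatMap_map]
      rfl
    simp only [Sum.elim_inr]
    rw [h.val V, PopD.pop, List.flatMap_append, List.flatMap_append, hw, hw]
    by_cases hk : D.keep V = true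
    · rw [if_pos hk]
      simp [vS]
    · rw [if_neg hk, h.no V (by simpa using hk)]
      simp

private theorem runs_lefts (u : List (SL C)) : lefts (u.map (Sum.inl : SL C → SS C κ ι)) = u := by
  unfold lefts
  induction u with
  | nil => rfl
  | cons s u ih => simp

private theorem runs_flatMap_flatten {α β : Type} (L : List (List α)) (f : α → List β) :
    L.flatten.flatMap f = L.flatMap (fun b => b.flatMap f) := by
  induction L with
  | nil => rfl
  | cons a L ih => rw [List.flatten_cons, List.flatMap_append, ih, List.flatMap_cons]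

private theorem runs_comb {α : Type} {L : List α} {R1 R2 R3 : α → α → Prop} {Q : α → Prop}
    (h1 : L.IsChain R1) (h2 : L.IsChain R2) (hQ : ∀ b ∈ L, Q b)
    (h : ∀ b1 b2, Q b1 → Q b2 → R1 b1 b2 → R2 b1 b2 → R3 b1 b2) : L.IsChain R3 := by
  induction L with
  | nil => exact List.isChain_nil
  | cons a L ih =>
    cases L with
    | nil => exact List.isChain_singleton _
    | cons b L =>
      rw [List.isChain_cons_cons] at h1 h2 ⊢
      exact ⟨h a b (hQ _ List.mem_cons_self) (hQ _ (List.mem_cons_of_mem _ List.mem_cons_self))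
        h1.1 h2.1, ih h1.2 h2.2 fun b hb => hQ b (List.mem_cons_of_mem _ hb)⟩

theorem runs_val (sd : Ltr ℕ ℕ → Bool) (D : PopD C κ ι) (z : C → ℕ)
    (mid σ : Ltr κ ι → List (Ltr ℕ ℕ)) (h : Fits sd D z mid σ) (w : List (Sy κ ι)) :
    (w.flatMap (Sum.elim (fun l => [l]) σ)).splitBy (grel sd) =
      (D.blocks sd w).flatMap (Tb sd z mid) := by
  have hval : w.flatMap (Sum.elim (fun l => [l]) σ) =
      (D.blocks sd w).flatMap (fun b => b.flatMap (vS z mid)) := by
    rw [← runs_val_popw h w]
    conv_lhs => rw [← List.flatten_splitBy (srel sd) (D.popw w)]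
    exact runs_flatMap_flatten _ _
  -- the cases for a block
  have hQ : ∀ b ∈ D.blocks sd w, (∃ V, b = [.inr V] ∧ D.keep V = true) ∨
      (∃ u : List (SL C), u ≠ [] ∧ b = u.map .inl ∧
        u.IsChain (fun s t => grel sd (bs s) (bs t) = true)) := by
    intro b hb
    rcases block_cases sd _ b hb with ⟨V, rfl⟩ | h2
    · refine Or.inl ⟨V, rfl, runs_keep (w := w) ?_⟩
      rw [← List.flatten_splitBy (srel sd) (D.popw w)]
      exact List.mem_flatten.2 ⟨_, hb, by simp⟩
    · exact Or.inr h2
  have hw : ∀ u : List (SL C), (u.map (Sum.inl : SL C → SS C κ ι)).flatMap (vS z mid) =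
      (evM z).word u := by
    intro u
    rw [List.flatMap_map]
    rfl
  have hV : ∀ V : Ltr κ ι, ([.inr V] : List (SS C κ ι)).flatMap (vS z mid) = mid V := by
    intro V
    simp [vS]
  rw [hval]
  refine runs_aux (grel sd) (fun b => b.flatMap (vS z mid)) (Tb sd z mid) _ ?_ ?_ ?_
  · intro b hb
    rcases hQ b hb with ⟨V, rfl, hk⟩ | ⟨u, hu, rfl, -⟩
    · simp only [hV]
      exact (h.yes V hk).1
    · simp only [hw]
      exact runs_word_ne z hu
  · intro b hb
    rcases hQ b hb with ⟨V, rfl, hk⟩ | ⟨u, hu, rfl, hc⟩
    · simp only [hV]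
      rfl
    · simp only [hw]
      have hT : Tb sd z mid (u.map (Sum.inl : SL C → SS C κ ι)) =
          [(evM z).word (lefts (u.map (Sum.inl : SL C → SS C κ ι)))] := by
        cases u with
        | nil => exact absurd rfl hu
        | cons s u => rfl
      rw [hT, runs_lefts]
      exact List.splitBy_of_isChain (runs_word_ne z hu) (runs_word_chain sd z u hc)
  · have h1 := List.isChain_getLast_head_splitBy (srel sd) (D.popw w)
    have h2 : (D.blocks sd w).IsChain (fun b1 b2 =>
        ∀ x ∈ b1.getLast?, ∀ y ∈ b2.head?, gr D x y) := by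
      have h3 := (runsOk_popw h w).1
      rw [← List.flatten_splitBy (srel sd) (D.popw w)] at h3
      exact ((List.isChain_flatten (List.nil_notMem_splitBy _ _)).1 h3).2
    refine runs_comb h1 h2 hQ ?_
    rintro b1 b2 hb1 hb2 ⟨ha, hb, h3⟩ h4 x hx y hy
    rcases hb1 with ⟨V1, rfl, hk1⟩ | ⟨u1, hu1, rfl, hc1⟩
    · simp only [hV] at hx
      rcases hb2 with ⟨V2, rfl, hk2⟩ | ⟨u2, hu2, rfl, hc2⟩
      · exact absurd (h4 (.inr V1) (by simp) (.inr V2) (by simp)) (by simp [gr])
      · simp only [hw] at hy
        rw [runs_word_head] at hy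
        obtain ⟨t, ht, rfl⟩ := Option.mem_map.1 hy
        have h5 : gr D (.inr V1) (.inl t) := h4 (.inr V1) (by simp) (.inl t) (by
          rw [List.head?_map]
          exact Option.mem_map.2 ⟨t, ht, rfl⟩)
        exact h.cutr V1 hk1 x hx t h5
    · simp only [hw] at hx
      rw [runs_word_last] at hx
      obtain ⟨s, hs, rfl⟩ := Option.mem_map.1 hx
      rcases hb2 with ⟨V2, rfl, hk2⟩ | ⟨u2, hu2, rfl, hc2⟩
      · simp only [hV] at hy
        have h5 : gr D (.inl s) (.inr V2) := h4 (.inl s) (by
          rw [List.getLast?_map]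
          exact Option.mem_map.2 ⟨s, hs, rfl⟩) (.inr V2) (by simp)
        exact h.cutl V2 hk2 s h5 y hy
      · simp only [hw] at hy
        rw [runs_word_head] at hy
        obtain ⟨t, ht, rfl⟩ := Option.mem_map.1 hy
        have h6 : (u1.map (Sum.inl : SL C → SS C κ ι)).getLast ha = .inl s := by
          apply List.getLast_of_mem_getLast?
          rw [List.getLast?_map]
          exact Option.mem_map.2 ⟨s, hs, rfl⟩
        have h7 : (u2.map (Sum.inl : SL C → SS C κ ι)).head hb = .inl t := by
          apply List.head_of_mem_head?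
          rw [List.head?_map]
          exact Option.mem_map.2 ⟨t, ht, rfl⟩
        rw [h6, h7] at h3
        exact h3

end Pool.Agent.Lib.MP_ea09ae_al
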