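import Pool.Agent.Lib.MP_ea09ae_al.Sym
import Pool.Agent.Lib.MP_ea09ae_al.Split
import Pool.Agent.Lib.MP_ea09ae_al.Runs

/-!
# From a solution of the old system to a solution of the new one
-/

namespace Pool.Agent.Lib.MP_ea09ae_al

variable {C κ ι : Type}

/-- names for the letter blocks of a word -/
def Named (z : C → ℕ) (P : List (List ℕ)) (X : List (List (Ltr ℕ ℕ))) (u : List (SL C)) : Prop :=
  (∀ l, getPQ (pack u) = some l → evp z l ∈ P) ∧
    (∀ w, getX (pack u) = some w → (evM z).word w ∈ X)

namespace Complete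

theorem all_map_p {α β : Type} (l : List α) : (l.map (Ltr.p (β := β))).all isP = true := by
  simp [isP]

theorem all_map_q {α β : Type} (l : List α) : (l.map (Ltr.q (β := β))).all isQ = true := by
  simp [isQ]

theorem filterMap_map_p {α β : Type} (l : List α) :
    (l.map (Ltr.p (β := β))).filterMap pidx = l := by
  induction l with
  | nil => rfl
  | cons a l ih => simp [pidx, ih]

theorem filterMap_map_q {α β : Type} (l : List α) :
    (l.map (Ltr.q (β := β))).filterMap qidx = l := by
  induction l with
  | nil => rfl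
  | cons a l ih => simp [qidx, ih]

theorem pack_map_p {α β : Type} (l : List α) :
    pack (l.map (Ltr.p (β := β))) = .p l := by
  unfold pack
  rw [if_pos (all_map_p l), filterMap_map_p]

theorem pack_map_q {α β : Type} (l : List α) (hl : l ≠ []) :
    pack (l.map (Ltr.q (β := β))) = .q l.reverse := by
  unfold pack
  rw [if_neg, if_pos (all_map_q l), filterMap_map_q]
  obtain ⟨a, l', rfl⟩ := List.exists_cons_of_ne_nil hl
  simp [isP]

theorem eq_map_p {α β : Type} (w : List (Ltr α β)) (h : w.all isP = true) :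
    ∃ l : List α, w = l.map .p := by
  induction w with
  | nil => exact ⟨[], rfl⟩
  | cons a w ih =>
    rw [List.all_cons, Bool.and_eq_true] at h
    obtain ⟨l, hl⟩ := ih h.2
    cases a with
    | p a => exact ⟨a :: l, by rw [hl]; rfl⟩
    | q a => exact absurd h.1 (by simp [isP])
    | x a => exact absurd h.1 (by simp [isP])

theorem eq_map_q {α β : Type} (w : List (Ltr α β)) (h : w.all isQ = true) :
    ∃ l : List α, w = l.map .q := by
  induction w with
  | nil => exact ⟨[], rfl⟩
  | cons a w ih =>
    rw [List.all_cons, Bool.and_eq_true] at h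
    obtain ⟨l, hl⟩ := ih h.2
    cases a with
    | q a => exact ⟨a :: l, by rw [hl]; rfl⟩
    | p a => exact absurd h.1 (by simp [isQ])
    | x a => exact absurd h.1 (by simp [isQ])

theorem pack_else {α β : Type} (w : List (Ltr α β)) (h1 : ¬ w.all isP = true)
    (h2 : ¬ w.all isQ = true) : pack w = .x w := by
  unfold pack
  rw [if_neg h1, if_neg h2]

theorem expo_pos (z : C → ℕ) (o : Option C) : expo z o ≠ 0 := by
  cases o <;> simp [expo]

theorem word_map_p (z : C → ℕ) (l : List (ℕ × Option C)) :
    (evM z).word (l.map (Ltr.p (β := ℕ × Option C))) = (evp z l).map .p := by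
  unfold Mor.word evp
  rw [List.flatMap_map, List.map_flatMap]
  rfl

theorem word_map_q (z : C → ℕ) (l : List (ℕ × Option C)) :
    (evM z).word (l.map (Ltr.q (β := ℕ × Option C))) = (evp z l.reverse).reverse.map .q := by
  unfold Mor.word evp
  rw [List.flatMap_map, List.reverse_flatMap, List.reverse_reverse, List.map_flatMap]
  rfl

theorem evp_ne_nil (z : C → ℕ) (l : List (ℕ × Option C)) (hl : l ≠ []) : evp z l ≠ [] := by
  obtain ⟨a, l', rfl⟩ := List.exists_cons_of_ne_nil hl
  unfold evp
  rw [List.flatMap_cons]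
  intro h
  rw [List.append_eq_nil_iff] at h
  have h1 := h.1
  simp only [evM, List.replicate_eq_nil_iff] at h1
  exact expo_pos z a.2 h1

/-- the test of a letter does not change under evaluation -/
theorem all_word_iff (z : C → ℕ) (u : List (SL C)) (t : SL C → Bool) (t' : Ltr ℕ ℕ → Bool)
    (ht : ∀ s : SL C, ∀ a ∈ (evM z).letter s, t' a = t s)
    (hne : ∀ s : SL C, (evM z).letter s ≠ []) :
    ((evM z).word u).all t' = u.all t := by
  induction u with
  | nil => rfl
  | cons s u ih =>
    have h1 : (evM z).word (s :: u) = (evM z).letter s ++ (evM z).word u := by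
      unfold Mor.word
      rw [List.flatMap_cons]
    rw [h1, List.all_append, List.all_cons, ih]
    congr 1
    obtain ⟨a, l, hl⟩ := List.exists_cons_of_ne_nil (hne s)
    cases hs : t s with
    | true =>
      rw [List.all_eq_true]
      intro b hb
      rw [ht s b hb, hs]
    | false =>
      rw [List.all_eq_false]
      refine ⟨a, by rw [hl]; exact List.mem_cons_self, ?_⟩
      rw [ht s a (by rw [hl]; exact List.mem_cons_self), hs]
      simp

theorem letter_ne_nil (z : C → ℕ) (s : SL C) : (evM z).letter s ≠ [] := by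
  cases s with
  | p s => simpa [Mor.letter, evM] using expo_pos z s.2
  | q s => simpa [Mor.letter, evM] using expo_pos z s.2
  | x s => simpa [Mor.letter, evM] using expo_pos z s.2

theorem isP_letter (z : C → ℕ) (s : SL C) (a : Ltr ℕ ℕ) (ha : a ∈ (evM z).letter s) :
    isP a = isP s := by
  cases s with
  | p s =>
    simp only [Mor.letter, List.mem_map] at ha
    obtain ⟨b, _, rfl⟩ := ha
    rfl
  | q s =>
    simp only [Mor.letter, List.mem_map] at ha
    obtain ⟨b, _, rfl⟩ := ha
    rfl
  | x s =>
    simp only [Mor.letter, evM] at ha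
    rw [List.eq_of_mem_replicate ha]
    rfl

theorem isQ_letter (z : C → ℕ) (s : SL C) (a : Ltr ℕ ℕ) (ha : a ∈ (evM z).letter s) :
    isQ a = isQ s := by
  cases s with
  | p s =>
    simp only [Mor.letter, List.mem_map] at ha
    obtain ⟨b, _, rfl⟩ := ha
    rfl
  | q s =>
    simp only [Mor.letter, List.mem_map] at ha
    obtain ⟨b, _, rfl⟩ := ha
    rfl
  | x s =>
    simp only [Mor.letter, evM] at ha
    rw [List.eq_of_mem_replicate ha]
    rfl

end Complete

open Complete

/-- Packing commutes with evaluation. -/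
theorem pack_evM (z : C → ℕ) (u : List (SL C)) (hu : u ≠ []) :
    pack ((evM z).word u) =
      match pack u with
      | .p l => .p (evp z l)
      | .q l => .q (evp z l)
      | .x w => .x ((evM z).word w) := by
  by_cases h1 : u.all isP = true
  · obtain ⟨l, rfl⟩ := eq_map_p u h1
    rw [word_map_p, pack_map_p, pack_map_p]
  · by_cases h2 : u.all isQ = true
    · obtain ⟨l, rfl⟩ := eq_map_q u h2
      have hl : l ≠ [] := by
        rintro rfl
        exact hu rfl
      have hl' : (evp z l.reverse).reverse ≠ [] := by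
        rw [Ne, List.reverse_eq_nil_iff]
        exact evp_ne_nil z _ (by simpa using hl)
      rw [word_map_q, pack_map_q _ hl', pack_map_q _ hl, List.reverse_reverse]
    · have h3 : ¬ ((evM z).word u).all isP = true := by
        rw [all_word_iff z u isP isP (isP_letter z) (letter_ne_nil z)]
        exact h1
      have h4 : ¬ ((evM z).word u).all isQ = true := by
        rw [all_word_iff z u isQ isQ (isQ_letter z) (letter_ne_nil z)]
        exact h2
      rw [pack_else _ h3 h4, pack_else _ h1 h2]

namespace Complete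

theorem grel_pp (Lp Lx : ℕ → Bool) (s t : ℕ) :
    grel (side Lp Lx) (.p s) (.p t) = grel Lp s t := by
  unfold grel
  simp [side]

theorem grel_qq (Lp Lx : ℕ → Bool) (s t : ℕ) :
    grel (side Lp Lx) (.q s) (.q t) = grel Lp t s := by
  unfold grel
  simp only [side, Ltr.q.injEq, Bool.not_not]
  rw [decide_eq_decide.mpr (eq_comm : s = t ↔ t = s), Bool.and_comm]

theorem eps_p (P : List (List ℕ)) (X : List (List (Ltr ℕ ℕ))) (l : List ℕ) :
    (epsM P X).letter (pack (l.map .p)) = ((epsM P X).f l).map .p := by
  rw [pack_map_p]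
  rfl

theorem eps_q (P : List (List ℕ)) (X : List (List (Ltr ℕ ℕ))) (l : List ℕ) (hl : l ≠ []) :
    (epsM P X).letter (pack (l.reverse.map .q)) = ((epsM P X).f l).reverse.map .q := by
  rw [pack_map_q _ (by simpa using hl), List.reverse_reverse]
  rfl

theorem newsol_letter (Lp Lx : ℕ → Bool) (P : List (List ℕ)) (X : List (List (Ltr ℕ ℕ)))
    (mid : Mor κ ι ℕ ℕ) (V : Ltr κ ι) :
    (newsol Lp Lx P X mid).letter V =
      ((mid.letter V).splitBy (grel (side Lp Lx))).flatMap
        (fun u => (epsM P X).letter (pack u)) := by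
  cases V with
  | p k =>
    change (((mid.f k).splitBy (grel Lp)).flatMap (epsM P X).f).map (Ltr.p : ℕ → Ltr ℕ ℕ) =
      (((mid.f k).map (Ltr.p : ℕ → Ltr ℕ ℕ)).splitBy (grel (side Lp Lx))).flatMap _
    rw [splitBy_map (grel Lp) (grel (side Lp Lx)) Ltr.p (grel_pp Lp Lx), List.flatMap_map,
      List.map_flatMap]
    simp only [eps_p]
  | q k =>
    change (((mid.f k).splitBy (grel Lp)).flatMap (epsM P X).f).reverse.map (Ltr.q : ℕ → Ltr ℕ ℕ) =
      (((mid.f k).reverse.map (Ltr.q : ℕ → Ltr ℕ ℕ)).splitBy (grel (side Lp Lx))).flatMap _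
    rw [splitBy_map (fun s t => grel Lp t s) (grel (side Lp Lx)) Ltr.q (grel_qq Lp Lx),
      splitBy_reverse, List.flatMap_map, List.reverse_flatMap, List.map_flatMap,
      ← List.map_reverse, List.flatMap_map]
    apply List.flatMap_congr
    intro l hl
    have hl' : l ≠ [] := by
      rw [List.mem_reverse] at hl
      exact List.ne_nil_of_mem_splitBy hl
    rw [eps_q P X l hl']
    rfl
  | x i => rfl

theorem lefts_map_inl (u : List (SL C)) : lefts (u.map (Sum.inl (β := Ltr κ ι))) = u := by
  unfold lefts
  induction u with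
  | nil => rfl
  | cons a u ih => simp [ih]

theorem nmb_map_inl (z : C → ℕ) (P : List (List ℕ)) (X : List (List (Ltr ℕ ℕ)))
    (u : List (SL C)) :
    nmb z P X (u.map (Sum.inl (β := Ltr κ ι))) = .inl (nm z P X (pack u)) := by
  have h : nmb z P X (u.map (Sum.inl (β := Ltr κ ι))) =
      .inl (nm z P X (pack (lefts (u.map (Sum.inl (β := Ltr κ ι)))))) := by
    match u with
    | [] => rfl
    | [_] => rfl
    | _ :: _ :: _ => rfl
  rw [h, lefts_map_inl]

theorem Tb_map_inl (sd : Ltr ℕ ℕ → Bool) (z : C → ℕ) (mid : Ltr κ ι → List (Ltr ℕ ℕ))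
    (u : List (SL C)) :
    Tb sd z mid (u.map (Sum.inl (β := Ltr κ ι))) = [(evM z).word u] := by
  have h : Tb sd z mid (u.map (Sum.inl (β := Ltr κ ι))) =
      [(evM z).word (lefts (u.map (Sum.inl (β := Ltr κ ι))))] := by
    match u with
    | [] => rfl
    | [_] => rfl
    | _ :: _ :: _ => rfl
  rw [h, lefts_map_inl]

theorem lblock_map_inl (u : List (SL C)) :
    lblock (u.map (Sum.inl (β := Ltr κ ι))) = some u := by
  have h : lblock (u.map (Sum.inl (β := Ltr κ ι))) =
      some (lefts (u.map (Sum.inl (β := Ltr κ ι)))) := by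
    match u with
    | [] => rfl
    | [_] => rfl
    | _ :: _ :: _ => rfl
  rw [h, lefts_map_inl]

theorem eps_named (z : C → ℕ) (P : List (List ℕ)) (X : List (List (Ltr ℕ ℕ))) (u : List (SL C))
    (hu : u ≠ []) (hn : Named z P X u) :
    (epsM P X).letter (pack ((evM z).word u)) = [nm z P X (pack u)] := by
  rw [pack_evM z u hu]
  obtain ⟨h1, h2⟩ := hn
  cases hp : pack u with
  | p l =>
    have := h1 l (by rw [hp]; rfl)
    simp [Mor.letter, epsM, nm, this]
  | q l =>
    have := h1 l (by rw [hp]; rfl)
    simp [Mor.letter, epsM, nm, this]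
  | x w =>
    have := h2 w (by rw [hp]; rfl)
    simp [Mor.letter, epsM, nm, this]

end Complete

theorem newsol_val (Lp Lx : ℕ → Bool) (D : PopD C κ ι) (z : C → ℕ) (mid : Mor κ ι ℕ ℕ)
    (σ : Ltr κ ι → List (Ltr ℕ ℕ)) (h : Fits (side Lp Lx) D z mid.letter σ)
    (P : List (List ℕ)) (X : List (List (Ltr ℕ ℕ))) (w : List (Sy κ ι))
    (hw : ∀ u ∈ (D.blocks (side Lp Lx) w).filterMap lblock, Named z P X u) :
    (newsol Lp Lx P X mid).val (D.neww (side Lp Lx) z P X w) =
      ((w.flatMap (Sum.elim (fun l => [l]) σ)).splitBy (grel (side Lp Lx))).flatMap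
        (fun u => (epsM P X).letter (pack u)) := by
  rw [runs_val (side Lp Lx) D z mid.letter σ h w]
  unfold Mor.val PopD.neww
  rw [List.flatMap_map, List.flatMap_assoc]
  apply List.flatMap_congr
  intro b hb
  rcases block_cases (side Lp Lx) (D.popw w) b hb with ⟨V, rfl⟩ | ⟨u, hu, rfl, _⟩
  · change (newsol Lp Lx P X mid).letter V = _
    rw [newsol_letter]
    rfl
  · rw [nmb_map_inl, Tb_map_inl]
    have hn : Named z P X u := by
      apply hw
      rw [List.mem_filterMap]
      exact ⟨_, hb, lblock_map_inl u⟩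
    rw [List.flatMap_cons, List.flatMap_nil, List.append_nil, eps_named z P X u hu hn]
    rfl

end Pool.Agent.Lib.MP_ea09ae_al
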