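import Pool.Agent.Lib.MP_ea09ae_al.Sym
import Pool.Agent.Lib.MP_ea09ae_al.Split
import Pool.Agent.Lib.MP_ea09ae_al.Runs

/-!
# Counting blocks
-/

namespace Pool.Agent.Lib.MP_ea09ae_al

variable {C κ ι : Type}

/-- `1` if the word begins with an explicit letter, `0` otherwise. -/
private def beg : List (Sy κ ι) → ℕ
  | .inl _ :: _ => 1
  | _ => 0

private theorem beg_le (w : List (Sy κ ι)) : beg w ≤ 1 := by
  unfold beg
  split <;> simp

private theorem bs_lift0 (s : Ltr ℕ ℕ) : bs (lift0 s : SL C) = s := by
  cases s <;> rfl

private theorem length_splitBy_chain {X : Type} (r : X → X → Bool) (u : List X)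
    (h : u.IsChain (fun s t => r s t = true)) : (u.splitBy r).length ≤ 1 := by
  match u with
  | [] => simp
  | [a] => simp [List.splitBy, List.splitBy.loop]
  | s :: t :: u =>
    rw [List.isChain_cons_cons] at h
    rw [length_splitBy_cons r s t u h.1]
    exact length_splitBy_chain r (t :: u) h.2

private theorem length_pop_blocks (sd : Ltr ℕ ℕ → Bool) (D : PopD C κ ι)
    (hl : ∀ V, (D.pre V).IsChain (fun s t => grel sd (bs s) (bs t) = true))
    (hr : ∀ V, (D.suf V).IsChain (fun s t => grel sd (bs s) (bs t) = true)) (V : Ltr κ ι) :
    ((D.pop V).splitBy (srel sd)).length ≤ 3 := by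
  have key : ∀ u : List (SL C), u.IsChain (fun s t => grel sd (bs s) (bs t) = true) →
      ((u.map (Sum.inl : SL C → SS C κ ι)).splitBy (srel sd)).length ≤ 1 := by
    intro u hu
    apply length_splitBy_chain
    rw [List.isChain_map]
    exact hu
  have h1 := key _ (hl V)
  have h2 := key _ (hr V)
  have h3 : ((if D.keep V = true then [(.inr V : SS C κ ι)] else []).splitBy (srel sd)).length
      ≤ 1 := by
    refine (length_splitBy_le _ _).trans ?_
    split_ifs <;> simp
  have h4 := length_splitBy_append_le (srel sd)
    ((D.pre V).map .inl ++ (if D.keep V = true then [(.inr V : SS C κ ι)] else []))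
    ((D.suf V).map .inl)
  have h5 := length_splitBy_append_le (srel sd)
    ((D.pre V).map .inl) (if D.keep V = true then [(.inr V : SS C κ ι)] else [])
  unfold PopD.pop
  omega

private theorem popw_inl (D : PopD C κ ι) (s : Ltr ℕ ℕ) (w : List (Sy κ ι)) :
    D.popw (.inl s :: w) = .inl (lift0 s) :: D.popw w := by
  simp [PopD.popw]

private theorem popw_inr (D : PopD C κ ι) (V : Ltr κ ι) (w : List (Sy κ ι)) :
    D.popw (.inr V :: w) = D.pop V ++ D.popw w := by
  simp [PopD.popw]

private theorem length_blocks_aux (Lp Lx : ℕ → Bool) (D : PopD C κ ι)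
    (hl : ∀ V, (D.pre V).IsChain (fun s t => grel (side Lp Lx) (bs s) (bs t) = true))
    (hr : ∀ V, (D.suf V).IsChain (fun s t => grel (side Lp Lx) (bs s) (bs t) = true)) :
    ∀ w : List (Sy κ ι),
      (D.blocks (side Lp Lx) w).length ≤ cutc Lp Lx w + 4 * vcount w + beg w
  | [] => by simp [PopD.blocks, PopD.popw]
  | [.inl s] => by
    have := length_splitBy_le (srel (side Lp Lx)) (D.popw [.inl s])
    simp only [PopD.blocks]
    rw [popw_inl] at this ⊢
    simp only [PopD.popw, List.flatMap_nil, List.length_cons, List.length_nil] at this ⊢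
    simp only [beg]
    omega
  | .inl s :: .inl t :: w => by
    have ih := length_blocks_aux Lp Lx D hl hr (.inl t :: w)
    simp only [PopD.blocks] at ih ⊢
    rw [popw_inl, popw_inl]
    rw [popw_inl] at ih
    simp only [beg] at ih ⊢
    have hv : vcount (.inl s :: .inl t :: w : List (Sy κ ι)) = vcount (.inl t :: w) := by
      simp [vcount]
    rw [hv]
    simp only [cutc]
    by_cases h : grel (side Lp Lx) s t = true
    · rw [length_splitBy_cons (srel (side Lp Lx)) _ _ _ (by
        simp only [srel, bs_lift0]; exact h)]
      rw [if_pos h]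
      omega
    · rw [if_neg h]
      have h4 := length_splitBy_append_le (srel (side Lp Lx))
        [(.inl (lift0 s) : SS C κ ι)] (.inl (lift0 t) :: D.popw w)
      have h5 := length_splitBy_le (srel (side Lp Lx)) [(.inl (lift0 s) : SS C κ ι)]
      simp only [List.singleton_append, List.length_cons, List.length_nil] at h4 h5
      omega
  | .inl s :: .inr V :: w => by
    have ih := length_blocks_aux Lp Lx D hl hr (.inr V :: w)
    simp only [PopD.blocks] at ih ⊢
    rw [popw_inl]
    simp only [beg] at ih ⊢
    have hv : vcount (.inl s :: .inr V :: w : List (Sy κ ι)) = vcount (.inr V :: w) := by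
      simp [vcount]
    rw [hv]
    simp only [cutc]
    have h4 := length_splitBy_append_le (srel (side Lp Lx))
      [(.inl (lift0 s) : SS C κ ι)] (D.popw (.inr V :: w))
    have h5 := length_splitBy_le (srel (side Lp Lx)) [(.inl (lift0 s) : SS C κ ι)]
    simp only [List.singleton_append, List.length_cons, List.length_nil] at h4 h5
    omega
  | .inr V :: w => by
    have ih := length_blocks_aux Lp Lx D hl hr w
    have hb := beg_le w
    have hc : cutc Lp Lx (.inr V :: w) = cutc Lp Lx w := by
      cases w with
      | nil => rfl
      | cons t w => simp only [cutc]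
    have hv : vcount (.inr V :: w : List (Sy κ ι)) = vcount w + 1 := by
      simp [vcount]
    rw [hc, hv]
    simp only [PopD.blocks] at ih ⊢
    rw [popw_inr]
    have h1 := length_splitBy_append_le (srel (side Lp Lx)) (D.pop V) (D.popw w)
    have h2 := length_pop_blocks (side Lp Lx) D hl hr V
    omega

theorem length_blocks (Lp Lx : ℕ → Bool) (D : PopD C κ ι)
    (hl : ∀ V, (D.pre V).IsChain (fun s t => grel (side Lp Lx) (bs s) (bs t) = true))
    (hr : ∀ V, (D.suf V).IsChain (fun s t => grel (side Lp Lx) (bs s) (bs t) = true))
    (w : List (Sy κ ι)) :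
    (D.blocks (side Lp Lx) w).length ≤ cutc Lp Lx w + 4 * vcount w + 1 := by
  have h1 := length_blocks_aux Lp Lx D hl hr w
  have h2 := beg_le w
  omega

private theorem countP_nmb_le (z : C → ℕ) (P : List (List ℕ)) (X : List (List (Ltr ℕ ℕ)))
    (b : List (SS C κ ι)) :
    (if (nmb z P X b : Sy κ ι).isRight = true then 1 else 0) ≤
      b.countP Sum.isRight := by
  unfold nmb
  split
  · simp
  · simp

private theorem countP_map_nmb_le (z : C → ℕ) (P : List (List ℕ)) (X : List (List (Ltr ℕ ℕ)))
    (B : List (List (SS C κ ι))) :
    (B.map (nmb z P X)).countP Sum.isRight ≤ B.flatten.countP Sum.isRight := by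
  induction B with
  | nil => simp
  | cons b B ih =>
    rw [List.map_cons, List.flatten_cons, List.countP_append, List.countP_cons]
    have := countP_nmb_le z P X b
    omega

private theorem countP_popw_le (D : PopD C κ ι) (w : List (Sy κ ι)) :
    (D.popw w).countP Sum.isRight ≤ vcount w := by
  induction w with
  | nil => simp [PopD.popw, vcount]
  | cons s w ih =>
    cases s with
    | inl s =>
      rw [popw_inl]
      simpa [vcount] using ih
    | inr V =>
      rw [popw_inr, List.countP_append]
      have hv : vcount (.inr V :: w : List (Sy κ ι)) = vcount w + 1 := by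
        simp [vcount]
      have h0 : ∀ u : List (SL C),
          (u.map (Sum.inl : SL C → SS C κ ι)).countP Sum.isRight = 0 := by
        intro u
        rw [List.countP_eq_zero]
        intro a ha
        rw [List.mem_map] at ha
        obtain ⟨a, -, rfl⟩ := ha
        simp
      have h1 : (D.pop V).countP Sum.isRight ≤ 1 := by
        unfold PopD.pop
        rw [List.countP_append, List.countP_append, h0, h0]
        split_ifs <;> simp
      omega

theorem vcount_neww (sd : Ltr ℕ ℕ → Bool) (D : PopD C κ ι) (z : C → ℕ) (P : List (List ℕ))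
    (X : List (List (Ltr ℕ ℕ))) (w : List (Sy κ ι)) :
    vcount (D.neww sd z P X w) ≤ vcount w := by
  have h1 := countP_map_nmb_le z P X (D.blocks sd w)
  have h2 : (D.blocks sd w).flatten = D.popw w := by
    simp only [PopD.blocks, List.flatten_splitBy]
  rw [h2] at h1
  exact h1.trans (countP_popw_le D w)

theorem lcount_neww (sd : Ltr ℕ ℕ → Bool) (D : PopD C κ ι) (z : C → ℕ) (P : List (List ℕ))
    (X : List (List (Ltr ℕ ℕ))) (w : List (Sy κ ι)) :
    lcount (D.neww sd z P X w) ≤ (D.blocks sd w).length := by
  unfold lcount
  refine List.countP_le_length.trans ?_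
  simp [PopD.neww]

theorem length_popw (D : PopD C κ ι) (hl : ∀ V, (D.pre V).length ≤ 2)
    (hr : ∀ V, (D.suf V).length ≤ 2) (w : List (Sy κ ι)) :
    (D.popw w).length ≤ 5 * w.length := by
  induction w with
  | nil => simp [PopD.popw]
  | cons s w ih =>
    cases s with
    | inl s =>
      rw [popw_inl]
      simp only [List.length_cons]
      omega
    | inr V =>
      rw [popw_inr]
      have h1 := hl V
      have h2 := hr V
      have h3 : (D.pop V).length ≤ 5 := by
        unfold PopD.pop
        rw [List.length_append, List.length_append, List.length_map, List.length_map]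
        have : (if D.keep V = true then [(.inr V : SS C κ ι)] else []).length ≤ 1 := by
          split_ifs <;> simp
        omega
      rw [List.length_append]
      simp only [List.length_cons]
      omega

private theorem length_le_of_mem_flatten {X : Type} (B : List (List X)) (b : List X)
    (h : b ∈ B) : b.length ≤ B.flatten.length := by
  induction B with
  | nil => simp at h
  | cons c B ih =>
    rw [List.flatten_cons, List.length_append]
    rcases List.mem_cons.1 h with rfl | h
    · omega
    · have := ih h
      omega

private theorem lefts_map (u : List (SL C)) :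
    lefts (u.map (Sum.inl : SL C → SS C κ ι)) = u := by
  induction u with
  | nil => rfl
  | cons a u ih =>
    unfold lefts at ih ⊢
    rw [List.map_cons, List.filterMap_cons]
    simp only [Sum.getLeft?_inl]
    rw [ih]

/-- The number and the lengths of the letter blocks. -/
theorem length_lblocks (sd : Ltr ℕ ℕ → Bool) (D : PopD C κ ι) (w : List (Sy κ ι)) :
    ((D.blocks sd w).filterMap lblock).length ≤ (D.blocks sd w).length ∧
    (D.blocks sd w).length ≤ (D.popw w).length ∧
    ∀ u ∈ (D.blocks sd w).filterMap lblock, u ≠ [] ∧ u.length ≤ (D.popw w).length ∧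
      u.IsChain (fun s t => grel sd (bs s) (bs t) = true) := by
  refine ⟨List.length_filterMap_le _ _, length_splitBy_le _ _, ?_⟩
  intro u hu
  rw [List.mem_filterMap] at hu
  obtain ⟨b, hb, hbu⟩ := hu
  have hlen : b.length ≤ (D.popw w).length := by
    have := length_le_of_mem_flatten (D.blocks sd w) b hb
    simpa only [PopD.blocks, List.flatten_splitBy] using this
  rcases block_cases sd (D.popw w) b hb with ⟨V, rfl⟩ | ⟨u', hu', rfl, hch⟩
  · simp [lblock] at hbu
  · have h1 : lblock (u'.map (Sum.inl : SL C → SS C κ ι)) = some u' := by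
      unfold lblock
      split
      · rename_i V heq
        exfalso
        cases u' with
        | nil => simp at heq
        | cons a u' => simp at heq
      · rw [lefts_map]
    rw [h1] at hbu
    obtain rfl : u' = u := by simpa using hbu
    rw [List.length_map] at hlen
    exact ⟨hu', hlen, hch⟩

end Pool.Agent.Lib.MP_ea09ae_al
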