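import Pool.Agent.Lib.MP_ea09ae_al.Dicut

/-!
# Choice of the sides
-/

namespace Pool.Agent.Lib.MP_ea09ae_al

/-- all adjacent pairs of explicit letters of a word -/
def adjp {κ ι : Type} : List (Sy κ ι) → List (Ltr ℕ ℕ × Ltr ℕ ℕ)
  | [] => []
  | [_] => []
  | .inl s :: .inl t :: w => (s, t) :: adjp (.inl t :: w)
  | .inl _ :: .inr v :: w => adjp (.inr v :: w)
  | .inr _ :: t :: w => adjp (t :: w)

theorem cutc_eq {κ ι : Type} (Lp Lx : ℕ → Bool) (w : List (Sy κ ι)) :
    cutc Lp Lx w = (adjp w).countP (fun e => !grel (side Lp Lx) e.1 e.2) := by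
  induction w using adjp.induct with
  | case1 => simp [cutc, adjp]
  | case2 a => cases a <;> simp [cutc, adjp]
  | case3 s t w ih =>
    simp only [cutc, adjp, List.countP_cons, ih]
    by_cases h : grel (side Lp Lx) s t = true
    · simp [h]
    · simp only [Bool.not_eq_true] at h
      simp [h, add_comm]
  | case4 s v w ih => simp only [cutc, adjp, ih]
  | case5 v t w ih => simp only [cutc, adjp, ih]

theorem lcount_inl {κ ι : Type} (s : Ltr ℕ ℕ) (w : List (Sy κ ι)) :
    lcount (.inl s :: w) = lcount w + 1 := by
  simp [lcount]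

theorem lcount_inr {κ ι : Type} (v : Ltr κ ι) (w : List (Sy κ ι)) :
    lcount (.inr v :: w) = lcount w := by
  simp [lcount]

theorem vcount_inl {κ ι : Type} (s : Ltr ℕ ℕ) (w : List (Sy κ ι)) :
    vcount (.inl s :: w) = vcount w := by
  simp [vcount]

theorem vcount_inr {κ ι : Type} (v : Ltr κ ι) (w : List (Sy κ ι)) :
    vcount (.inr v :: w) = vcount w + 1 := by
  simp [vcount]

theorem length_adjp_le {κ ι : Type} (w : List (Sy κ ι)) : (adjp w).length ≤ lcount w := by
  induction w using adjp.induct with
  | case1 => simp [adjp]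
  | case2 a => cases a <;> simp [adjp]
  | case3 s t w ih =>
    simp only [adjp, List.length_cons]
    rw [lcount_inl]
    omega
  | case4 s v w ih =>
    simp only [adjp]
    rw [lcount_inl]
    omega
  | case5 v t w ih =>
    simp only [adjp]
    rw [lcount_inr]
    omega

theorem adjp_inr {κ ι : Type} (v : Ltr κ ι) (w : List (Sy κ ι)) :
    adjp (.inr v :: w) = adjp w := by
  cases w <;> simp only [adjp]

theorem lcount_le_adjp {κ ι : Type} : ∀ w : List (Sy κ ι),
    lcount w ≤ (adjp w).length + vcount w + 1
  | [] => by simp [lcount]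
  | .inr v :: w => by
    have h := lcount_le_adjp w
    rw [adjp_inr, lcount_inr, vcount_inr]
    omega
  | [.inl s] => by simp [lcount, adjp]
  | .inl s :: .inl t :: w => by
    have h := lcount_le_adjp (.inl t :: w)
    rw [lcount_inl, vcount_inl]
    simp only [adjp, List.length_cons]
    omega
  | .inl s :: .inr v :: w => by
    have h := lcount_le_adjp w
    rw [lcount_inl, vcount_inl, lcount_inr, vcount_inr]
    simp only [adjp]
    rw [adjp_inr]
    omega

theorem mem_adjp_val {κ ι : Type} (σ : Mor κ ι ℕ ℕ) (w : List (Sy κ ι)) (s t : Ltr ℕ ℕ)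
    (h : (s, t) ∈ adjp w) : ∃ u w', σ.val w = u ++ s :: t :: w' := by
  induction w using adjp.induct with
  | case1 => simp [adjp] at h
  | case2 a => cases a <;> simp [adjp] at h
  | case3 s' t' w ih =>
    simp only [adjp, List.mem_cons, Prod.mk.injEq] at h
    rcases h with ⟨rfl, rfl⟩ | h
    · exact ⟨[], w.flatMap (Sum.elim (fun l => [l]) σ.letter), by
        simp [Mor.val]⟩
    · obtain ⟨u, w', hu⟩ := ih h
      refine ⟨s' :: u, w', ?_⟩
      have : σ.val (Sum.inl s' :: Sum.inl t' :: w) = s' :: σ.val (Sum.inl t' :: w) := by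
        simp [Mor.val]
      rw [this, hu]
      simp
  | case4 s' v' w ih =>
    obtain ⟨u, w', hu⟩ := ih (by simpa only [adjp] using h)
    refine ⟨s' :: u, w', ?_⟩
    have : σ.val (Sum.inl s' :: Sum.inr v' :: w) = s' :: σ.val (Sum.inr v' :: w) := by
      simp [Mor.val]
    rw [this, hu]
    simp
  | case5 v' t' w ih =>
    obtain ⟨u, w', hu⟩ := ih (by simpa only [adjp] using h)
    refine ⟨σ.letter v' ++ u, w', ?_⟩
    have : σ.val (Sum.inr v' :: t' :: w) = σ.letter v' ++ σ.val (t' :: w) := by
      simp [Mor.val]
    rw [this, hu]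
    simp

/-- all adjacent pairs of a system -/
def adjs {κ ι : Type} (S : Sys κ ι) : List (Ltr ℕ ℕ × Ltr ℕ ℕ) :=
  S.flatMap (fun e => adjp e.1 ++ adjp e.2)

theorem ctot_eq {κ ι : Type} (Lp Lx : ℕ → Bool) (S : Sys κ ι) :
    ctot Lp Lx S = (adjs S).countP (fun e => !grel (side Lp Lx) e.1 e.2) := by
  unfold ctot adjs
  induction S with
  | nil => simp
  | cons a S ih =>
    rw [List.map_cons, List.sum_cons, List.flatMap_cons, List.countP_append, List.countP_append, ih,
      cutc_eq, cutc_eq]

theorem length_adjs_le {κ ι : Type} (S : Sys κ ι) : (adjs S).length ≤ ltot S := by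
  unfold ltot adjs
  induction S with
  | nil => simp
  | cons a S ih =>
    simp only [List.map_cons, List.sum_cons, List.flatMap_cons, List.length_append]
    have h1 := length_adjp_le a.1
    have h2 := length_adjp_le a.2
    omega

theorem ltot_le_adjs {κ ι : Type} (S : Sys κ ι) :
    ltot S ≤ (adjs S).length + vtot S + 2 * S.length := by
  unfold ltot vtot adjs
  induction S with
  | nil => simp
  | cons a S ih =>
    simp only [List.map_cons, List.sum_cons, List.flatMap_cons, List.length_append,
      List.length_cons]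
    have h1 := lcount_le_adjp a.1
    have h2 := lcount_le_adjp a.2
    omega

theorem ctot_le {κ ι : Type} (Lp Lx : ℕ → Bool) (S : Sys κ ι) : ctot Lp Lx S ≤ ltot S := by
  rw [ctot_eq]
  exact List.countP_le_length.trans (length_adjs_le S)

theorem exists_long {κ ι : Type} (σ : Mor κ ι ℕ ℕ) (S : Sys κ ι) (hw : S.length < wt σ S) :
    ∃ e ∈ S, ∃ (s t : Ltr ℕ ℕ) (w : List (Ltr ℕ ℕ)), σ.val e.1 = s :: t :: w := by
  by_contra hcon
  push Not at hcon
  have h1 : ∀ e ∈ S, (σ.val e.1).length ≤ 1 := by
    intro e he
    rcases h : σ.val e.1 with _ | ⟨s, _ | ⟨t, w⟩⟩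
    · simp
    · simp
    · exact absurd h (hcon e he s t w)
  have h2 : wt σ S ≤ S.length := by
    unfold wt
    have := List.sum_le_card_nsmul (S.map (fun e => (σ.val e.1).length)) 1 (by
      intro x hx
      rw [List.mem_map] at hx
      obtain ⟨e, he, rfl⟩ := hx
      exact h1 e he)
    simpa using this
  omega

theorem choose_cut {κ ι : Type} (S : Sys κ ι) (σ : Mor κ ι ℕ ℕ) (hσ : Solves σ S) (v : ℕ)
    (hN : 1 ≤ S.length) (hv : vtot S ≤ v) (hl : ltot S ≤ 16 * v + 8 * S.length)
    (hw : S.length < wt σ S) :
    ∃ Lp Lx : ℕ → Bool,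
      (∃ e ∈ S, ∃ (u : List (Ltr ℕ ℕ)) (s t : Ltr ℕ ℕ) (w : List (Ltr ℕ ℕ)),
        σ.val e.1 = u ++ s :: t :: w ∧ grel (side Lp Lx) s t = true) ∧
      ctot Lp Lx S + 4 * v + 2 * S.length ≤ 16 * v + 8 * S.length := by
  by_cases hc : ltot S ≤ 12 * v + 6 * S.length
  · obtain ⟨e, he, s, t, w, hval⟩ := exists_long σ S hw
    by_cases hst : s = t
    · refine ⟨fun _ => true, fun _ => true, ⟨e, he, [], s, t, w, by simpa using hval, ?_⟩, ?_⟩
      · simp [grel, hst]
      · have := ctot_le (fun _ => true) (fun _ => true) S
        omega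
    · obtain ⟨Lp, Lx, hQ⟩ := maxdicut [(s, t)] (by
        intro e he
        rw [List.mem_singleton] at he
        rw [he]
        exact hst)
      refine ⟨Lp, Lx, ⟨e, he, [], s, t, w, by simpa using hval, ?_⟩, ?_⟩
      · by_contra hcon
        have h0 : (side Lp Lx s && !side Lp Lx t) = false := by
          unfold grel at hcon
          simp only [Bool.not_eq_true, Bool.or_eq_false_iff] at hcon
          exact hcon.2
        simp [h0] at hQ
      · have := ctot_le Lp Lx S
        omega
  · push Not at hc
    set Q := (adjs S).filter (fun e => decide (e.1 ≠ e.2)) with hQdef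
    obtain ⟨Lp, Lx, hQ⟩ := maxdicut Q (by
      intro e he
      rw [hQdef, List.mem_filter] at he
      simpa using he.2)
    have hlow := ltot_le_adjs S
    have hup := length_adjs_le S
    have hQl : Q.length ≤ (adjs S).length := List.length_filter_le _ _
    refine ⟨Lp, Lx, ?_, ?_⟩
    · -- a pair which is not cut
      have hex : ∃ e ∈ adjs S, grel (side Lp Lx) e.1 e.2 = true := by
        by_contra hcon
        push Not at hcon
        have hall : Q = adjs S := by
          rw [hQdef, List.filter_eq_self]
          intro e he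
          have h1 := hcon e he
          simp only [decide_eq_true_eq]
          intro h2
          apply h1
          simp [grel, h2]
        have hzero : Q.countP (fun e => side Lp Lx e.1 && !side Lp Lx e.2) = 0 := by
          rw [List.countP_eq_zero]
          intro e he h2
          rw [hall] at he
          apply hcon e he
          unfold grel
          rw [h2]
          simp
        rw [hzero, hall] at hQ
        omega
      obtain ⟨⟨s, t⟩, he, hg⟩ := hex
      unfold adjs at he
      rw [List.mem_flatMap] at he
      obtain ⟨e, heS, hmem⟩ := he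
      rw [List.mem_append] at hmem
      rcases hmem with hmem | hmem
      · obtain ⟨u, w', hu⟩ := mem_adjp_val σ _ s t hmem
        exact ⟨e, heS, u, s, t, w', hu, hg⟩
      · obtain ⟨u, w', hu⟩ := mem_adjp_val σ _ s t hmem
        exact ⟨e, heS, u, s, t, w', by rw [hσ e heS]; exact hu, hg⟩
    · have hct : ctot Lp Lx S + Q.countP (fun e => side Lp Lx e.1 && !side Lp Lx e.2) ≤ Q.length := by
        rw [ctot_eq]
        have h1 : (adjs S).countP (fun e => !grel (side Lp Lx) e.1 e.2)
            ≤ Q.countP (fun e => !(side Lp Lx e.1 && !side Lp Lx e.2)) := by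
          rw [hQdef, List.countP_filter]
          apply List.countP_mono_left
          intro e _ h2
          unfold grel at h2
          simp only [Bool.not_or, Bool.and_eq_true, Bool.not_eq_true', decide_eq_false_iff_not] at h2
          simp only [Bool.and_eq_true, decide_eq_true_eq]
          refine ⟨?_, h2.1⟩
          have h5 := h2.2
          cases h6 : side Lp Lx e.1 <;> cases h7 : side Lp Lx e.2 <;> simp_all
        have h3 := List.length_eq_countP_add_countP (l := Q)
          (fun e : Ltr ℕ ℕ × Ltr ℕ ℕ => side Lp Lx e.1 && !side Lp Lx e.2)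
        simp only [Bool.not_eq_true] at h3
        have h4 : Q.countP (fun e => decide ((side Lp Lx e.1 && !side Lp Lx e.2) = false))
            = Q.countP (fun e => !(side Lp Lx e.1 && !side Lp Lx e.2)) := by
          apply List.countP_congr
          intro e _
          simp
        omega
      omega

end Pool.Agent.Lib.MP_ea09ae_al
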