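import Mathlib

/-!
# Word equations with mirrored pairs of variables: definitions

`Ltr α β` is the alphabet with letters `p a`, their mirrors `q a` (`a : α`) and unpaired
letters `x b` (`b : β`).  The same type is used for variables.
-/

namespace Pool.Agent.Lib.MP_ea09ae_al

/-- Letters (or variables): `p a`, its mirror `q a`, and the unpaired letter `x b`. -/
inductive Ltr (α β : Type) : Type
  | p : α → Ltr α β
  | q : α → Ltr α β
  | x : β → Ltr α β
  deriving DecidableEq

/-- A mirror compatible substitution: `p a` goes to a word in the letters `p`, and `q a` goes to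
the mirror of that word. -/
structure Mor (α β α' β' : Type) : Type where
  f : α → List α'
  g : β → List (Ltr α' β')

/-- The image of a letter. -/
def Mor.letter {α β α' β' : Type} (m : Mor α β α' β') : Ltr α β → List (Ltr α' β')
  | .p a => (m.f a).map .p
  | .q a => (m.f a).reverse.map .q
  | .x b => m.g b

/-- The image of a word. -/
def Mor.word {α β α' β' : Type} (m : Mor α β α' β') (w : List (Ltr α β)) :
    List (Ltr α' β') :=
  w.flatMap m.letter

/-- Symbols of an equation: an explicit letter (with indices in `ℕ`) or a variable. -/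
abbrev Sy (κ ι : Type) : Type := Ltr ℕ ℕ ⊕ Ltr κ ι

/-- A system of word equations. -/
abbrev Sys (κ ι : Type) : Type := List (List (Sy κ ι) × List (Sy κ ι))

/-- The value of a word with variables under an assignment of the variables. -/
def Mor.val {κ ι : Type} (σ : Mor κ ι ℕ ℕ) (w : List (Sy κ ι)) : List (Ltr ℕ ℕ) :=
  w.flatMap (Sum.elim (fun l => [l]) σ.letter)

/-- `σ` solves the system `S`. -/
def Solves {κ ι : Type} (σ : Mor κ ι ℕ ℕ) (S : Sys κ ι) : Prop :=
  ∀ e ∈ S, σ.val e.1 = σ.val e.2

/-- The weight of `σ` on `S`: the total length of the values of the left sides. -/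
def wt {κ ι : Type} (σ : Mor κ ι ℕ ℕ) (S : Sys κ ι) : ℕ :=
  (S.map (fun e => (σ.val e.1).length)).sum

/-- `S` has a solution of weight at most `n`. -/
def HasSol {κ ι : Type} (S : Sys κ ι) (n : ℕ) : Prop :=
  ∃ σ : Mor κ ι ℕ ℕ, Solves σ S ∧ wt σ S ≤ n

/-- number of variable occurrences in a word -/
def vcount {κ ι : Type} (w : List (Sy κ ι)) : ℕ := w.countP Sum.isRight

/-- number of explicit letters in a word -/
def lcount {κ ι : Type} (w : List (Sy κ ι)) : ℕ := w.countP Sum.isLeft

def vtot {κ ι : Type} (S : Sys κ ι) : ℕ := (S.map (fun e => vcount e.1 + vcount e.2)).sum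

def ltot {κ ι : Type} (S : Sys κ ι) : ℕ := (S.map (fun e => lcount e.1 + lcount e.2)).sum

/-- the letters of a word have indices below `B` -/
def small (B : ℕ) : Ltr ℕ ℕ → Prop
  | .p a => a < B
  | .q a => a < B
  | .x b => b < B

/-- The finite set of systems used as states. -/
def Bd {κ ι : Type} (N v B : ℕ) (S : Sys κ ι) : Prop :=
  S.length = N ∧ vtot S ≤ v ∧ ltot S ≤ B ∧
    ∀ e ∈ S, (∀ l, Sum.inl l ∈ e.1 → small B l) ∧ (∀ l, Sum.inl l ∈ e.2 → small B l)

/-! ### the compression relation -/

/-- `s` and `t` stay together if they are equal, or if `s` is on the left side and `t` is not. -/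
def grel {X : Type} [DecidableEq X] (sd : X → Bool) (s t : X) : Bool :=
  decide (s = t) || (sd s && !sd t)

/-- the side of a letter: mirrored letters have opposite sides. -/
def side (Lp Lx : ℕ → Bool) : Ltr ℕ ℕ → Bool
  | .p a => Lp a
  | .q a => !Lp a
  | .x b => Lx b

/-- number of cut adjacent pairs of explicit letters -/
def cutc {κ ι : Type} (Lp Lx : ℕ → Bool) : List (Sy κ ι) → ℕ
  | [] => 0
  | [_] => 0
  | .inl s :: .inl t :: w =>
      (if grel (side Lp Lx) s t = true then 0 else 1) + cutc Lp Lx (.inl t :: w)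
  | .inl _ :: .inr v :: w => cutc Lp Lx (.inr v :: w)
  | .inr _ :: t :: w => cutc Lp Lx (t :: w)

def ctot {κ ι : Type} (Lp Lx : ℕ → Bool) (S : Sys κ ι) : ℕ :=
  (S.map (fun e => cutc Lp Lx e.1 + cutc Lp Lx e.2)).sum

/-! ### words with exponents -/

/-- Evaluation of exponents: `(x, none)` is one letter `x`, `(x, some c)` is `x ^ (z c + 1)`. -/
def expo {C : Type} (z : C → ℕ) : Option C → ℕ
  | none => 1
  | some c => z c + 1

def ev {X C : Type} (z : C → ℕ) (w : List (X × Option C)) : List X :=
  w.flatMap (fun s => List.replicate (expo z s.2) s.1)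

end Pool.Agent.Lib.MP_ea09ae_al
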