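import Pool.Agent.Lib.MP_ea09ae_al.Defs

/-!
# A quarter of the pairs can be kept together
-/

namespace Pool.Agent.Lib.MP_ea09ae_al

namespace Dicut

/-- the sign variable of a letter -/
def vr : Ltr ℕ ℕ → Bool × ℕ
  | .p a => (true, a)
  | .q a => (true, a)
  | .x b => (false, b)

/-- the sign functions given by a finite set of variables -/
def Lpf (A : Finset (Bool × ℕ)) (n : ℕ) : Bool := decide ((true, n) ∈ A)

def Lxf (A : Finset (Bool × ℕ)) (n : ℕ) : Bool := decide ((false, n) ∈ A)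

/-- the sign of a letter -/
def sg (A : Finset (Bool × ℕ)) (s : Ltr ℕ ℕ) : ℤ :=
  if side (Lpf A) (Lxf A) s = true then 1 else -1

/-- change the membership of `v` -/
def fl (v : Bool × ℕ) (A : Finset (Bool × ℕ)) : Finset (Bool × ℕ) :=
  if v ∈ A then A.erase v else insert v A

theorem mem_fl (v u : Bool × ℕ) (A : Finset (Bool × ℕ)) :
    u ∈ fl v A ↔ (if u = v then v ∉ A else u ∈ A) := by
  unfold fl
  by_cases hv : v ∈ A <;> by_cases hu : u = v <;> simp [hv, hu]

theorem fl_fl (v : Bool × ℕ) (A : Finset (Bool × ℕ)) : fl v (fl v A) = A := by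
  ext u
  rw [mem_fl, mem_fl]
  by_cases hu : u = v
  · subst hu; simp
  · simp [hu, mem_fl]

theorem fl_ne (v : Bool × ℕ) (A : Finset (Bool × ℕ)) : fl v A ≠ A := by
  intro h
  have h1 : v ∈ fl v A ↔ v ∈ A := by rw [h]
  rw [mem_fl] at h1
  simp at h1

theorem fl_mem {T : Finset (Bool × ℕ)} {v : Bool × ℕ} (hv : v ∈ T) {A : Finset (Bool × ℕ)}
    (hA : A ∈ T.powerset) : fl v A ∈ T.powerset := by
  rw [Finset.mem_powerset] at hA ⊢
  intro u hu
  rw [mem_fl] at hu
  by_cases h : u = v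
  · rw [h]; exact hv
  · simp [h] at hu; exact hA hu

theorem sg_fl_same (A : Finset (Bool × ℕ)) (s : Ltr ℕ ℕ) : sg (fl (vr s) A) s = - sg A s := by
  unfold sg
  cases s with
  | p a =>
    have : (true, a) ∈ fl (true, a) A ↔ (true, a) ∉ A := by rw [mem_fl]; simp
    by_cases h : (true, a) ∈ A <;> simp [side, Lpf, vr, this, h]
  | q a =>
    have : (true, a) ∈ fl (true, a) A ↔ (true, a) ∉ A := by rw [mem_fl]; simp
    by_cases h : (true, a) ∈ A <;> simp [side, Lpf, vr, this, h]
  | x b =>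
    have : (false, b) ∈ fl (false, b) A ↔ (false, b) ∉ A := by rw [mem_fl]; simp
    by_cases h : (false, b) ∈ A <;> simp [side, Lxf, vr, this, h]

theorem sg_fl_other (A : Finset (Bool × ℕ)) (v : Bool × ℕ) (t : Ltr ℕ ℕ) (h : vr t ≠ v) :
    sg (fl v A) t = sg A t := by
  unfold sg
  cases t with
  | p a =>
    have h' : (true, a) ≠ v := h
    have : (true, a) ∈ fl v A ↔ (true, a) ∈ A := by rw [mem_fl]; simp [h']
    simp [side, Lpf, this]
  | q a =>
    have h' : (true, a) ≠ v := h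
    have : (true, a) ∈ fl v A ↔ (true, a) ∈ A := by rw [mem_fl]; simp [h']
    simp [side, Lpf, this]
  | x b =>
    have h' : (false, b) ≠ v := h
    have : (false, b) ∈ fl v A ↔ (false, b) ∈ A := by rw [mem_fl]; simp [h']
    simp [side, Lxf, this]

theorem sg_mul_of_vr_eq (A : Finset (Bool × ℕ)) (s t : Ltr ℕ ℕ) (hst : s ≠ t)
    (h : vr s = vr t) : sg A s * sg A t = -1 := by
  unfold sg
  cases s with
  | p a =>
    cases t with
    | p b => simp [vr] at h; exact absurd (by rw [h]) hst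
    | q b =>
      simp [vr] at h
      subst h
      by_cases h : (true, a) ∈ A <;> simp [side, Lpf, h]
    | x b => simp [vr] at h
  | q a =>
    cases t with
    | p b =>
      simp [vr] at h
      subst h
      by_cases h : (true, a) ∈ A <;> simp [side, Lpf, h]
    | q b => simp [vr] at h; exact absurd (by rw [h]) hst
    | x b => simp [vr] at h
  | x a =>
    cases t with
    | p b => simp [vr] at h
    | q b => simp [vr] at h
    | x b => simp [vr] at h; exact absurd (by rw [h]) hst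

theorem sum_sg {T : Finset (Bool × ℕ)} (s : Ltr ℕ ℕ) (hs : vr s ∈ T) :
    ∑ A ∈ T.powerset, sg A s = 0 := by
  apply Finset.sum_involution (fun A _ => fl (vr s) A)
  · intro A _
    rw [sg_fl_same]
    ring
  · intro A _ _
    exact fl_ne _ _
  · intro A hA
    exact fl_mem hs hA
  · intro A _
    exact fl_fl _ _

theorem sum_sg_mul {T : Finset (Bool × ℕ)} (s t : Ltr ℕ ℕ) (hst : s ≠ t) (hs : vr s ∈ T) :
    ∑ A ∈ T.powerset, sg A s * sg A t ≤ 0 := by
  by_cases h : vr s = vr t
  · apply Finset.sum_nonpos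
    intro A _
    rw [sg_mul_of_vr_eq A s t hst h]
    norm_num
  · apply le_of_eq
    apply Finset.sum_involution (fun A _ => fl (vr s) A)
    · intro A _
      rw [sg_fl_same, sg_fl_other A (vr s) t (fun h' => h h'.symm)]
      ring
    · intro A _ _
      exact fl_ne _ _
    · intro A hA
      exact fl_mem hs hA
    · intro A _
      exact fl_fl _ _

theorem four_ind (A : Finset (Bool × ℕ)) (s t : Ltr ℕ ℕ) :
    4 * (if (side (Lpf A) (Lxf A) s && !side (Lpf A) (Lxf A) t) = true then (1:ℤ) else 0)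
      = 1 + sg A s - sg A t - sg A s * sg A t := by
  unfold sg
  cases side (Lpf A) (Lxf A) s <;> cases side (Lpf A) (Lxf A) t <;> simp

theorem sum_ind {T : Finset (Bool × ℕ)} (s t : Ltr ℕ ℕ) (hst : s ≠ t) (hs : vr s ∈ T)
    (ht : vr t ∈ T) :
    (T.powerset.card : ℤ) ≤ ∑ A ∈ T.powerset,
      4 * (if (side (Lpf A) (Lxf A) s && !side (Lpf A) (Lxf A) t) = true then (1:ℤ) else 0) := by
  simp_rw [four_ind]
  rw [Finset.sum_sub_distrib, Finset.sum_sub_distrib, Finset.sum_add_distrib, sum_sg s hs,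
    sum_sg t ht]
  have := sum_sg_mul s t hst hs
  simp
  simpa using this

theorem sum_countP (T : Finset (Bool × ℕ)) (Q : List (Ltr ℕ ℕ × Ltr ℕ ℕ))
    (hQ : ∀ e ∈ Q, e.1 ≠ e.2) (hT : ∀ e ∈ Q, vr e.1 ∈ T ∧ vr e.2 ∈ T) :
    (Q.length : ℤ) * (T.powerset.card : ℤ) ≤ ∑ A ∈ T.powerset,
      4 * ((Q.countP (fun e => side (Lpf A) (Lxf A) e.1 && !side (Lpf A) (Lxf A) e.2) : ℕ) : ℤ) := by
  induction Q with
  | nil => simp
  | cons e Q ih =>
    have ih' := ih (fun e he => hQ e (List.mem_cons_of_mem _ he))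
      (fun e he => hT e (List.mem_cons_of_mem _ he))
    have h1 := sum_ind e.1 e.2 (hQ e List.mem_cons_self) (hT e List.mem_cons_self).1
      (hT e List.mem_cons_self).2
    have h2 : ∀ A : Finset (Bool × ℕ),
        4 * (((e :: Q).countP
          (fun e => side (Lpf A) (Lxf A) e.1 && !side (Lpf A) (Lxf A) e.2) : ℕ) : ℤ)
        = 4 * ((Q.countP (fun e => side (Lpf A) (Lxf A) e.1 && !side (Lpf A) (Lxf A) e.2) : ℕ) : ℤ)
          + 4 * (if (side (Lpf A) (Lxf A) e.1 && !side (Lpf A) (Lxf A) e.2) = true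
              then (1:ℤ) else 0) := by
      intro A
      rw [List.countP_cons]
      push_cast
      ring
    simp_rw [h2]
    rw [Finset.sum_add_distrib, List.length_cons]
    push_cast
    linarith

end Dicut

open Dicut in
theorem maxdicut (Q : List (Ltr ℕ ℕ × Ltr ℕ ℕ)) (hQ : ∀ e ∈ Q, e.1 ≠ e.2) :
    ∃ Lp Lx : ℕ → Bool,
      Q.length ≤ 4 * Q.countP (fun e => side Lp Lx e.1 && !side Lp Lx e.2) := by
  let T : Finset (Bool × ℕ) := (Q.map (fun e => vr e.1)).toFinset ∪ (Q.map (fun e => vr e.2)).toFinset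
  have hT : ∀ e ∈ Q, vr e.1 ∈ T ∧ vr e.2 ∈ T := by
    intro e he
    constructor
    · apply Finset.mem_union_left
      rw [List.mem_toFinset, List.mem_map]
      exact ⟨e, he, rfl⟩
    · apply Finset.mem_union_right
      rw [List.mem_toFinset, List.mem_map]
      exact ⟨e, he, rfl⟩
  have h := sum_countP T Q hQ hT
  by_contra hcon
  push Not at hcon
  have h3 : ∑ A ∈ T.powerset,
      4 * ((Q.countP (fun e => side (Lpf A) (Lxf A) e.1 && !side (Lpf A) (Lxf A) e.2) : ℕ) : ℤ)
      < ∑ _A ∈ T.powerset, (Q.length : ℤ) := by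
    apply Finset.sum_lt_sum_of_nonempty
    · exact ⟨∅, by simp⟩
    · intro A _
      have := hcon (Lpf A) (Lxf A)
      exact_mod_cast this
  rw [Finset.sum_const, nsmul_eq_mul] at h3
  linarith [mul_comm (Q.length : ℤ) (T.powerset.card : ℤ)]

end Pool.Agent.Lib.MP_ea09ae_al
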