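import Mathlib

/-!
# Small solutions of linear Diophantine systems (binary carries)
-/

namespace Pool.Agent.Lib.MP_ea09ae_al

/-- the carries are bounded -/
private theorem smallSol_carry {C : Type} [Fintype C] (A : C → ℤ) (b : ℤ) (M : ℕ)
    (hA : ∀ c, |A c| ≤ M) (hb : |b| ≤ M) (z : C → ℕ) (hz : ∑ c, A c * (z c : ℤ) = b) (j : ℕ) :
    |∑ c, A c * ((z c / 2 ^ j : ℕ) : ℤ)| ≤ (M * (Fintype.card C + 1) : ℕ) := by
  have hp : (0 : ℤ) < 2 ^ j := by positivity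
  have h1 : (2 : ℤ) ^ j * ∑ c, A c * ((z c / 2 ^ j : ℕ) : ℤ) =
      b - ∑ c, A c * ((z c % 2 ^ j : ℕ) : ℤ) := by
    rw [← hz, Finset.mul_sum, ← Finset.sum_sub_distrib]
    refine Finset.sum_congr rfl fun c _ => ?_
    have h2 : (z c : ℤ) = 2 ^ j * ((z c / 2 ^ j : ℕ) : ℤ) + ((z c % 2 ^ j : ℕ) : ℤ) := by
      exact_mod_cast (Nat.div_add_mod (z c) (2 ^ j)).symm
    rw [h2]
    have h3 : ((z c / 2 ^ j : ℕ) : ℤ) = ((z c / 2 ^ j : ℕ) : ℤ) := rfl
    push_cast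
    ring_nf
  have h2 : |∑ c, A c * ((z c % 2 ^ j : ℕ) : ℤ)| ≤ (Fintype.card C : ℤ) * (M * 2 ^ j) := by
    refine (Finset.abs_sum_le_sum_abs _ _).trans ?_
    have h3 : ∀ c ∈ (Finset.univ : Finset C), |A c * ((z c % 2 ^ j : ℕ) : ℤ)| ≤
        (M : ℤ) * 2 ^ j := by
      intro c _
      rw [abs_mul]
      refine mul_le_mul (hA c) ?_ (abs_nonneg _) (by positivity)
      rw [abs_of_nonneg (by positivity)]
      have h4 : z c % 2 ^ j ≤ 2 ^ j := (Nat.mod_lt _ (by positivity)).le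
      exact_mod_cast h4
    refine (Finset.sum_le_sum h3).trans ?_
    rw [Finset.sum_const, nsmul_eq_mul, Finset.card_univ]
  have h3 : |(2 : ℤ) ^ j * ∑ c, A c * ((z c / 2 ^ j : ℕ) : ℤ)| ≤
      2 ^ j * (M * (Fintype.card C + 1) : ℕ) := by
    rw [h1]
    refine (abs_sub _ _).trans ?_
    have h4 : (M : ℤ) ≤ M * 2 ^ j := by
      have : (1 : ℤ) ≤ 2 ^ j := by exact_mod_cast Nat.one_le_two_pow
      nlinarith [Int.natCast_nonneg M]
    have h5 : ((M * (Fintype.card C + 1) : ℕ) : ℤ) = (M : ℤ) * ((Fintype.card C : ℤ) + 1) := by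
      push_cast; ring
    rw [h5]
    nlinarith
  rw [abs_mul, abs_of_pos hp] at h3
  exact le_of_mul_le_mul_left h3 hp

theorem small_solution {R C : Type} [Fintype R] [Fintype C] (A : R → C → ℤ) (b : R → ℤ) (M : ℕ)
    (hA : ∀ r c, |A r c| ≤ M) (hb : ∀ r, |b r| ≤ M) (z : C → ℕ)
    (hz : ∀ r, ∑ c, A r c * (z c : ℤ) = b r) :
    ∃ z' : C → ℕ, (∀ r, ∑ c, A r c * (z' c : ℤ) = b r) ∧
      ∀ c, z' c < 2 ^ ((2 * (M * (Fintype.card C + 1)) + 1) ^ Fintype.card R) := by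
  classical
  -- a solution of minimal sum
  obtain ⟨z', hz', hmin⟩ : ∃ z' : C → ℕ, (∀ r, ∑ c, A r c * (z' c : ℤ) = b r) ∧
      ∀ y : C → ℕ, (∀ r, ∑ c, A r c * (y c : ℤ) = b r) → ∑ c, z' c ≤ ∑ c, y c := by
    have hex : ∃ n, ∃ y : C → ℕ, (∀ r, ∑ c, A r c * (y c : ℤ) = b r) ∧ ∑ c, y c = n :=
      ⟨_, z, hz, rfl⟩
    obtain ⟨y, hy, hyn⟩ := Nat.find_spec hex
    refine ⟨y, hy, fun x hx => ?_⟩
    rw [hyn]
    exact Nat.find_min' hex ⟨x, hx, rfl⟩
  refine ⟨z', hz', fun c0 => ?_⟩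
  by_contra hcon
  push Not at hcon
  set K : ℕ := M * (Fintype.card C + 1) with hK
  set s : ℕ := (2 * K + 1) ^ Fintype.card R with hs
  -- pigeonhole
  have hcard : (Fintype.piFinset fun _ : R => Finset.Icc (-(K : ℤ)) K).card <
      (Finset.range (s + 1)).card := by
    rw [Fintype.card_piFinset, Finset.prod_const, Finset.card_univ, Int.card_Icc,
      Finset.card_range]
    have h1 : ((K : ℤ) + 1 - -(K : ℤ)).toNat = 2 * K + 1 := by omega
    rw [h1, ← hs]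
    exact Nat.lt_succ_self s
  obtain ⟨i, hi, j, hj, hij, heq⟩ := Finset.exists_ne_map_eq_of_card_lt_of_maps_to hcard
    (f := fun j => fun r => ∑ c, A r c * ((z' c / 2 ^ j : ℕ) : ℤ)) (by
      intro j _
      rw [Finset.mem_coe, Fintype.mem_piFinset]
      intro r
      rw [Finset.mem_Icc]
      exact abs_le.1 (smallSol_carry (A r) (b r) M (hA r) (hb r) z' (hz' r) j))
  -- reduce to `i < j`
  have key : ∀ i j : ℕ, i < j → j ≤ s →
      (∀ r, ∑ c, A r c * ((z' c / 2 ^ i : ℕ) : ℤ) = ∑ c, A r c * ((z' c / 2 ^ j : ℕ) : ℤ)) →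
      False := by
    intro i j hij hjs heq
    have hle : ∀ c, z' c % 2 ^ i + 2 ^ i * (z' c / 2 ^ j) ≤ z' c := by
      intro c
      calc z' c % 2 ^ i + 2 ^ i * (z' c / 2 ^ j) ≤ z' c % 2 ^ i + 2 ^ i * (z' c / 2 ^ i) := by
            have h0 : z' c / 2 ^ j ≤ z' c / 2 ^ i :=
              Nat.div_le_div_left (Nat.pow_le_pow_right two_pos hij.le) (Nat.two_pow_pos i)
            exact Nat.add_le_add_left (Nat.mul_le_mul_left _ h0) _
        _ = z' c := Nat.mod_add_div _ _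
    have hlt : z' c0 % 2 ^ i + 2 ^ i * (z' c0 / 2 ^ j) < z' c0 := by
      have h1 : 1 ≤ z' c0 / 2 ^ j := by
        rw [Nat.le_div_iff_mul_le (by positivity), one_mul]
        exact (Nat.pow_le_pow_right two_pos hjs).trans hcon
      have h2 : z' c0 / 2 ^ j = z' c0 / 2 ^ i / 2 ^ (j - i) := by
        rw [Nat.div_div_eq_div_mul, ← pow_add, Nat.add_sub_cancel' hij.le]
      have h3 : 2 ≤ 2 ^ (j - i) := by
        calc 2 = 2 ^ 1 := rfl
          _ ≤ 2 ^ (j - i) := Nat.pow_le_pow_right two_pos (by omega)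
      have h4 : z' c0 / 2 ^ j < z' c0 / 2 ^ i := by
        rw [h2]
        apply Nat.div_lt_self _ (by omega)
        rw [h2] at h1
        by_contra h5
        have h6 : z' c0 / 2 ^ i = 0 := Nat.eq_zero_of_not_pos h5
        rw [h6, Nat.zero_div] at h1
        omega
      calc z' c0 % 2 ^ i + 2 ^ i * (z' c0 / 2 ^ j) < z' c0 % 2 ^ i + 2 ^ i * (z' c0 / 2 ^ i) := by
            exact Nat.add_lt_add_left (Nat.mul_lt_mul_of_pos_left h4 (Nat.two_pow_pos i)) _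
        _ = z' c0 := Nat.mod_add_div _ _
    have h1 := hmin (fun c => z' c % 2 ^ i + 2 ^ i * (z' c / 2 ^ j)) (fun r => by
      have h2 : ∑ c, A r c * ((z' c % 2 ^ i + 2 ^ i * (z' c / 2 ^ j) : ℕ) : ℤ) =
          ∑ c, A r c * ((z' c % 2 ^ i : ℕ) : ℤ) +
            2 ^ i * ∑ c, A r c * ((z' c / 2 ^ j : ℕ) : ℤ) := by
        rw [Finset.mul_sum, ← Finset.sum_add_distrib]
        refine Finset.sum_congr rfl fun c _ => ?_
        push_cast
        ring
      rw [h2, ← heq r, ← hz' r, Finset.mul_sum, ← Finset.sum_add_distrib]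
      refine Finset.sum_congr rfl fun c _ => ?_
      have h3 : (z' c : ℤ) = ((z' c % 2 ^ i : ℕ) : ℤ) + 2 ^ i * ((z' c / 2 ^ i : ℕ) : ℤ) := by
        exact_mod_cast (Nat.mod_add_div (z' c) (2 ^ i)).symm
      rw [show A r c * (z' c : ℤ) = A r c * (((z' c % 2 ^ i : ℕ) : ℤ) +
        2 ^ i * ((z' c / 2 ^ i : ℕ) : ℤ)) by rw [← h3]]
      ring)
    have h2 : ∑ c, (z' c % 2 ^ i + 2 ^ i * (z' c / 2 ^ j)) < ∑ c, z' c :=
      Finset.sum_lt_sum (fun c _ => hle c) ⟨c0, Finset.mem_univ _, hlt⟩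
    omega
  rw [Finset.mem_range] at hi hj
  have heq' : ∀ r, ∑ c, A r c * ((z' c / 2 ^ i : ℕ) : ℤ) =
      ∑ c, A r c * ((z' c / 2 ^ j : ℕ) : ℤ) := fun r => congrFun heq r
  rcases lt_or_gt_of_ne hij with h | h
  · exact key i j h (by omega) heq'
  · exact key j i h (by omega) fun r => (heq' r).symm

end Pool.Agent.Lib.MP_ea09ae_al
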