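import Pool.Agent.Lib.MP_ea09ae_al.Defs
import Pool.Agent.Lib.MP_ea09ae_al.SmallSol

/-!
# Small exponents for a finite list of equalities between runs
-/

namespace Pool.Agent.Lib.MP_ea09ae_al

theorem grel_refl {X : Type} [DecidableEq X] (sd : X → Bool) (s : X) : grel sd s s = true := by
  simp [grel]

theorem grel_cases {X : Type} [DecidableEq X] (sd : X → Bool) {s t : X}
    (h : grel sd s t = true) : s = t ∨ (sd s = true ∧ sd t = false) := by
  unfold grel at h
  by_cases hst : s = t
  · exact Or.inl hst
  · right
    simpa [hst] using h

theorem chain_mem {X : Type} [DecidableEq X] (sd : X → Bool) (u : List X) (a b : X)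
    (hu : (a :: u).IsChain (fun s t => grel sd s t = true)) (hb : b ∈ u) (hab : b ≠ a) :
    sd a = true ∧ sd b = false := by
  induction u generalizing a with
  | nil => simp at hb
  | cons c u ih =>
    rw [List.isChain_cons_cons] at hu
    rcases grel_cases sd hu.1 with h | h
    · subst h
      rw [List.mem_cons] at hb
      rcases hb with hb | hb
      · exact absurd hb hab
      · exact ih a hu.2 hb hab
    · rw [List.mem_cons] at hb
      rcases hb with hb | hb
      · rw [hb]
        exact h
      · by_cases hbc : b = c
        · rw [hbc]
          exact h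
        · have := (ih c hu.2 hb hbc).1
          rw [h.2] at this
          exact absurd this (by simp)

theorem chain_eq_of_count {X : Type} [DecidableEq X] (sd : X → Bool) (u v : List X)
    (hu : u.IsChain (fun s t => grel sd s t = true))
    (hv : v.IsChain (fun s t => grel sd s t = true))
    (h : ∀ a, u.count a = v.count a) : u = v := by
  induction u generalizing v with
  | nil =>
    cases v with
    | nil => rfl
    | cons b v =>
      have := h b
      simp at this
  | cons a u ih =>
    cases v with
    | nil =>
      have := h a
      simp at this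
    | cons b v =>
      by_cases hab : a = b
      · subst hab
        congr 1
        apply ih v hu.tail hv.tail
        intro c
        have := h c
        simp only [List.count_cons] at this
        omega
      · exfalso
        have hav : a ∈ v := by
          have h1 := h a
          simp only [List.count_cons_self] at h1
          have h2 : 0 < (b :: v).count a := by omega
          have h3 := List.count_pos_iff.mp h2
          rw [List.mem_cons] at h3
          rcases h3 with h3 | h3
          · exact absurd h3 hab
          · exact h3
        have hbu : b ∈ u := by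
          have h1 := h b
          simp only [List.count_cons_self] at h1
          have h2 : 0 < (a :: u).count b := by omega
          have h3 := List.count_pos_iff.mp h2
          rw [List.mem_cons] at h3
          rcases h3 with h3 | h3
          · exact absurd h3.symm hab
          · exact h3
        have h4 := chain_mem sd u a b hu hbu (fun e => hab e.symm)
        have h5 := chain_mem sd v b a hv hav hab
        rw [h4.2] at h5
        exact absurd h5.1 (by simp)

theorem ev_cons {X C : Type} (z : C → ℕ) (s : X × Option C) (w : List (X × Option C)) :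
    ev z (s :: w) = List.replicate (expo z s.2) s.1 ++ ev z w := by
  simp [ev]

theorem expo_pos_se {C : Type} (z : C → ℕ) (o : Option C) : 0 < expo z o := by
  cases o <;> simp [expo]

theorem mem_ev {X C : Type} (z : C → ℕ) (w : List (X × Option C)) (a : X) :
    a ∈ ev z w ↔ ∃ s ∈ w, s.1 = a := by
  unfold ev
  rw [List.mem_flatMap]
  constructor
  · rintro ⟨s, hs, ha⟩
    rw [List.mem_replicate] at ha
    exact ⟨s, hs, ha.2.symm⟩
  · rintro ⟨s, hs, rfl⟩
    exact ⟨s, hs, List.mem_replicate.mpr ⟨(expo_pos_se z s.2).ne', rfl⟩⟩

theorem chain_replicate {X : Type} [DecidableEq X] (sd : X → Bool) (a : X) (n : ℕ) :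
    (List.replicate n a).IsChain (fun s t => grel sd s t = true) := by
  induction n with
  | zero => simp
  | succ n ih =>
    cases n with
    | zero => simp
    | succ n =>
      rw [List.replicate_succ, List.replicate_succ, List.isChain_cons_cons]
      rw [List.replicate_succ] at ih
      exact ⟨grel_refl sd a, ih⟩

theorem chain_ev {X C : Type} [DecidableEq X] (sd : X → Bool) (z : C → ℕ)
    (w : List (X × Option C)) (h : w.IsChain (fun s t => grel sd s.1 t.1 = true)) :
    (ev z w).IsChain (fun s t => grel sd s t = true) := by
  induction w with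
  | nil => simp [ev]
  | cons s w ih =>
    rw [ev_cons, List.isChain_append]
    refine ⟨chain_replicate sd s.1 _, ih h.tail, ?_⟩
    intro x hx y hy
    have hx' : x = s.1 := by
      have := List.mem_of_mem_getLast? hx
      exact (List.mem_replicate.mp this).2
    cases w with
    | nil => simp [ev] at hy
    | cons t w =>
      have hy' : y = t.1 := by
        rw [ev_cons] at hy
        obtain ⟨n, hn⟩ := Nat.exists_eq_succ_of_ne_zero (expo_pos_se z t.2).ne'
        rw [hn, List.replicate_succ, List.cons_append, List.head?_cons] at hy
        simpa using hy.symm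
      rw [hx', hy']
      exact (List.isChain_cons_cons.mp h).1

theorem count_ev {X C : Type} [DecidableEq X] [DecidableEq C] [Fintype C] (z : C → ℕ)
    (w : List (X × Option C)) (a : X) :
    (ev z w).count a = w.countP (fun s => decide (s.1 = a))
      + ∑ c, w.count (a, some c) * z c := by
  induction w with
  | nil => simp [ev]
  | cons s w ih =>
    rw [ev_cons, List.count_append, ih, List.count_replicate]
    obtain ⟨x, o⟩ := s
    cases o with
    | none =>
      have h1 : ∀ c : C, ((x, none) :: w).count (a, some c) = w.count (a, some c) := by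
        intro c
        rw [List.count_cons]
        simp
      simp only [h1, List.countP_cons, expo]
      by_cases hxa : x = a
      · simp [hxa]
        ring
      · simp [hxa]
    | some c0 =>
      have h1 : ∀ c : C, ((x, some c0) :: w).count (a, some c) * z c
          = w.count (a, some c) * z c + (if c0 = c then (if x = a then z c else 0) else 0) := by
        intro c
        rw [List.count_cons]
        by_cases hxa : x = a
        · by_cases hc : c0 = c
          · simp [hxa, hc, add_mul]
          · simp [hxa, hc]
        · by_cases hc : c0 = c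
          · simp [hxa, hc]
          · simp [hxa, hc]
      simp only [h1, List.countP_cons, expo, Finset.sum_add_distrib, Finset.sum_ite_eq,
        Finset.mem_univ, if_true]
      by_cases hxa : x = a
      · simp [hxa]
        ring
      · simp [hxa]

theorem small_eval {X C : Type} [DecidableEq X] [Fintype C] (sd : X → Bool)
    (pairs : List (List (X × Option C) × List (X × Option C))) (M R : ℕ)
    (hlen : ∀ e ∈ pairs, e.1.length ≤ M ∧ e.2.length ≤ M)
    (hch : ∀ e ∈ pairs, e.1.IsChain (fun s t => grel sd s.1 t.1 = true) ∧
      e.2.IsChain (fun s t => grel sd s.1 t.1 = true))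
    (hR : pairs.length ≤ R) (z : C → ℕ) (hz : ∀ e ∈ pairs, ev z e.1 = ev z e.2) :
    ∃ z' : C → ℕ, (∀ e ∈ pairs, ev z' e.1 = ev z' e.2) ∧
      ∀ c, z' c < 2 ^ ((2 * (M * (Fintype.card C + 1)) + 1) ^ (R * M)) := by
  classical
  let A : Fin pairs.length × Fin M → C → ℤ := fun r c =>
    if h : (r.2 : ℕ) < (pairs.get r.1).1.length then
      ((pairs.get r.1).1.count (((pairs.get r.1).1.get ⟨r.2, h⟩).1, some c) : ℤ)
        - ((pairs.get r.1).2.count (((pairs.get r.1).1.get ⟨r.2, h⟩).1, some c) : ℤ)
    else 0
  let b : Fin pairs.length × Fin M → ℤ := fun r =>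
    if h : (r.2 : ℕ) < (pairs.get r.1).1.length then
      ((pairs.get r.1).2.countP (fun s => decide (s.1 = ((pairs.get r.1).1.get ⟨r.2, h⟩).1)) : ℤ)
        - ((pairs.get r.1).1.countP (fun s => decide (s.1 = ((pairs.get r.1).1.get ⟨r.2, h⟩).1)) : ℤ)
    else 0
  have hA : ∀ r c, |A r c| ≤ M := by
    intro r c
    simp only [A]
    split_ifs with h
    · have h1 := (hlen _ (List.get_mem pairs r.1)).1
      have h2 := (hlen _ (List.get_mem pairs r.1)).2
      have h3 := List.count_le_length (l := (pairs.get r.1).1)
        (a := (((pairs.get r.1).1.get ⟨r.2, h⟩).1, some c))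
      have h4 := List.count_le_length (l := (pairs.get r.1).2)
        (a := (((pairs.get r.1).1.get ⟨r.2, h⟩).1, some c))
      rw [abs_le]
      constructor <;> omega
    · simp
  have hb : ∀ r, |b r| ≤ M := by
    intro r
    simp only [b]
    split_ifs with h
    · have h1 := (hlen _ (List.get_mem pairs r.1)).1
      have h2 := (hlen _ (List.get_mem pairs r.1)).2
      have h3 := List.countP_le_length (l := (pairs.get r.1).1)
        (p := (fun s => decide (s.1 = ((pairs.get r.1).1.get ⟨r.2, h⟩).1)))
      have h4 := List.countP_le_length (l := (pairs.get r.1).2)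
        (p := (fun s => decide (s.1 = ((pairs.get r.1).1.get ⟨r.2, h⟩).1)))
      rw [abs_le]
      constructor <;> omega
    · simp
  have key : ∀ (y : C → ℕ) (r : Fin pairs.length × Fin M)
      (h : (r.2 : ℕ) < (pairs.get r.1).1.length),
      (∑ c, A r c * (y c : ℤ) = b r ↔
        (ev y (pairs.get r.1).1).count ((pairs.get r.1).1.get ⟨r.2, h⟩).1
          = (ev y (pairs.get r.1).2).count ((pairs.get r.1).1.get ⟨r.2, h⟩).1) := by
    intro y r h
    rw [count_ev, count_ev]
    simp only [A, b, dif_pos h]
    simp only [sub_mul, Finset.sum_sub_distrib]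
    zify
    constructor
    · intro e
      linarith
    · intro e
      linarith
  have hsol : ∀ r, ∑ c, A r c * (z c : ℤ) = b r := by
    intro r
    by_cases h : (r.2 : ℕ) < (pairs.get r.1).1.length
    · rw [key z r h, hz _ (List.get_mem pairs r.1)]
    · simp only [A, b, dif_neg h]
      simp
  obtain ⟨z', hz', hsmall⟩ := small_solution A b M hA hb z hsol
  refine ⟨z', ?_, ?_⟩
  · intro e he
    apply chain_eq_of_count sd _ _ (chain_ev sd z' _ (hch e he).1) (chain_ev sd z' _ (hch e he).2)
    intro a
    by_cases ha : ∃ s ∈ e.1, s.1 = a
    · obtain ⟨s, hs, hsa⟩ := ha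
      obtain ⟨k, rfl⟩ := List.get_of_mem he
      obtain ⟨m, hm⟩ := List.get_of_mem hs
      have hmM : (m : ℕ) < M := lt_of_lt_of_le m.2 (hlen _ he).1
      have h2 := (key z' (k, ⟨(m : ℕ), hmM⟩) m.2).mp (hz' _)
      have h3 : ((pairs.get k).1.get ⟨(m : ℕ), m.2⟩).1 = a := by
        rw [← hsa, ← hm]
      rw [← h3]
      exact h2
    · have h1 : a ∉ ev z' e.1 := by
        rw [mem_ev]
        exact ha
      have h2 : a ∉ ev z' e.2 := by
        rw [mem_ev]
        intro hcon
        rw [← mem_ev z, ← hz e he, mem_ev] at hcon
        exact ha hcon
      rw [List.count_eq_zero.mpr h1, List.count_eq_zero.mpr h2]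
  · intro c
    refine lt_of_lt_of_le (hsmall c) ?_
    apply Nat.pow_le_pow_right (by norm_num)
    apply Nat.pow_le_pow_right (by positivity)
    rw [Fintype.card_prod, Fintype.card_fin, Fintype.card_fin]
    exact Nat.mul_le_mul_right M hR

end Pool.Agent.Lib.MP_ea09ae_al
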