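import Pool.Agent.Lib.MP_ea09ae_al.Sym
import Pool.Agent.Lib.MP_ea09ae_al.SmallEval

/-!
# Small exponents
-/

namespace Pool.Agent.Lib.MP_ea09ae_al

variable {C κ ι : Type}

/-- the exponent parameter of a symbolic letter -/
def exs : SL C → Option C
  | .p s => s.2
  | .q s => s.2
  | .x s => s.2

theorem evM_letter (z : C → ℕ) (s : SL C) :
    (evM z).letter s = List.replicate (expo z (exs s)) (bs s) := by
  cases s <;> simp [Mor.letter, evM, exs, bs]

/-- a word over the paired letters, as a word with exponents -/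
def encP (l : List (ℕ × Option C)) : List (Ltr ℕ ℕ × Option C) :=
  l.map (fun s => (Ltr.p s.1, s.2))

/-- a word over symbolic letters, as a word with exponents -/
def encX (w : List (SL C)) : List (Ltr ℕ ℕ × Option C) := w.map (fun s => (bs s, exs s))

theorem ev_encP (z : C → ℕ) (l : List (ℕ × Option C)) :
    ev z (encP l) = (evp z l).map Ltr.p := by
  induction l with
  | nil => simp [ev, encP, evp]
  | cons s l ih =>
    have h1 : encP (s :: l) = (Ltr.p s.1, s.2) :: encP l := by simp [encP]
    have h2 : evp z (s :: l) = List.replicate (expo z s.2) s.1 ++ evp z l := by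
      simp [evp, evM]
    rw [h1, ev_cons, ih, h2]
    simp

theorem ev_encX (z : C → ℕ) (w : List (SL C)) : ev z (encX w) = (evM z).word w := by
  induction w with
  | nil => simp [ev, encX, Mor.word]
  | cons s w ih =>
    have h1 : encX (s :: w) = (bs s, exs s) :: encX w := by simp [encX]
    have h2 : (evM z).word (s :: w) = (evM z).letter s ++ (evM z).word w := by
      simp [Mor.word]
    rw [h1, ev_cons, ih, h2, evM_letter]

theorem grel_p (Lp Lx : ℕ → Bool) (a b : ℕ) :
    grel (side Lp Lx) (Ltr.p a) (Ltr.p b) = grel Lp a b := by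
  simp [grel, side]

theorem rep_spec {X Y : Type} [BEq Y] [LawfulBEq Y] (f : X → Y) (L : List X) (d x : X) (hx : x ∈ L) :
    L.getD ((L.map f).idxOf (f x)) d ∈ L ∧ f (L.getD ((L.map f).idxOf (f x)) d) = f x := by
  have h1 : f x ∈ L.map f := List.mem_map_of_mem hx
  have h2 : (L.map f).idxOf (f x) < (L.map f).length := List.idxOf_lt_length_iff.mpr h1
  have h3 : (L.map f).idxOf (f x) < L.length := by simpa using h2
  have h4 : L.getD ((L.map f).idxOf (f x)) d = L[(L.map f).idxOf (f x)] := by
    rw [List.getD_eq_getElem _ _ h3]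
  rw [h4]
  refine ⟨List.getElem_mem h3, ?_⟩
  have h5 : (L.map f)[(L.map f).idxOf (f x)] = f x := List.getElem_idxOf h2
  rw [List.getElem_map] at h5
  exact h5

theorem exists_small [Fintype C] (Lp Lx : ℕ → Bool) (PB : List (List (ℕ × Option C)))
    (XB : List (List (SL C))) (z : C → ℕ) (M R : ℕ)
    (hP : ∀ l ∈ PB, l.length ≤ M ∧ l.IsChain (fun s t => grel Lp s.1 t.1 = true))
    (hX : ∀ w ∈ XB, w.length ≤ M ∧
      w.IsChain (fun s t => grel (side Lp Lx) (bs s) (bs t) = true))
    (hR : PB.length + XB.length ≤ R) :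
    ∃ z' : C → ℕ,
      (∀ l ∈ PB, evp z' (PB.getD ((PB.map (evp z)).idxOf (evp z l)) []) = evp z' l) ∧
      (∀ w ∈ XB, (evM z').word (XB.getD ((XB.map (evM z).word).idxOf ((evM z).word w)) []) =
        (evM z').word w) ∧
      ∀ c, z' c < 2 ^ ((2 * (M * (Fintype.card C + 1)) + 1) ^ (R * M)) := by
  have hP' : ∀ l ∈ PB, (encP l).length ≤ M ∧
      (encP l).IsChain (fun s t => grel (side Lp Lx) s.1 t.1 = true) := by
    intro l hl
    refine ⟨by simpa [encP] using (hP l hl).1, ?_⟩
    unfold encP
    rw [List.isChain_map]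
    refine (hP l hl).2.imp ?_
    intro s t h
    simp only [grel_p]
    exact h
  have hX' : ∀ w ∈ XB, (encX w).length ≤ M ∧
      (encX w).IsChain (fun s t => grel (side Lp Lx) s.1 t.1 = true) := by
    intro w hw
    refine ⟨by simpa [encX] using (hX w hw).1, ?_⟩
    unfold encX
    rw [List.isChain_map]
    exact (hX w hw).2
  let rP : List (ℕ × Option C) → List (ℕ × Option C) :=
    fun l => PB.getD ((PB.map (evp z)).idxOf (evp z l)) []
  let rX : List (SL C) → List (SL C) :=
    fun w => XB.getD ((XB.map (evM z).word).idxOf ((evM z).word w)) []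
  obtain ⟨z', hz', hsmall⟩ := small_eval (side Lp Lx)
    (PB.map (fun l => (encP l, encP (rP l))) ++ XB.map (fun w => (encX w, encX (rX w)))) M R
    (by
      intro e he
      rw [List.mem_append, List.mem_map, List.mem_map] at he
      rcases he with ⟨l, hl, rfl⟩ | ⟨w, hw, rfl⟩
      · exact ⟨(hP' l hl).1, (hP' _ (rep_spec (evp z) PB [] l hl).1).1⟩
      · exact ⟨(hX' w hw).1, (hX' _ (rep_spec (evM z).word XB [] w hw).1).1⟩)
    (by
      intro e he
      rw [List.mem_append, List.mem_map, List.mem_map] at he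
      rcases he with ⟨l, hl, rfl⟩ | ⟨w, hw, rfl⟩
      · exact ⟨(hP' l hl).2, (hP' _ (rep_spec (evp z) PB [] l hl).1).2⟩
      · exact ⟨(hX' w hw).2, (hX' _ (rep_spec (evM z).word XB [] w hw).1).2⟩)
    (by simpa using hR) z
    (by
      intro e he
      rw [List.mem_append, List.mem_map, List.mem_map] at he
      rcases he with ⟨l, hl, rfl⟩ | ⟨w, hw, rfl⟩
      · simp only [ev_encP]
        rw [show evp z (rP l) = evp z l from (rep_spec (evp z) PB [] l hl).2]
      · simp only [ev_encX]
        exact (rep_spec (evM z).word XB [] w hw).2.symm)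
  refine ⟨z', ?_, ?_, hsmall⟩
  · intro l hl
    have h1 := hz' (encP l, encP (rP l)) (List.mem_append_left _ (List.mem_map.mpr ⟨l, hl, rfl⟩))
    simp only [ev_encP] at h1
    have h2 : Function.Injective (Ltr.p : ℕ → Ltr ℕ ℕ) := by
      intro a b hab
      injection hab
    exact (List.map_injective_iff.mpr h2 h1).symm
  · intro w hw
    have h1 := hz' (encX w, encX (rX w)) (List.mem_append_right _ (List.mem_map.mpr ⟨w, hw, rfl⟩))
    simp only [ev_encX] at h1
    exact h1.symm

end Pool.Agent.Lib.MP_ea09ae_al
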