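import Pool.Agent.Lib.MP_ea09ae_al.TriDefs

/-!
# From the monoid to token words
-/

namespace Pool.Agent.Lib.MP_ea09ae_al

/-- value of an optional symbol -/
noncomputable def TC_sv (σ : ℕ → M2) : Option (Fin 3 ⊕ ℕ) → M2
  | none => 1
  | some a => Sum.elim gen σ a

/-- partial products -/
noncomputable def TC_pp (σ : ℕ → M2) (w : EWord) (i : ℕ) : M2 := evalWord σ (w.take i)

theorem TC_pp_zero (σ : ℕ → M2) (w : EWord) : TC_pp σ w 0 = 1 := by
  unfold TC_pp evalWord
  simp

theorem TC_pp_succ (σ : ℕ → M2) (w : EWord) (i : ℕ) :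
    TC_pp σ w (i+1) = TC_pp σ w i * TC_sv σ w[i]? := by
  unfold TC_pp evalWord
  rw [List.take_add_one, List.map_append, List.prod_append]
  congr 1
  cases w[i]? with
  | none => simp [TC_sv]
  | some a => simp [TC_sv]

theorem TC_pp_last (σ : ℕ → M2) (w : EWord) (n : ℕ) (h : w.length ≤ n) :
    TC_pp σ w n = evalWord σ w := by
  unfold TC_pp
  rw [List.take_of_length_le h]

/-- The token solution. -/
noncomputable def TC_sol (n : ℕ) (S : ESys) (σ : ℕ → M2) (tok : M2 → List (Ltr ℕ ℕ))
    (u v : Fin n → Bool → Fin n → List (Ltr ℕ ℕ)) (w : Fin n → Bool → Fin n → List ℕ) :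
    Mor (KK n) (II n) ℕ ℕ where
  f := fun k => w k.1 k.2.1 k.2.2
  g := fun
    | .inl k => tok (σ k)
    | .inr (j, s, i, e) =>
      if e = 0 then tok (TC_pp σ (sideWord S j s) i)
      else if h : (i : ℕ) < n then (if e = 1 then u j s ⟨i, h⟩ else v j s ⟨i, h⟩) else []

/-- A solution in the monoid gives a solution of a token system. -/
theorem tri_complete (n : ℕ) (S : ESys) (hS : EBd n S) (h : Solvable S) :
    ∃ (c : Fin n → Bool → Fin n → Fin 3) (σ : Mor (KK n) (II n) ℕ ℕ), Solves σ (tri n S c) := by
  obtain ⟨σ, hσ⟩ := h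
  obtain ⟨tok, t1, ta, tb, tc, -, tmul⟩ := exists_tok
  -- side words are words of the system or empty
  have hside : ∀ (j : ℕ) (s : Bool), (sideWord S j s).length ≤ n ∧
      (∀ k, Sum.inr k ∈ sideWord S j s → k < n) := by
    intro j s
    by_cases hj : j < S.length
    · have hmem : S.getD j ([], []) ∈ S := by
        rw [List.getD_eq_getElem _ _ hj]
        exact List.getElem_mem hj
      obtain ⟨h1, h2, h3, h4⟩ := hS.2 _ hmem
      unfold sideWord
      cases s
      · simpa using ⟨h1, h3⟩
      · simpa using ⟨h2, h4⟩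
    · have hnil : S.getD j ([], []) = ([], []) := List.getD_eq_default _ _ (not_lt.mp hj)
      unfold sideWord
      rw [hnil]
      simp
  have hends : ∀ j : ℕ, evalWord σ (sideWord S j false) = evalWord σ (sideWord S j true) := by
    intro j
    by_cases hj : j < S.length
    · have hmem : S.getD j ([], []) ∈ S := by
        rw [List.getD_eq_getElem _ _ hj]
        exact List.getElem_mem hj
      unfold sideWord
      simpa using hσ _ hmem
    · have hnil : S.getD j ([], []) = ([], []) := List.getD_eq_default _ _ (not_lt.mp hj)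
      unfold sideWord
      rw [hnil]
      simp
  have hex : ∀ (j : Fin n) (s : Bool) (i : Fin n), ∃ (u v : List (Ltr ℕ ℕ)) (w : List ℕ)
      (c : Fin 3),
      (c = 0 ∧ tok (TC_pp σ (sideWord S j s) i) = u ++ w.map .p ∧
        tok (TC_sv σ (sideWord S j s)[(i:ℕ)]?) = w.reverse.map .q ++ v ∧
        tok (TC_pp σ (sideWord S j s) (i+1)) = u ++ v) ∨
      (c = 1 ∧ tok (TC_pp σ (sideWord S j s) i) = u ++ .p 0 :: w.map .p ∧
        tok (TC_sv σ (sideWord S j s)[(i:ℕ)]?) = w.reverse.map .q ++ .x 0 :: v ∧
        tok (TC_pp σ (sideWord S j s) (i+1)) = u ++ .p 1 :: v) ∨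
      (c = 2 ∧ tok (TC_pp σ (sideWord S j s) i) = u ++ .x 0 :: w.map .p ∧
        tok (TC_sv σ (sideWord S j s)[(i:ℕ)]?) = w.reverse.map .q ++ .q 1 :: v ∧
        tok (TC_pp σ (sideWord S j s) (i+1)) = u ++ .q 0 :: v) := by
    intro j s i
    obtain ⟨u, v, w, h1 | h1 | h1⟩ := tmul (TC_pp σ (sideWord S j s) i)
      (TC_sv σ (sideWord S j s)[(i:ℕ)]?)
    · refine ⟨u, v, w, 0, Or.inl ⟨rfl, h1.1, h1.2.1, ?_⟩⟩
      rw [TC_pp_succ]
      exact h1.2.2
    · refine ⟨u, v, w, 1, Or.inr (Or.inl ⟨rfl, h1.1, h1.2.1, ?_⟩)⟩
      rw [TC_pp_succ]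
      exact h1.2.2
    · refine ⟨u, v, w, 2, Or.inr (Or.inr ⟨rfl, h1.1, h1.2.1, ?_⟩)⟩
      rw [TC_pp_succ]
      exact h1.2.2
  choose u v w c huvw using hex
  refine ⟨c, TC_sol n S σ tok u v w, ?_⟩
  set τ := TC_sol n S σ tok u v w with hτ
  -- values of the variables
  have vP : ∀ (j : Fin n) (s : Bool) (i : Fin (n+1)),
      τ.letter (.x (.inr (j, s, i, 0))) = tok (TC_pp σ (sideWord S j s) i) := by
    intro j s i
    simp [hτ, TC_sol, Mor.letter]
  have vu : ∀ (j : Fin n) (s : Bool) (i : Fin n),
      τ.letter (.x (.inr (j, s, i.castSucc, 1))) = u j s i := by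
    intro j s i
    simp [hτ, TC_sol, Mor.letter]
  have vv : ∀ (j : Fin n) (s : Bool) (i : Fin n),
      τ.letter (.x (.inr (j, s, i.castSucc, 2))) = v j s i := by
    intro j s i
    simp [hτ, TC_sol, Mor.letter]
  have vpp : ∀ (j : Fin n) (s : Bool) (i : Fin n),
      τ.letter (.p (j, s, i)) = (w j s i).map .p := by
    intro j s i
    simp [hτ, TC_sol, Mor.letter]
  have vqq : ∀ (j : Fin n) (s : Bool) (i : Fin n),
      τ.letter (.q (j, s, i)) = (w j s i).reverse.map .q := by
    intro j s i
    simp [hτ, TC_sol, Mor.letter]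
  have vk : ∀ (k : Fin n), τ.letter (.x (.inl k)) = tok (σ k) := by
    intro k
    simp [hτ, TC_sol, Mor.letter]
  have vy : ∀ (j : Fin n) (s : Bool) (i : Fin n),
      τ.val (symw n ((sideWord S j s)[(i:ℕ)]?)) = tok (TC_sv σ (sideWord S j s)[(i:ℕ)]?) := by
    intro j s i
    have hk := (hside j s).2
    have hgen : ∀ o : Option (Fin 3 ⊕ ℕ), (∀ k, o = some (.inr k) → k < n) →
        τ.val (symw n o) = tok (TC_sv σ o) := by
      intro o ho
      match o with
      | none => simp [symw, Mor.val, TC_sv, t1]
      | some (.inl 0) => simp [symw, Mor.val, TC_sv, ta]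
      | some (.inl 1) => simp [symw, Mor.val, TC_sv, tb]
      | some (.inl 2) => simp [symw, Mor.val, TC_sv, tc]
      | some (.inr k) =>
        have hkn : k < n := ho k rfl
        simp only [symw, Mor.val, TC_sv, dif_pos hkn, List.flatMap_cons, List.flatMap_nil,
          Sum.elim_inr, List.append_nil]
        rw [vk]
    apply hgen
    intro k hk'
    apply hk
    exact List.mem_of_getElem? hk'
  intro e he
  unfold tri at he
  rw [List.mem_append] at he
  rcases he with he | he
  · rw [List.mem_flatMap] at he
    obtain ⟨j, -, he⟩ := he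
    rw [List.mem_flatMap] at he
    obtain ⟨s, -, he⟩ := he
    rcases List.mem_cons.mp he with he | he
    · rw [he]
      simp only [Mor.val, List.flatMap_cons, List.flatMap_nil, Sum.elim_inr, List.append_nil]
      rw [vP]
      show tok (TC_pp σ (sideWord S j s) 0) = []
      rw [TC_pp_zero, t1]
    · rw [List.mem_flatMap] at he
      obtain ⟨i, -, he⟩ := he
      have vP0 := vP j s i.castSucc
      have vP1 := vP j s i.succ
      have e0 : ((i.castSucc : Fin (n+1)) : ℕ) = i := rfl
      have e1 : ((i.succ : Fin (n+1)) : ℕ) = (i:ℕ) + 1 := rfl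
      rw [e0] at vP0
      rw [e1] at vP1
      have vyy := vy j s i
      unfold mult at he
      rcases huvw j s i with ⟨hc, h1, h2, h3⟩ | ⟨hc, h1, h2, h3⟩ | ⟨hc, h1, h2, h3⟩
      · simp only [hc] at he
        simp only [if_true, List.mem_cons, List.not_mem_nil, or_false] at he
        rcases he with he | he | he
        · rw [he]
          simp only [Mor.val, List.flatMap_cons, List.flatMap_nil, Sum.elim_inr, List.append_nil]
          rw [vP0, vu, vpp, h1]
        · rw [he]
          show τ.val (symw n ((sideWord S j s)[(i:ℕ)]?)) = _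
          rw [vyy, h2]
          simp only [Mor.val, List.flatMap_cons, List.flatMap_nil, Sum.elim_inr, List.append_nil]
          rw [vqq, vv]
        · rw [he]
          simp only [Mor.val, List.flatMap_cons, List.flatMap_nil, Sum.elim_inr, List.append_nil]
          rw [vP1, vu, vv, h3]
      · simp only [hc] at he
        simp only [one_ne_zero, if_false, if_true, List.mem_cons, List.not_mem_nil, or_false] at he
        rcases he with he | he | he
        · rw [he]
          simp only [Mor.val, List.flatMap_cons, List.flatMap_nil, Sum.elim_inr, Sum.elim_inl,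
            List.append_nil]
          rw [vP0, vu, vpp, h1]
          rfl
        · rw [he]
          show τ.val (symw n ((sideWord S j s)[(i:ℕ)]?)) = _
          rw [vyy, h2]
          simp only [Mor.val, List.flatMap_cons, List.flatMap_nil, Sum.elim_inr, Sum.elim_inl,
            List.append_nil]
          rw [vqq, vv]
          rfl
        · rw [he]
          simp only [Mor.val, List.flatMap_cons, List.flatMap_nil, Sum.elim_inr, Sum.elim_inl,
            List.append_nil]
          rw [vP1, vu, vv, h3]
          rfl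
      · have hc0 : ¬ c j s i = 0 := by
          rw [hc]
          decide
        have hc1 : ¬ c j s i = 1 := by
          rw [hc]
          decide
        simp only [if_neg hc0, if_neg hc1] at he
        simp only [List.mem_cons, List.not_mem_nil, or_false] at he
        rcases he with he | he | he
        · rw [he]
          simp only [Mor.val, List.flatMap_cons, List.flatMap_nil, Sum.elim_inr, Sum.elim_inl,
            List.append_nil]
          rw [vP0, vu, vpp, h1]
          rfl
        · rw [he]
          show τ.val (symw n ((sideWord S j s)[(i:ℕ)]?)) = _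
          rw [vyy, h2]
          simp only [Mor.val, List.flatMap_cons, List.flatMap_nil, Sum.elim_inr, Sum.elim_inl,
            List.append_nil]
          rw [vqq, vv]
          rfl
        · rw [he]
          simp only [Mor.val, List.flatMap_cons, List.flatMap_nil, Sum.elim_inr, Sum.elim_inl,
            List.append_nil]
          rw [vP1, vu, vv, h3]
          rfl
  · rw [List.mem_map] at he
    obtain ⟨j, -, he⟩ := he
    rw [← he]
    simp only [Mor.val, List.flatMap_cons, List.flatMap_nil, Sum.elim_inr, List.append_nil]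
    rw [vP, vP]
    have e0 : ((Fin.last n : Fin (n+1)) : ℕ) = n := rfl
    rw [e0, TC_pp_last σ _ n (hside j false).1, TC_pp_last σ _ n (hside j true).1, hends]

end Pool.Agent.Lib.MP_ea09ae_al
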