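import Pool.Agent.Lib.MP_ea09ae_al.TriDefs

/-!
# Size of the token system
-/

namespace Pool.Agent.Lib.MP_ea09ae_al

private theorem sum_flatMap_le {α β : Type} (l : List α) (g : α → List β) (f : β → ℕ) (C : ℕ)
    (h : ∀ a ∈ l, ((g a).map f).sum ≤ C) : ((l.flatMap g).map f).sum ≤ l.length * C := by
  induction l with
  | nil => simp
  | cons a l ih =>
    rw [List.flatMap_cons, List.map_append, List.sum_append, List.length_cons]
    have h1 := h a (by simp)
    have h2 := ih fun b hb => h b (by simp [hb])
    rw [Nat.add_mul, Nat.one_mul]
    omega

private theorem length_flatMap_eq {α β : Type} (l : List α) (g : α → List β) (C : ℕ)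
    (h : ∀ a ∈ l, (g a).length = C) : (l.flatMap g).length = l.length * C := by
  induction l with
  | nil => simp
  | cons a l ih =>
    rw [List.flatMap_cons, List.length_append, List.length_cons]
    have h1 := h a (by simp)
    have h2 := ih fun b hb => h b (by simp [hb])
    rw [Nat.add_mul, Nat.one_mul]
    omega

private theorem symw_facts (n : ℕ) (o : Option (Fin 3 ⊕ ℕ)) :
    vcount (symw n o) ≤ 1 ∧ lcount (symw n o) ≤ 1 ∧
      ∀ l, Sum.inl l ∈ symw n o → small 2 l := by
  match o with
  | none => simp [symw, vcount, lcount]
  | some (.inl 0) => simp [symw, vcount, lcount, small]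
  | some (.inl 1) => simp [symw, vcount, lcount, small]
  | some (.inl 2) => simp [symw, vcount, lcount, small]
  | some (.inr k) =>
    by_cases h : k < n
    · simp [symw, vcount, lcount, h]
    · simp [symw, vcount, lcount, h]

private theorem mult_facts (n : ℕ) (S : ESys) (c : Fin 3) (j : Fin n) (s : Bool) (i : Fin n) :
    (mult n S c j s i).length = 3 ∧
      ((mult n S c j s i).map (fun e => vcount e.1 + vcount e.2)).sum ≤ 9 ∧
      ((mult n S c j s i).map (fun e => lcount e.1 + lcount e.2)).sum ≤ 4 ∧
      ∀ e ∈ mult n S c j s i,
        (∀ l, Sum.inl l ∈ e.1 → small 2 l) ∧ (∀ l, Sum.inl l ∈ e.2 → small 2 l) := by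
  obtain ⟨h1, h2, h3⟩ := symw_facts n ((sideWord S j s)[(i : ℕ)]?)
  unfold mult
  simp only
  by_cases hc0 : c = 0
  · rw [if_pos hc0]
    refine ⟨rfl, ?_, ?_, ?_⟩
    · simp only [List.map_cons, List.map_nil, List.sum_cons, List.sum_nil]
      simp only [vcount, List.countP_cons, List.countP_nil, Sum.isRight_inr] at h1 ⊢
      simp only [if_true]
      omega
    · simp only [List.map_cons, List.map_nil, List.sum_cons, List.sum_nil]
      simp only [lcount, List.countP_cons, List.countP_nil, Sum.isLeft_inr] at h2 ⊢
      simp only [Bool.false_eq_true, if_false]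
      omega
    · intro e he
      simp only [List.mem_cons, List.not_mem_nil, or_false] at he
      rcases he with rfl | rfl | rfl
      · simp
      · exact ⟨h3, by simp⟩
      · simp
  · rw [if_neg hc0]
    by_cases hc1 : c = 1
    · rw [if_pos hc1]
      refine ⟨rfl, ?_, ?_, ?_⟩
      · simp only [List.map_cons, List.map_nil, List.sum_cons, List.sum_nil]
        simp only [vcount, List.countP_cons, List.countP_nil, Sum.isRight_inr,
          Sum.isRight_inl] at h1 ⊢
        simp only [if_true, Bool.false_eq_true, if_false]
        omega
      · simp only [List.map_cons, List.map_nil, List.sum_cons, List.sum_nil]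
        simp only [lcount, List.countP_cons, List.countP_nil, Sum.isLeft_inr,
          Sum.isLeft_inl] at h2 ⊢
        simp only [Bool.false_eq_true, if_false, if_true]
        omega
      · intro e he
        simp only [List.mem_cons, List.not_mem_nil, or_false] at he
        rcases he with rfl | rfl | rfl
        · simp [small]
        · exact ⟨h3, by simp [small]⟩
        · simp [small]
    · rw [if_neg hc1]
      refine ⟨rfl, ?_, ?_, ?_⟩
      · simp only [List.map_cons, List.map_nil, List.sum_cons, List.sum_nil]
        simp only [vcount, List.countP_cons, List.countP_nil, Sum.isRight_inr,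
          Sum.isRight_inl] at h1 ⊢
        simp only [if_true, Bool.false_eq_true, if_false]
        omega
      · simp only [List.map_cons, List.map_nil, List.sum_cons, List.sum_nil]
        simp only [lcount, List.countP_cons, List.countP_nil, Sum.isLeft_inr,
          Sum.isLeft_inl] at h2 ⊢
        simp only [Bool.false_eq_true, if_false, if_true]
        omega
      · intro e he
        simp only [List.mem_cons, List.not_mem_nil, or_false] at he
        rcases he with rfl | rfl | rfl
        · simp [small]
        · exact ⟨h3, by simp [small]⟩
        · simp [small]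

theorem tri_size (n : ℕ) (S : ESys) (c : Fin n → Bool → Fin n → Fin 3) :
    (tri n S c).length = 6 * n ^ 2 + 3 * n ∧ vtot (tri n S c) ≤ 18 * n ^ 2 + 4 * n ∧
      ltot (tri n S c) ≤ 8 * n ^ 2 ∧
      ∀ e ∈ tri n S c, (∀ l, Sum.inl l ∈ e.1 → small 2 l) ∧ (∀ l, Sum.inl l ∈ e.2 → small 2 l) := by
  refine ⟨?_, ?_, ?_, ?_⟩
  · unfold tri
    rw [List.length_append, List.length_map, List.length_finRange,
      length_flatMap_eq _ _ (2 * (1 + n * 3)), List.length_finRange]
    · ring
    · intro j _
      rw [length_flatMap_eq _ _ (1 + n * 3)]
      · rfl
      · intro s _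
        rw [List.length_cons, length_flatMap_eq _ _ 3, List.length_finRange]
        · ring
        · intro i _
          exact (mult_facts n S (c j s i) j s i).1
  · unfold vtot tri
    rw [List.map_append, List.sum_append]
    have h1 := sum_flatMap_le (List.finRange n)
      (fun j => [false, true].flatMap fun s =>
        (([.inr (.x (.inr (j, s, 0, 0)))], []) : List (Sy (KK n) (II n)) × List (Sy (KK n) (II n))) ::
          (List.finRange n).flatMap fun i => mult n S (c j s i) j s i)
      (fun e => vcount e.1 + vcount e.2) (2 * (1 + n * 9)) (by
        intro j _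
        refine sum_flatMap_le [false, true] _ _ (1 + n * 9) ?_
        intro s _
        rw [List.map_cons, List.sum_cons]
        have h := sum_flatMap_le (List.finRange n) (fun i => mult n S (c j s i) j s i)
          (fun e => vcount e.1 + vcount e.2) 9
          (fun i _ => (mult_facts n S (c j s i) j s i).2.1)
        rw [List.length_finRange] at h
        have h0 : vcount ([.inr (.x (.inr (j, s, 0, 0)))] : List (Sy (KK n) (II n))) +
          vcount ([] : List (Sy (KK n) (II n))) = 1 := rfl
        simp only [h0]
        omega)
    rw [List.length_finRange] at h1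
    have h2 : (((List.finRange n).map fun j =>
        ((([.inr (.x (.inr (j, false, Fin.last n, 0)))],
          [.inr (.x (.inr (j, true, Fin.last n, 0)))]) :
            List (Sy (KK n) (II n)) × List (Sy (KK n) (II n))))).map
        (fun e => vcount e.1 + vcount e.2)).sum = n * 2 := by
      rw [List.map_map]
      have h3 : ((fun e : List (Sy (KK n) (II n)) × List (Sy (KK n) (II n)) =>
          vcount e.1 + vcount e.2) ∘ fun j : Fin n =>
        (([.inr (.x (.inr (j, false, Fin.last n, 0)))],
          [.inr (.x (.inr (j, true, Fin.last n, 0)))]) :
            List (Sy (KK n) (II n)) × List (Sy (KK n) (II n)))) = fun _ => 2 := by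
        funext j
        rfl
      rw [h3]
      simp
    calc _ ≤ n * (2 * (1 + n * 9)) + n * 2 := Nat.add_le_add h1 h2.le
      _ = 18 * n ^ 2 + 4 * n := by ring
  · unfold ltot tri
    rw [List.map_append, List.sum_append]
    have h1 := sum_flatMap_le (List.finRange n)
      (fun j => [false, true].flatMap fun s =>
        (([.inr (.x (.inr (j, s, 0, 0)))], []) : List (Sy (KK n) (II n)) × List (Sy (KK n) (II n))) ::
          (List.finRange n).flatMap fun i => mult n S (c j s i) j s i)
      (fun e => lcount e.1 + lcount e.2) (2 * (n * 4)) (by
        intro j _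
        refine sum_flatMap_le [false, true] _ _ (n * 4) ?_
        intro s _
        rw [List.map_cons, List.sum_cons]
        have h := sum_flatMap_le (List.finRange n) (fun i => mult n S (c j s i) j s i)
          (fun e => lcount e.1 + lcount e.2) 4
          (fun i _ => (mult_facts n S (c j s i) j s i).2.2.1)
        rw [List.length_finRange] at h
        have h0 : lcount ([.inr (.x (.inr (j, s, 0, 0)))] : List (Sy (KK n) (II n))) +
          lcount ([] : List (Sy (KK n) (II n))) = 0 := rfl
        simp only [h0]
        omega)
    rw [List.length_finRange] at h1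
    have h2 : (((List.finRange n).map fun j =>
        ((([.inr (.x (.inr (j, false, Fin.last n, 0)))],
          [.inr (.x (.inr (j, true, Fin.last n, 0)))]) :
            List (Sy (KK n) (II n)) × List (Sy (KK n) (II n))))).map
        (fun e => lcount e.1 + lcount e.2)).sum = 0 := by
      rw [List.map_map]
      have h3 : ((fun e : List (Sy (KK n) (II n)) × List (Sy (KK n) (II n)) =>
          lcount e.1 + lcount e.2) ∘ fun j : Fin n =>
        (([.inr (.x (.inr (j, false, Fin.last n, 0)))],
          [.inr (.x (.inr (j, true, Fin.last n, 0)))]) :
            List (Sy (KK n) (II n)) × List (Sy (KK n) (II n)))) = fun _ => 0 := by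
        funext j
        rfl
      rw [h3]
      simp
    calc _ ≤ n * (2 * (n * 4)) + 0 := Nat.add_le_add h1 h2.le
      _ = 8 * n ^ 2 := by ring
  · intro e he
    unfold tri at he
    rw [List.mem_append] at he
    rcases he with he | he
    · rw [List.mem_flatMap] at he
      obtain ⟨j, -, he⟩ := he
      rw [List.mem_flatMap] at he
      obtain ⟨s, -, he⟩ := he
      rw [List.mem_cons] at he
      rcases he with rfl | he
      · simp
      · rw [List.mem_flatMap] at he
        obtain ⟨i, -, he⟩ := he
        exact (mult_facts n S (c j s i) j s i).2.2.2 e he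
    · rw [List.mem_map] at he
      obtain ⟨j, -, rfl⟩ := he
      simp

end Pool.Agent.Lib.MP_ea09ae_al
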