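import Pool.Agent.Lib.MP_ea09ae_al.TriDefs

/-!
# From token words to the monoid
-/

namespace Pool.Agent.Lib.MP_ea09ae_al

private theorem val_nil {κ ι : Type} (σ : Mor κ ι ℕ ℕ) : σ.val [] = [] := rfl

private theorem val_cons {κ ι : Type} (σ : Mor κ ι ℕ ℕ) (s : Sy κ ι) (w : List (Sy κ ι)) :
    σ.val (s :: w) = Sum.elim (fun l => [l]) σ.letter s ++ σ.val w := rfl

/-- the value of one multiplication step -/
private theorem step_mult (n : ℕ) (S : ESys) (c : Fin 3) (j : Fin n) (s : Bool) (i : Fin n)
    (σ : Mor (KK n) (II n) ℕ ℕ) (h : ∀ e ∈ mult n S c j s i, σ.val e.1 = σ.val e.2) :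
    mword (σ.g (.inr (j, s, i.succ, 0))) = mword (σ.g (.inr (j, s, i.castSucc, 0))) *
      mword (σ.val (symw n ((sideWord S j s)[(i : ℕ)]?))) := by
  have hm := mword_mirror (σ.f (j, s, i))
  unfold mult at h
  simp only at h
  split_ifs at h with h0 h1
  · have e1 := h _ (List.mem_cons_self ..)
    have e2 := h _ (List.mem_cons_of_mem _ (List.mem_cons_self ..))
    have e3 := h _ (List.mem_cons_of_mem _ (List.mem_cons_of_mem _ (List.mem_cons_self ..)))
    simp only [val_cons, val_nil, Sum.elim_inr, Sum.elim_inl, Mor.letter, List.append_nil] at e1 e2 e3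
    rw [e1, e2, e3]
    simp only [mword_append]
    calc _ = mword (σ.g (.inr (j, s, i.castSucc, 1))) * 1 * mword (σ.g (.inr (j, s, i.castSucc, 2))) := by
          rw [mul_one]
      _ = _ := by rw [← hm]; simp only [mul_assoc]
  · have e1 := h _ (List.mem_cons_self ..)
    have e2 := h _ (List.mem_cons_of_mem _ (List.mem_cons_self ..))
    have e3 := h _ (List.mem_cons_of_mem _ (List.mem_cons_of_mem _ (List.mem_cons_self ..)))
    simp only [val_cons, val_nil, Sum.elim_inr, Sum.elim_inl, Mor.letter, List.append_nil] at e1 e2 e3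
    rw [e1, e2, e3]
    simp only [mword_append, mword_cons, mword_nil, mul_one]
    have h4 : mval (.p 1) = mval (.p 0) * 1 * mval (.x 0) := by simp [mval]
    rw [h4, ← hm]
    simp only [mul_assoc]
  · have e1 := h _ (List.mem_cons_self ..)
    have e2 := h _ (List.mem_cons_of_mem _ (List.mem_cons_self ..))
    have e3 := h _ (List.mem_cons_of_mem _ (List.mem_cons_of_mem _ (List.mem_cons_self ..)))
    simp only [val_cons, val_nil, Sum.elim_inr, Sum.elim_inl, Mor.letter, List.append_nil] at e1 e2 e3
    rw [e1, e2, e3]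
    simp only [mword_append, mword_cons, mword_nil, mul_one]
    have h4 : mval (.q 0) = mval (.x 0) * 1 * mval (.q 1) := by simp [mval]
    rw [h4, ← hm]
    simp only [mul_assoc]

/-- the second equation of a multiplication step has the symbol on its left side -/
private theorem mult_mem (n : ℕ) (S : ESys) (c : Fin 3) (j : Fin n) (s : Bool) (i : Fin n) :
    ∃ e ∈ mult n S c j s i, e.1 = symw n ((sideWord S j s)[(i : ℕ)]?) := by
  unfold mult
  simp only
  split_ifs with h0 h1
  · exact ⟨_, List.mem_cons_of_mem _ (List.mem_cons_self ..), rfl⟩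
  · exact ⟨_, List.mem_cons_of_mem _ (List.mem_cons_self ..), rfl⟩
  · exact ⟨_, List.mem_cons_of_mem _ (List.mem_cons_self ..), rfl⟩

private theorem mem_tri_mult (n : ℕ) (S : ESys) (c : Fin n → Bool → Fin n → Fin 3) (j : Fin n)
    (s : Bool) (i : Fin n) (e) (he : e ∈ mult n S (c j s i) j s i) : e ∈ tri n S c := by
  unfold tri
  rw [List.mem_append]
  left
  rw [List.mem_flatMap]
  refine ⟨j, List.mem_finRange _, ?_⟩
  rw [List.mem_flatMap]
  refine ⟨s, by cases s <;> simp, ?_⟩
  apply List.mem_cons_of_mem
  rw [List.mem_flatMap]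
  exact ⟨i, List.mem_finRange _, he⟩

private theorem mem_tri_zero (n : ℕ) (S : ESys) (c : Fin n → Bool → Fin n → Fin 3) (j : Fin n)
    (s : Bool) : (([.inr (.x (.inr (j, s, 0, 0)))], []) :
      List (Sy (KK n) (II n)) × List (Sy (KK n) (II n))) ∈ tri n S c := by
  unfold tri
  rw [List.mem_append]
  left
  rw [List.mem_flatMap]
  refine ⟨j, List.mem_finRange _, ?_⟩
  rw [List.mem_flatMap]
  refine ⟨s, by cases s <;> simp, ?_⟩
  exact List.mem_cons_self ..

private theorem mem_tri_last (n : ℕ) (S : ESys) (c : Fin n → Bool → Fin n → Fin 3) (j : Fin n) :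
    (([.inr (.x (.inr (j, false, Fin.last n, 0)))], [.inr (.x (.inr (j, true, Fin.last n, 0)))]) :
      List (Sy (KK n) (II n)) × List (Sy (KK n) (II n))) ∈ tri n S c := by
  unfold tri
  rw [List.mem_append]
  right
  rw [List.mem_map]
  exact ⟨j, List.mem_finRange _, rfl⟩

/-- A solution of a token system gives a solution in the monoid, with short words. -/
theorem tri_sound (n : ℕ) (S : ESys) (hS : EBd n S) (c : Fin n → Bool → Fin n → Fin 3)
    (W : ℕ) (h : HasSol (tri n S c) W) :
    ∃ τ : ℕ → List (Ltr ℕ ℕ), (∀ k, (τ k).length ≤ W) ∧ (∀ k, n ≤ k → τ k = []) ∧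
      ∀ e ∈ S, evalWord (fun k => mword (τ k)) e.1 = evalWord (fun k => mword (τ k)) e.2 := by
  classical
  obtain ⟨σ, hsol, hwt⟩ := h
  let τ : ℕ → List (Ltr ℕ ℕ) := fun k => if h : k < n then
    (if ∃ (j : Fin n) (s : Bool) (i : Fin n), (sideWord S j s)[(i : ℕ)]? = some (.inr k) then
      σ.g (.inl ⟨k, h⟩) else []) else []
  have hwt1 : ∀ e ∈ tri n S c, (σ.val e.1).length ≤ W := by
    intro e he
    refine le_trans ?_ hwt
    unfold wt
    exact List.le_sum_of_mem (List.mem_map.mpr ⟨e, he, rfl⟩)
  -- the value of a symbol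
  have hsym : ∀ (j : Fin n) (s : Bool) (i : Fin n), (sideWord S j s).length ≤ n →
      (∀ k, Sum.inr k ∈ sideWord S j s → k < n) →
      ∀ P : M2, P = evalWord (fun k => mword (τ k)) ((sideWord S j s).take i) →
      P * mword (σ.val (symw n ((sideWord S j s)[(i : ℕ)]?))) =
        evalWord (fun k => mword (τ k)) ((sideWord S j s).take (i + 1)) := by
    intro j s i hlen hk P hP
    rw [hP, List.take_add_one]
    unfold evalWord
    rw [List.map_append, List.prod_append]
    congr 1
    rcases ho : (sideWord S j s)[(i : ℕ)]? with _ | o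
    · simp [symw, val_nil, mword_nil]
    · rcases o with o | k
      · fin_cases o
        · simp [symw, val_cons, val_nil, mword_cons, mword_nil, mval]
        · simp [symw, val_cons, val_nil, mword_cons, mword_nil, mval]
        · simp [symw, val_cons, val_nil, mword_cons, mword_nil, mval]
      · have hkn : k < n := hk k (List.mem_of_getElem? ho)
        have hτ : τ k = σ.g (.inl ⟨k, hkn⟩) := by
          simp only [τ]
          rw [dif_pos hkn, if_pos ⟨j, s, i, ho⟩]
        simp [symw, hkn, val_cons, val_nil, Mor.letter, hτ]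
  refine ⟨τ, ?_, ?_, ?_⟩
  · intro k
    simp only [τ]
    split_ifs with h1 h2
    · obtain ⟨j, s, i, hi⟩ := h2
      obtain ⟨e, he, hee⟩ := mult_mem n S (c j s i) j s i
      have := hwt1 e (mem_tri_mult n S c j s i e he)
      rw [hee, hi] at this
      simpa [symw, h1, val_cons, val_nil, Mor.letter] using this
    · simp
    · simp
  · intro k hk
    simp only [τ]
    rw [dif_neg (by omega)]
  · intro e he
    obtain ⟨j, hj, rfl⟩ := List.getElem_of_mem he
    have hjn : j < n := lt_of_lt_of_le hj hS.1
    have hside : ∀ s, sideWord S ((⟨j, hjn⟩ : Fin n) : ℕ) s = if s = true then (S[j]).2 else (S[j]).1 := by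
      intro s
      unfold sideWord
      simp only
      rw [List.getD_eq_getElem _ _ hj]
    have hb := hS.2 _ he
    have hlen : ∀ s, (sideWord S ((⟨j, hjn⟩ : Fin n) : ℕ) s).length ≤ n := by
      intro s
      rw [hside]
      cases s
      · simpa using hb.1
      · simpa using hb.2.1
    have hvar : ∀ s, ∀ k, Sum.inr k ∈ sideWord S ((⟨j, hjn⟩ : Fin n) : ℕ) s → k < n := by
      intro s k hk
      rw [hside] at hk
      cases s
      · exact hb.2.2.1 k (by simpa using hk)
      · exact hb.2.2.2 k (by simpa using hk)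
    have hind : ∀ s, ∀ i : Fin (n+1), mword (σ.g (.inr (⟨j, hjn⟩, s, i, 0))) =
        evalWord (fun k => mword (τ k)) ((sideWord S ((⟨j, hjn⟩ : Fin n) : ℕ) s).take i) := by
      intro s i
      induction i using Fin.induction with
      | zero =>
        have := hsol _ (mem_tri_zero n S c ⟨j, hjn⟩ s)
        simp only [val_cons, val_nil, Sum.elim_inr, Mor.letter, List.append_nil] at this
        rw [this]
        simp [evalWord, mword_nil]
      | succ i ih =>
        rw [step_mult n S (c ⟨j, hjn⟩ s i) ⟨j, hjn⟩ s i σ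
          (fun e he => hsol e (mem_tri_mult n S c _ _ _ e he))]
        exact hsym ⟨j, hjn⟩ s i (hlen s) (hvar s) _ ih
    have hlast := hsol _ (mem_tri_last n S c ⟨j, hjn⟩)
    simp only [val_cons, val_nil, Sum.elim_inr, Mor.letter, List.append_nil] at hlast
    have h1 := hind false (Fin.last n)
    have h2 := hind true (Fin.last n)
    rw [hlast, h2] at h1
    rw [Fin.val_last, List.take_of_length_le (hlen true), List.take_of_length_le (hlen false),
      hside, hside] at h1
    simpa using h1.symm

end Pool.Agent.Lib.MP_ea09ae_al
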