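import Pool.Agent.Lib.MP_ea09ae_al.Bounded
import Pool.Agent.Lib.MP_ea09ae_al.TriSize
import Pool.Agent.Lib.MP_ea09ae_al.TriComplete
import Pool.Agent.Lib.MP_ea09ae_al.TriSound
import Pool.Agent.Lib.MP_ea09ae_al.Comp

/-!
# The Diophantine problem of `⟨a, b, c ∣ abc = 1⟩` is decidable
-/

namespace Pool.Agent.Lib.MP_ea09ae_al

def vn (n : ℕ) : ℕ := 18 * n ^ 2 + 4 * n

def Nn (n : ℕ) : ℕ := 6 * n ^ 2 + 3 * n

def Bn (n : ℕ) : ℕ := 16 * vn n + 8 * Nn n

/-- The bound for the lengths of token words. -/
def Wn (n : ℕ) : ℕ :=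
  gfun (Nn n) (vn n + Bn n) (8 * n ^ 2 + 7 * n) ^
    nstates (Nn n) (vn n) (Bn n) (2 * n ^ 2) (6 * n ^ 2 + 7 * n) * Bn n

/-- The bound for the code of a solution. -/
def Hn (n : ℕ) : ℕ := lbound (lbound 2 (2 * Wn n)) n

theorem solvable_iff (S : ESys) :
    Solvable S ↔ ∃ k ∈ List.range (Hn (Encodable.encode S + 1) + 1),
      ∃ τ : List (List (Fin 3)), Encodable.decode k = some τ ∧ Check S τ := by
  constructor
  · intro h
    set n := Encodable.encode S + 1 with hn
    have hE : EBd n S := ebd_encode S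
    obtain ⟨c, σ, hσ⟩ := tri_complete n S hE h
    obtain ⟨h1, h2, h3, h4⟩ := tri_size n S c
    have hn1 : 1 ≤ n := by omega
    have hBd : Bd (Nn n) (vn n) (16 * vn n + 8 * Nn n) (tri n S c) := by
      refine ⟨h1, h2, h3.trans ?_, ?_⟩
      · unfold vn Nn
        nlinarith
      · have hB2 : 2 ≤ 16 * vn n + 8 * Nn n := by
          unfold vn Nn
          nlinarith
        have hs : ∀ l, small 2 l → small (16 * vn n + 8 * Nn n) l := by
          intro l hl
          cases l <;> simp only [small] at hl ⊢ <;> omega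
        intro e he
        exact ⟨fun l hl => hs l ((h4 e he).1 l hl), fun l hl => hs l ((h4 e he).2 l hl)⟩
    have hNn : 1 ≤ Nn n := by
      unfold Nn
      nlinarith
    have hb := bounded (tri n S c) (Nn n) (vn n) hNn hBd (wt σ (tri n S c)) ⟨σ, hσ, le_rfl⟩
    have hκ : Fintype.card (KK n) = 2 * n ^ 2 := by
      simp only [KK, Fintype.card_prod, Fintype.card_fin, Fintype.card_bool]
      ring
    have hι : Fintype.card (II n) = 6 * n ^ 2 + 7 * n := by
      simp only [II, Fintype.card_sum, Fintype.card_prod, Fintype.card_fin, Fintype.card_bool]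
      ring
    rw [hκ, hι, show 2 * n ^ 2 + (6 * n ^ 2 + 7 * n) = 8 * n ^ 2 + 7 * n by ring] at hb
    change HasSol (tri n S c) (Wn n) at hb
    obtain ⟨τ, t1, t2, t3⟩ := tri_sound n S hE c (Wn n) hb
    obtain ⟨t, u1, u2, u3⟩ := check_of_tokens n (Wn n) S τ t1 t2 t3
    refine ⟨Encodable.encode t, ?_, t, Encodable.encodek t, u3⟩
    rw [List.mem_range]
    have : Encodable.encode t ≤ Hn n := by
      apply encode_list_le _ _ _ u1
      intro a ha
      apply encode_list_le _ _ _ (u2 a ha)
      intro b _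
      have : Encodable.encode b = (b : ℕ) := rfl
      have hb3 : (b : ℕ) < 3 := b.2
      omega
    omega
  · rintro ⟨k, _, τ, _, h⟩
    exact check_solvable S τ h

theorem primrec_vn : Primrec vn :=
  Primrec.nat_add.comp
    (Primrec.nat_mul.comp (Primrec.const 18) (primrec_pow.comp Primrec.id (Primrec.const 2)))
    (Primrec.nat_mul.comp (Primrec.const 4) Primrec.id)

theorem primrec_Nn : Primrec Nn :=
  Primrec.nat_add.comp
    (Primrec.nat_mul.comp (Primrec.const 6) (primrec_pow.comp Primrec.id (Primrec.const 2)))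
    (Primrec.nat_mul.comp (Primrec.const 3) Primrec.id)

theorem primrec_Bn : Primrec Bn :=
  Primrec.nat_add.comp (Primrec.nat_mul.comp (Primrec.const 16) primrec_vn)
    (Primrec.nat_mul.comp (Primrec.const 8) primrec_Nn)

theorem primrec_gfun {f g h : ℕ → ℕ} (hf : Primrec f) (hg : Primrec g) (hh : Primrec h) :
    Primrec (fun n => gfun (f n) (g n) (h n)) := by
  have h5 : Primrec (fun n => 5 * g n) := Primrec.nat_mul.comp (Primrec.const 5) hg
  have h1 : Primrec (fun n => 2 * (5 * g n * (4 * h n + 1)) + 1) :=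
    Primrec.succ.comp (Primrec.nat_mul.comp (Primrec.const 2) (Primrec.nat_mul.comp h5
      (Primrec.succ.comp (Primrec.nat_mul.comp (Primrec.const 4) hh))))
  have h2 : Primrec (fun n => 10 * f n * g n * (5 * g n)) :=
    Primrec.nat_mul.comp (Primrec.nat_mul.comp
      (Primrec.nat_mul.comp (Primrec.const 10) hf) hg) h5
  exact Primrec.nat_mul.comp h5 (primrec_pow.comp (Primrec.const 2) (primrec_pow.comp h1 h2))

theorem primrec_nstates {f g h k l : ℕ → ℕ} (hf : Primrec f) (hg : Primrec g) (hh : Primrec h)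
    (hk : Primrec k) (hl : Primrec l) :
    Primrec (fun n => nstates (f n) (g n) (h n) (k n) (l n)) := by
  have h1 : Primrec (fun n => 1 + 3 * h n + 2 * k n + l n) :=
    Primrec.nat_add.comp (Primrec.nat_add.comp (Primrec.nat_add.comp (Primrec.const 1)
      (Primrec.nat_mul.comp (Primrec.const 3) hh)) (Primrec.nat_mul.comp (Primrec.const 2) hk)) hl
  have h2 : Primrec (fun n => 2 * f n * (g n + h n)) :=
    Primrec.nat_mul.comp (Primrec.nat_mul.comp (Primrec.const 2) hf) (Primrec.nat_add.comp hg hh)
  exact primrec_pow.comp h1 h2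

theorem primrec_Wn : Primrec Wn := by
  have hsq : Primrec (fun n : ℕ => n ^ 2) := primrec_pow.comp Primrec.id (Primrec.const 2)
  have h1 : Primrec (fun n => gfun (Nn n) (vn n + Bn n) (8 * n ^ 2 + 7 * n)) :=
    primrec_gfun primrec_Nn (Primrec.nat_add.comp primrec_vn primrec_Bn)
      (Primrec.nat_add.comp (Primrec.nat_mul.comp (Primrec.const 8) hsq)
        (Primrec.nat_mul.comp (Primrec.const 7) Primrec.id))
  have h2 : Primrec (fun n => nstates (Nn n) (vn n) (Bn n) (2 * n ^ 2) (6 * n ^ 2 + 7 * n)) :=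
    primrec_nstates primrec_Nn primrec_vn primrec_Bn
      (Primrec.nat_mul.comp (Primrec.const 2) hsq)
      (Primrec.nat_add.comp (Primrec.nat_mul.comp (Primrec.const 6) hsq)
        (Primrec.nat_mul.comp (Primrec.const 7) Primrec.id))
  exact Primrec.nat_mul.comp (primrec_pow.comp h1 h2) primrec_Bn

theorem primrec_Hn : Primrec Hn := by
  have h1 : Primrec (fun n => lbound 2 (2 * Wn n)) :=
    primrec_lbound.comp (Primrec.const 2) (Primrec.nat_mul.comp (Primrec.const 2) primrec_Wn)
  exact primrec_lbound.comp h1 Primrec.id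

theorem primrecPred_solvable : PrimrecPred Solvable := by
  have h1 : PrimrecRel (fun (k : ℕ) (S : ESys) =>
      ∃ τ : List (List (Fin 3)), Encodable.decode k = some τ ∧ Check S τ) := by
    classical
    have hc : Primrec (fun a : ESys × List (List (Fin 3)) => decide (Check a.1 a.2)) := by
      have := primrecRel_check
      exact PrimrecPred.decide (p := fun a : ESys × List (List (Fin 3)) => Check a.1 a.2) this
    have hd : Primrec (fun p : ℕ × ESys =>
        (Encodable.decode p.1 : Option (List (List (Fin 3))))) :=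
      Primrec.decode.comp Primrec.fst
    have hc2 : Primrec₂ (fun (p : ℕ × ESys) (τ : List (List (Fin 3))) =>
        decide (Check p.2 τ)) :=
      hc.comp (Primrec.pair (Primrec.snd.comp Primrec.fst) Primrec.snd)
    have h0 := Primrec.option_casesOn hd (Primrec.const false) hc2
    have h00 : PrimrecPred (fun p : ℕ × ESys => ∃ τ : List (List (Fin 3)),
        Encodable.decode p.1 = some τ ∧ Check p.2 τ) := by
      refine Primrec.primrecPred (h0.of_eq ?_)
      rintro ⟨k, S⟩
      rcases h : (Encodable.decode k : Option (List (List (Fin 3)))) with _ | τ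
      · simp [h]
      · simp [h]
    exact h00
  have h2 := h1.exists_mem_list
  have h3 : PrimrecPred (fun S : ESys => ∃ k ∈ List.range (Hn (Encodable.encode S + 1) + 1),
      ∃ τ : List (List (Fin 3)), Encodable.decode k = some τ ∧ Check S τ) :=
    h2.comp (Primrec.list_range.comp (Primrec.succ.comp (primrec_Hn.comp
      (Primrec.succ.comp Primrec.encode)))) Primrec.id
  exact h3.of_eq (fun S => (solvable_iff S).symm)

theorem computablePred_solvable : ComputablePred Solvable :=
  primrecPred_solvable.computablePred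

end Pool.Agent.Lib.MP_ea09ae_al
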