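import Pool.Agent.Lib.MP_ea09ae_al.Sym
import Pool.Agent.Lib.MP_ea09ae_al.Runs

/-!
# The new words expand to the popped words
-/

namespace Pool.Agent.Lib.MP_ea09ae_al

variable {C κ ι : Type}

theorem names_allP {α β : Type} (u : List (Ltr α β)) (h : u.all isP = true) :
    u = (u.filterMap pidx).map Ltr.p := by
  induction u with
  | nil => rfl
  | cons s u ih =>
    rw [List.all_cons, Bool.and_eq_true] at h
    cases s with
    | p a => simpa [pidx] using ih h.2
    | q a => simp [isP] at h
    | x a => simp [isP] at h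

theorem names_allQ {α β : Type} (u : List (Ltr α β)) (h : u.all isQ = true) :
    u = (u.filterMap qidx).map Ltr.q := by
  induction u with
  | nil => rfl
  | cons s u ih =>
    rw [List.all_cons, Bool.and_eq_true] at h
    cases s with
    | q a => simpa [qidx] using ih h.2
    | p a => simp [isQ] at h
    | x a => simp [isQ] at h

theorem names_word_p (z : C → ℕ) (l : List (ℕ × Option C)) :
    (evM z).word (l.map Ltr.p) = (evp z l).map Ltr.p := by
  rw [Mor.word, List.flatMap_map, evp, List.map_flatMap]
  rfl

theorem names_word_q (z : C → ℕ) (l : List (ℕ × Option C)) :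
    (evM z).word (l.reverse.map Ltr.q) = (evp z l).reverse.map Ltr.q := by
  rw [Mor.word, List.flatMap_map, evp, List.reverse_flatMap, List.map_flatMap]
  rfl

theorem names_evs_inl (z : C → ℕ) (u : List (SL C)) :
    evs z (u.map (Sum.inl : SL C → SS C κ ι)) = ((evM z).word u).map Sum.inl := by
  rw [evs, List.flatMap_map, Mor.word, List.map_flatMap]
  rfl

theorem names_lefts (u : List (SL C)) :
    lefts (u.map (Sum.inl : SL C → SS C κ ι)) = u := by
  rw [lefts, List.filterMap_map]
  have : (Sum.getLeft? ∘ (Sum.inl : SL C → SS C κ ι)) = some := by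
    funext s
    rfl
  rw [this, List.filterMap_some]

/-- a letter of the new alphabet expands to the value of the block -/
theorem names_letter (sd : Ltr ℕ ℕ → Bool) (D : PopD C κ ι) (z z' : C → ℕ) (S : Sys κ ι)
    (hP : ∀ l ∈ D.PB sd S, evp z' ((D.PB sd S).getD ((D.P sd z S).idxOf (evp z l)) []) = evp z' l)
    (hX : ∀ w ∈ D.XB sd S, (evM z').word ((D.XB sd S).getD
      ((D.X sd z S).idxOf ((evM z).word w)) []) = (evM z').word w)
    (u : List (SL C)) (hu : u ∈ D.all sd S) :
    (etaM z' (D.PB sd S) (D.XB sd S)).letter (nm z (D.P sd z S) (D.X sd z S) (pack u)) =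
      (evM z').word u := by
  by_cases h1 : u.all isP = true
  · have e : pack u = .p (u.filterMap pidx) := by
      rw [pack, if_pos h1]
    have hmem : u.filterMap pidx ∈ D.PB sd S := by
      rw [PopD.PB, List.mem_filterMap]
      exact ⟨u, hu, by rw [e]; rfl⟩
    rw [e]
    calc (evp z' ((D.PB sd S).getD ((D.P sd z S).idxOf (evp z (u.filterMap pidx))) [])).map Ltr.p
        = (evp z' (u.filterMap pidx)).map Ltr.p := by rw [hP _ hmem]
      _ = (evM z').word ((u.filterMap pidx).map Ltr.p) := (names_word_p z' _).symm
      _ = (evM z').word u := by rw [← names_allP u h1]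
  · by_cases h2 : u.all isQ = true
    · have e : pack u = .q (u.filterMap qidx).reverse := by
        rw [pack, if_neg h1, if_pos h2]
      have hmem : (u.filterMap qidx).reverse ∈ D.PB sd S := by
        rw [PopD.PB, List.mem_filterMap]
        exact ⟨u, hu, by rw [e]; rfl⟩
      rw [e]
      calc (evp z' ((D.PB sd S).getD
            ((D.P sd z S).idxOf (evp z (u.filterMap qidx).reverse)) [])).reverse.map Ltr.q
          = (evp z' (u.filterMap qidx).reverse).reverse.map Ltr.q := by rw [hP _ hmem]
        _ = (evM z').word ((u.filterMap qidx).reverse.reverse.map Ltr.q) :=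
            (names_word_q z' _).symm
        _ = (evM z').word u := by rw [List.reverse_reverse, ← names_allQ u h2]
    · have e : pack u = .x u := by
        rw [pack, if_neg h1, if_neg h2]
      have hmem : u ∈ D.XB sd S := by
        rw [PopD.XB, List.mem_filterMap]
        exact ⟨u, hu, by rw [e]; rfl⟩
      rw [e]
      exact hX u hmem

theorem etas_neww (sd : Ltr ℕ ℕ → Bool) (D : PopD C κ ι) (z z' : C → ℕ) (S : Sys κ ι)
    (hP : ∀ l ∈ D.PB sd S, evp z' ((D.PB sd S).getD ((D.P sd z S).idxOf (evp z l)) []) = evp z' l)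
    (hX : ∀ w ∈ D.XB sd S, (evM z').word ((D.XB sd S).getD
      ((D.X sd z S).idxOf ((evM z).word w)) []) = (evM z').word w)
    (w : List (Sy κ ι)) (hw : ∀ u ∈ (D.blocks sd w).filterMap lblock, u ∈ D.all sd S) :
    etas (etaM z' (D.PB sd S) (D.XB sd S)) (D.neww sd z (D.P sd z S) (D.X sd z S) w) =
      evs z' (D.popw w) := by
  have h1 : D.popw w = (D.blocks sd w).flatten := (List.flatten_splitBy _ _).symm
  have h2 : ∀ b ∈ D.blocks sd w, etas (etaM z' (D.PB sd S) (D.XB sd S))
      [nmb z (D.P sd z S) (D.X sd z S) b] = evs z' b := by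
    intro b hb
    rcases block_cases sd (D.popw w) b hb with ⟨V, rfl⟩ | ⟨u, hu, rfl, -⟩
    · rfl
    · obtain ⟨s, u', rfl⟩ := List.exists_cons_of_ne_nil hu
      have e1 : nmb z (D.P sd z S) (D.X sd z S)
          ((s :: u').map (Sum.inl : SL C → SS C κ ι)) =
          .inl (nm z (D.P sd z S) (D.X sd z S) (pack (s :: u'))) := by
        have : nmb z (D.P sd z S) (D.X sd z S)
          ((s :: u').map (Sum.inl : SL C → SS C κ ι)) =
          .inl (nm z (D.P sd z S) (D.X sd z S)
            (pack (lefts ((s :: u').map (Sum.inl : SL C → SS C κ ι))))) := rfl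
        rw [this, names_lefts]
      have e2 : (s :: u') ∈ (D.blocks sd w).filterMap lblock := by
        rw [List.mem_filterMap]
        refine ⟨_, hb, ?_⟩
        have : lblock ((s :: u').map (Sum.inl : SL C → SS C κ ι)) =
          some (lefts ((s :: u').map (Sum.inl : SL C → SS C κ ι))) := rfl
        rw [this, names_lefts]
      rw [e1, names_evs_inl, ← names_letter sd D z z' S hP hX _ (hw _ e2)]
      simp only [etas, List.flatMap_cons, List.flatMap_nil, List.append_nil, Sum.elim_inl]
  rw [h1]
  have h3 : ∀ L : List (List (SS C κ ι)), (∀ b ∈ L, etas (etaM z' (D.PB sd S) (D.XB sd S))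
      [nmb z (D.P sd z S) (D.X sd z S) b] = evs z' b) →
      etas (etaM z' (D.PB sd S) (D.XB sd S)) (L.map (nmb z (D.P sd z S) (D.X sd z S))) =
      evs z' L.flatten := by
    intro L
    induction L with
    | nil => intro _; rfl
    | cons b L ih =>
      intro h
      have h4 := ih fun b' hb' => h b' (List.mem_cons_of_mem _ hb')
      have h5 := h b List.mem_cons_self
      have e1 : etas (etaM z' (D.PB sd S) (D.XB sd S))
          ((b :: L).map (nmb z (D.P sd z S) (D.X sd z S))) =
          etas (etaM z' (D.PB sd S) (D.XB sd S)) [nmb z (D.P sd z S) (D.X sd z S) b] ++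
          etas (etaM z' (D.PB sd S) (D.XB sd S)) (L.map (nmb z (D.P sd z S) (D.X sd z S))) := by
        simp only [etas, List.map_cons, List.flatMap_cons, List.flatMap_nil, List.append_nil]
      have e2 : evs z' (b :: L).flatten = evs z' b ++ evs z' L.flatten := by
        simp only [evs, List.flatten_cons, List.flatMap_append]
      rw [e1, e2, h4, h5]
  exact h3 _ h2

end Pool.Agent.Lib.MP_ea09ae_al
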