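import Pool.Agent.Lib.MP_ea09ae_al.Sym
import Pool.Agent.Lib.MP_ea09ae_al.Split

/-!
# Existence of popping data
-/

namespace Pool.Agent.Lib.MP_ea09ae_al

/-- The form of a nonempty chain. -/
theorem pop_form {X : Type} [DecidableEq X] (sd : X → Bool) :
    ∀ (u : List X), u ≠ [] → u.IsChain (fun s t => grel sd s t = true) →
      ∃ (x : X) (i : ℕ), u = List.replicate (i + 1) x ∨
        ∃ (y : X) (j : ℕ), sd x = true ∧ sd y = false ∧
          u = List.replicate (i + 1) x ++ List.replicate (j + 1) y := by
  intro u
  induction u with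
  | nil => intro h; exact absurd rfl h
  | cons x u ih =>
    intro _ hch
    cases u with
    | nil => exact ⟨x, 0, Or.inl rfl⟩
    | cons y u =>
      rw [List.isChain_cons_cons] at hch
      obtain ⟨hxy, hch'⟩ := hch
      obtain ⟨z, i, h⟩ := ih (by simp) hch'
      have hzy : z = y := by
        rcases h with h | ⟨y', j, -, -, h⟩
        · rw [List.replicate_succ] at h
          exact (List.cons.inj h).1.symm
        · rw [List.replicate_succ, List.cons_append] at h
          exact (List.cons.inj h).1.symm
      subst hzy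
      by_cases hx : x = z
      · subst hx
        rcases h with h | ⟨y', j, h1, h2, h⟩
        · exact ⟨x, i + 1, Or.inl (by rw [h, List.replicate_succ (n := i + 1)])⟩
        · exact ⟨x, i + 1, Or.inr ⟨y', j, h1, h2, by
            rw [h, List.replicate_succ (n := i + 1), List.cons_append]⟩⟩
      · unfold grel at hxy
        rw [decide_eq_false hx, Bool.false_or, Bool.and_eq_true, Bool.not_eq_true'] at hxy
        rcases h with h | ⟨y', j, h1, h2, h⟩
        · exact ⟨x, 0, Or.inr ⟨z, i, hxy.1, hxy.2, by rw [h]; rfl⟩⟩
        · rw [hxy.2] at h1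
          exact absurd h1 (by simp)

/-- A nonempty chain as the value of at most two symbols. -/
theorem pop_sym {X : Type} [DecidableEq X] (sd : X → Bool) (u : List X) (hu : u ≠ [])
    (hch : u.IsChain (fun s t => grel sd s t = true)) (c₁ c₂ : Fin 4) :
    ∃ (a : List (X × Option (Fin 4))) (i j : ℕ), a ≠ [] ∧ a.length ≤ 2 ∧
      a.IsChain (fun s t => grel sd s.1 t.1 = true) ∧
      (∀ e : Fin 4 → ℕ, e c₁ = i → e c₂ = j → ev e a = u) ∧
      (∀ s ∈ a.getLast?, s.1 ∈ u.getLast?) ∧ (∀ s ∈ a.head?, s.1 ∈ u.head?) := by
  obtain ⟨x, i, h⟩ := pop_form sd u hu hch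
  rcases h with h | ⟨y, j, h1, h2, h⟩
  · refine ⟨[(x, some c₁)], i, 0, by simp, by simp, List.isChain_singleton _, ?_, ?_, ?_⟩
    · intro e he _
      rw [h]
      simp [ev, expo, he]
    · intro s hs
      simp only [List.getLast?_singleton, Option.mem_def, Option.some.injEq] at hs
      rw [← hs, h, List.replicate_succ']
      simp
    · intro s hs
      simp only [List.head?_cons, Option.mem_def, Option.some.injEq] at hs
      rw [← hs, h, List.replicate_succ]
      simp
  · refine ⟨[(x, some c₁), (y, some c₂)], i, j, by simp, by simp, ?_, ?_, ?_, ?_⟩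
    · rw [List.isChain_cons_cons]
      refine ⟨?_, List.isChain_singleton _⟩
      simp [grel, h1, h2]
    · intro e he he'
      rw [h]
      simp [ev, expo, he, he']
    · intro s hs
      simp only [List.getLast?_cons_cons, List.getLast?_singleton, Option.mem_def,
        Option.some.injEq] at hs
      rw [← hs, h, List.replicate_succ' (n := j), ← List.append_assoc]
      simp
    · intro s hs
      simp only [List.head?_cons, Option.mem_def, Option.some.injEq] at hs
      rw [← hs, h, List.replicate_succ (n := i)]
      simp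

/-- One word: first run, middle part, last run. -/
theorem exists_pop {X : Type} [DecidableEq X] (sd : X → Bool) (w : List X) :
    ∃ (keep : Bool) (a b : List (X × Option (Fin 4))) (e : Fin 4 → ℕ) (mid : List X),
      w = ev e a ++ mid ++ ev e b ∧
      a.length ≤ 2 ∧ b.length ≤ 2 ∧
      a.IsChain (fun s t => grel sd s.1 t.1 = true) ∧
      b.IsChain (fun s t => grel sd s.1 t.1 = true) ∧
      (keep = false → mid = []) ∧
      (keep = true → mid ≠ [] ∧ a ≠ [] ∧ b ≠ [] ∧
        (∀ s ∈ a.getLast?, ∀ t ∈ mid.head?, grel sd s.1 t = false) ∧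
        (∀ s ∈ mid.getLast?, ∀ t ∈ b.head?, grel sd s t.1 = false)) := by
  set L := w.splitBy (grel sd) with hL
  have hflat : L.flatten = w := List.flatten_splitBy _ _
  have hne : ∀ r ∈ L, r ≠ [] := fun r hr => List.ne_nil_of_mem_splitBy hr
  have hch : ∀ r ∈ L, r.IsChain (fun s t => grel sd s t = true) := fun r hr =>
    List.isChain_of_mem_splitBy hr
  have hadj := List.isChain_getLast_head_splitBy (grel sd) w
  rw [← hL] at hadj
  rcases hLc : L with _ | ⟨r1, L'⟩
  · refine ⟨false, [], [], fun _ => 0, [], ?_, by simp, by simp, List.isChain_nil,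
      List.isChain_nil, fun _ => rfl, fun h => absurd h (by simp)⟩
    rw [← hflat, hLc]
    simp [ev]
  · have hr1 : r1 ∈ L := by rw [hLc]; simp
    obtain ⟨a, i, j, ha0, ha2, hac, haev, hal, -⟩ := pop_sym sd r1 (hne _ hr1) (hch _ hr1) 0 1
    rcases List.eq_nil_or_concat L' with hL' | ⟨M, rm, hL'⟩
    · refine ⟨false, a, [], ![i, j, 0, 0], [], ?_, ha2, by simp, hac,
        List.isChain_nil, fun _ => rfl, fun h => absurd h (by simp)⟩
      rw [haev _ (by simp) (by simp), ← hflat, hLc, hL']
      simp [ev]
    · rw [List.concat_eq_append] at hL'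
      have hrm : rm ∈ L := by rw [hLc, hL']; simp
      obtain ⟨b, i', j', hb0, hb2, hbc, hbev, -, hbh⟩ :=
        pop_sym sd rm (hne _ hrm) (hch _ hrm) 2 3
      by_cases hM : M = []
      · refine ⟨false, a, b, ![i, j, i', j'], [], ?_, ha2, hb2, hac, hbc, fun _ => rfl,
          fun h => absurd h (by simp)⟩
        rw [haev _ (by simp) (by simp), hbev _ (by simp) (by simp), ← hflat, hLc, hL', hM]
        simp
      · obtain ⟨m1, M', hM'⟩ := List.exists_cons_of_ne_nil hM
        have hm1 : m1 ∈ L := by rw [hLc, hL', hM']; simp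
        refine ⟨true, a, b, ![i, j, i', j'], M.flatten, ?_, ha2, hb2, hac, hbc,
          fun h => absurd h (by simp), fun _ => ⟨?_, ha0, hb0, ?_, ?_⟩⟩
        · rw [haev _ (by simp) (by simp), hbev _ (by simp) (by simp), ← hflat, hLc, hL']
          simp
        · rw [hM', List.flatten_cons]
          intro h0
          exact hne _ hm1 (List.append_eq_nil_iff.1 h0).1
        · intro s hs t ht
          rw [hLc, hL', hM'] at hadj
          rw [List.cons_append, List.isChain_cons_cons] at hadj
          obtain ⟨hx, hy, hxy⟩ := hadj.1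
          have h1 := hal s hs
          rw [List.getLast?_eq_getLast_of_ne_nil hx, Option.mem_def, Option.some.injEq] at h1
          rw [hM', List.flatten_cons, List.head?_append_of_ne_nil _ hy,
            List.head?_eq_some_head hy, Option.mem_def, Option.some.injEq] at ht
          rw [← h1, ← ht]
          exact hxy
        · intro s hs t ht
          obtain ⟨M'', m2, hM2⟩ : ∃ M'' m2, M = M'' ++ [m2] := by
            rcases List.eq_nil_or_concat M with h | ⟨M'', m2, h⟩
            · exact absurd h hM
            · exact ⟨M'', m2, by rw [h, List.concat_eq_append]⟩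
          rw [hLc, hL', hM2] at hadj
          have h2 : List.IsChain (fun a b => ∃ ha hb, grel sd (a.getLast ha) (b.head hb) = false)
              [m2, rm] := by
            refine List.IsChain.right_of_append (l₁ := r1 :: M'') ?_
            simpa using hadj
          rw [List.isChain_cons_cons] at h2
          obtain ⟨hx, hy, hxy⟩ := h2.1
          have h1 := hbh t ht
          rw [List.head?_eq_some_head hy, Option.mem_def, Option.some.injEq] at h1
          rw [hM2, List.flatten_append, List.flatten_singleton,
            List.getLast?_append_of_ne_nil _ hx,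
            List.getLast?_eq_getLast_of_ne_nil hx, Option.mem_def, Option.some.injEq] at hs
          rw [← h1, ← hs]
          exact hxy

theorem pop_grel_p (Lp Lx : ℕ → Bool) (a b : ℕ) :
    grel (side Lp Lx) (.p a) (.p b) = grel Lp a b := by
  simp [grel, side]

theorem pop_grel_q (Lp Lx : ℕ → Bool) (a b : ℕ) :
    grel (side Lp Lx) (.q a) (.q b) = grel Lp b a := by
  simp [grel, side, eq_comm, Bool.and_comm]

/-- renaming of the parameters -/
def popCv {C : Type} (v : C) (o : Option (Fin 4)) : Option (C × Fin 4) := o.map (fun j => (v, j))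

def popP {C : Type} (v : C) (s : ℕ × Option (Fin 4)) : ℕ × Option (C × Fin 4) :=
  (s.1, popCv v s.2)

def popX {C : Type} (v : C) (s : Ltr ℕ ℕ × Option (Fin 4)) : SL (C × Fin 4) :=
  match s.1 with
  | .p a => .p (a, popCv v s.2)
  | .q a => .q (a, popCv v s.2)
  | .x a => .x (a, popCv v s.2)

theorem popX_bs {C : Type} (v : C) (s : Ltr ℕ ℕ × Option (Fin 4)) : bs (popX v s) = s.1 := by
  obtain ⟨l, o⟩ := s
  cases l <;> rfl

theorem pop_expo {C : Type} (v : C) (z : C × Fin 4 → ℕ) (o : Option (Fin 4)) :
    expo z (popCv v o) = expo (fun j => z (v, j)) o := by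
  cases o <;> rfl

theorem pop_evp {C : Type} (v : C) (z : C × Fin 4 → ℕ) (l : List (ℕ × Option (Fin 4))) :
    (l.map (popP v)).flatMap (evM z).f = ev (fun j => z (v, j)) l := by
  induction l with
  | nil => rfl
  | cons s l ih =>
    rw [List.map_cons, List.flatMap_cons, ih]
    show List.replicate (expo z (popCv v s.2)) s.1 ++ _ = _
    rw [pop_expo]
    rfl

theorem pop_evx {C : Type} (v : C) (z : C × Fin 4 → ℕ) (l : List (Ltr ℕ ℕ × Option (Fin 4))) :
    (evM z).word (l.map (popX v)) = ev (fun j => z (v, j)) l := by
  induction l with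
  | nil => rfl
  | cons s l ih =>
    unfold Mor.word at ih ⊢
    rw [List.map_cons, List.flatMap_cons, ih]
    have h : (evM z).letter (popX v s) =
        List.replicate (expo (fun j => z (v, j)) s.2) s.1 := by
      rw [← pop_expo]
      obtain ⟨x, o⟩ := s
      cases x with
      | p a => simp [popX, Mor.letter, evM]
      | q a => simp [popX, Mor.letter, evM]
      | x a => simp [popX, Mor.letter, evM]
    rw [h]
    rfl

theorem pop_word_p {C : Type} (z : C → ℕ) (l : List (ℕ × Option C)) :
    (evM z).word (l.map .p) = (l.flatMap (evM z).f).map .p := by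
  induction l with
  | nil => rfl
  | cons s l ih =>
    unfold Mor.word at ih ⊢
    rw [List.map_cons, List.flatMap_cons, ih, List.flatMap_cons, List.map_append]
    rfl

theorem pop_word_append {α β α' β' : Type} (m : Mor α β α' β') (u v : List (Ltr α β)) :
    m.word (u ++ v) = m.word u ++ m.word v := by
  unfold Mor.word
  exact List.flatMap_append

theorem pop_word_q {C : Type} (z : C → ℕ) (l : List (ℕ × Option C)) :
    (evM z).word (l.reverse.map .q) = (l.flatMap (evM z).f).reverse.map .q := by
  induction l with
  | nil => rfl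
  | cons s l ih =>
    rw [List.reverse_cons, List.map_append, pop_word_append, ih, List.flatMap_cons,
      List.reverse_append, List.map_append]
    congr 1
    simp [Mor.word, Mor.letter]

theorem exists_fits {κ ι : Type} (Lp Lx : ℕ → Bool) (σ : Mor κ ι ℕ ℕ) :
    ∃ (D : PopD ((κ ⊕ ι) × Fin 4) κ ι) (z : (κ ⊕ ι) × Fin 4 → ℕ) (mid : Mor κ ι ℕ ℕ),
      Fits (side Lp Lx) D z mid.letter σ.letter := by
  choose kp ap bp ep mp hp1 hp2 hp3 hp4 hp5 hp6 hp7 using fun k => exists_pop Lp (σ.f k)
  choose kx ax bx ex mx hx1 hx2 hx3 hx4 hx5 hx6 hx7 using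
    fun i => exists_pop (side Lp Lx) (σ.g i)
  refine ⟨⟨kp, kx, fun k => (ap k).map (popP (Sum.inl k)), fun k => (bp k).map (popP (Sum.inl k)),
    fun i => (ax i).map (popX (Sum.inr i)), fun i => (bx i).map (popX (Sum.inr i))⟩,
    fun c => Sum.elim ep ex c.1 c.2, ⟨mp, mx⟩, ?_⟩
  set z : (κ ⊕ ι) × Fin 4 → ℕ := fun c => Sum.elim ep ex c.1 c.2 with hz
  have ez : ∀ k, (fun j => z (Sum.inl k, j)) = ep k := fun k => rfl
  have ez' : ∀ i, (fun j => z (Sum.inr i, j)) = ex i := fun i => rfl
  constructor
  · -- val
    rintro (k | k | i)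
    · show (σ.f k).map Ltr.p = (evM z).word (((ap k).map (popP (Sum.inl k))).map .p) ++
        (mp k).map .p ++ (evM z).word (((bp k).map (popP (Sum.inl k))).map .p)
      rw [pop_word_p, pop_word_p, pop_evp, pop_evp, ez, ← List.map_append, ← List.map_append,
        ← hp1 k]
    · show (σ.f k).reverse.map Ltr.q =
        (evM z).word (((bp k).map (popP (Sum.inl k))).reverse.map .q) ++
        (mp k).reverse.map .q ++ (evM z).word (((ap k).map (popP (Sum.inl k))).reverse.map .q)
      rw [pop_word_q, pop_word_q, pop_evp, pop_evp, ez, ← List.map_append, ← List.map_append,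
        ← List.reverse_append, ← List.reverse_append, ← List.append_assoc, ← hp1 k]
    · show σ.g i = (evM z).word ((ax i).map (popX (Sum.inr i))) ++ mx i ++
        (evM z).word ((bx i).map (popX (Sum.inr i)))
      rw [pop_evx, pop_evx, ez', ← hx1 i]
  · -- no
    rintro (k | k | i) h
    · show (mp k).map Ltr.p = []
      rw [hp6 k h]; rfl
    · show (mp k).reverse.map Ltr.q = []
      rw [hp6 k h]; rfl
    · exact hx6 i h
  · -- yes
    rintro (k | k | i) h
    · obtain ⟨h1, h2, h3, -, -⟩ := hp7 k h
      refine ⟨?_, ?_, ?_⟩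
      · show (mp k).map Ltr.p ≠ []
        simpa using h1
      · show ((ap k).map (popP (Sum.inl k))).map Ltr.p ≠ []
        simpa using h2
      · show ((bp k).map (popP (Sum.inl k))).map Ltr.p ≠ []
        simpa using h3
    · obtain ⟨h1, h2, h3, -, -⟩ := hp7 k h
      refine ⟨?_, ?_, ?_⟩
      · show (mp k).reverse.map Ltr.q ≠ []
        simpa using h1
      · show ((bp k).map (popP (Sum.inl k))).reverse.map Ltr.q ≠ []
        simpa using h3
      · show ((ap k).map (popP (Sum.inl k))).reverse.map Ltr.q ≠ []
        simpa using h2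
    · obtain ⟨h1, h2, h3, -, -⟩ := hx7 i h
      refine ⟨h1, ?_, ?_⟩
      · show (ax i).map (popX (Sum.inr i)) ≠ []
        simpa using h2
      · show (bx i).map (popX (Sum.inr i)) ≠ []
        simpa using h3
  · -- cutl
    rintro (k | k | i) h s hs t ht
    · obtain ⟨-, -, -, h4, -⟩ := hp7 k h
      change s ∈ (((ap k).map (popP (Sum.inl k))).map Ltr.p).getLast? at hs
      change t ∈ ((mp k).map Ltr.p).head? at ht
      rw [List.getLast?_map, List.getLast?_map, Option.mem_def, Option.map_map,
        Option.map_eq_some_iff] at hs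
      rw [List.head?_map, Option.mem_def, Option.map_eq_some_iff] at ht
      obtain ⟨s', hs', rfl⟩ := hs
      obtain ⟨t', ht', rfl⟩ := ht
      show grel (side Lp Lx) (.p s'.1) (.p t') = false
      rw [pop_grel_p]
      exact h4 s' hs' t' ht'
    · obtain ⟨-, -, -, -, h5⟩ := hp7 k h
      change s ∈ (((bp k).map (popP (Sum.inl k))).reverse.map Ltr.q).getLast? at hs
      change t ∈ ((mp k).reverse.map Ltr.q).head? at ht
      rw [List.getLast?_map, List.getLast?_reverse, List.head?_map, Option.mem_def,
        Option.map_map, Option.map_eq_some_iff] at hs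
      rw [List.head?_map, List.head?_reverse, Option.mem_def, Option.map_eq_some_iff] at ht
      obtain ⟨s', hs', rfl⟩ := hs
      obtain ⟨t', ht', rfl⟩ := ht
      show grel (side Lp Lx) (.q s'.1) (.q t') = false
      rw [pop_grel_q]
      exact h5 t' ht' s' hs'
    · obtain ⟨-, -, -, h4, -⟩ := hx7 i h
      change s ∈ ((ax i).map (popX (Sum.inr i))).getLast? at hs
      change t ∈ (mx i).head? at ht
      rw [List.getLast?_map, Option.mem_def, Option.map_eq_some_iff] at hs
      obtain ⟨s', hs', rfl⟩ := hs
      rw [popX_bs]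
      exact h4 s' hs' t ht
  · -- cutr
    rintro (k | k | i) h s hs t ht
    · obtain ⟨-, -, -, -, h5⟩ := hp7 k h
      change s ∈ ((mp k).map Ltr.p).getLast? at hs
      change t ∈ (((bp k).map (popP (Sum.inl k))).map Ltr.p).head? at ht
      rw [List.getLast?_map, Option.mem_def, Option.map_eq_some_iff] at hs
      rw [List.head?_map, List.head?_map, Option.mem_def, Option.map_map,
        Option.map_eq_some_iff] at ht
      obtain ⟨s', hs', rfl⟩ := hs
      obtain ⟨t', ht', rfl⟩ := ht
      show grel (side Lp Lx) (.p s') (.p t'.1) = false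
      rw [pop_grel_p]
      exact h5 s' hs' t' ht'
    · obtain ⟨-, -, -, h4, -⟩ := hp7 k h
      change s ∈ ((mp k).reverse.map Ltr.q).getLast? at hs
      change t ∈ (((ap k).map (popP (Sum.inl k))).reverse.map Ltr.q).head? at ht
      rw [List.getLast?_map, List.getLast?_reverse, Option.mem_def,
        Option.map_eq_some_iff] at hs
      rw [List.head?_map, List.head?_reverse, List.getLast?_map, Option.mem_def, Option.map_map,
        Option.map_eq_some_iff] at ht
      obtain ⟨s', hs', rfl⟩ := hs
      obtain ⟨t', ht', rfl⟩ := ht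
      show grel (side Lp Lx) (.q s') (.q t'.1) = false
      rw [pop_grel_q]
      exact h4 t' ht' s' hs'
    · obtain ⟨-, -, -, -, h5⟩ := hx7 i h
      change s ∈ (mx i).getLast? at hs
      change t ∈ ((bx i).map (popX (Sum.inr i))).head? at ht
      rw [List.head?_map, Option.mem_def, Option.map_eq_some_iff] at ht
      obtain ⟨t', ht', rfl⟩ := ht
      rw [popX_bs]
      exact h5 s hs t' ht'
  · -- chl
    rintro (k | k | i)
    · show (((ap k).map (popP (Sum.inl k))).map Ltr.p).IsChain _
      rw [List.isChain_map, List.isChain_map]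
      refine (hp4 k).imp fun s t h => ?_
      show grel (side Lp Lx) (.p s.1) (.p t.1) = true
      rw [pop_grel_p]; exact h
    · show (((bp k).map (popP (Sum.inl k))).reverse.map Ltr.q).IsChain _
      rw [List.isChain_map, List.isChain_reverse, List.isChain_map]
      refine (hp5 k).imp fun s t h => ?_
      show grel (side Lp Lx) (.q t.1) (.q s.1) = true
      rw [pop_grel_q]; exact h
    · show ((ax i).map (popX (Sum.inr i))).IsChain _
      rw [List.isChain_map]
      refine (hx4 i).imp fun s t h => ?_
      show grel (side Lp Lx) (bs (popX (Sum.inr i) s)) (bs (popX (Sum.inr i) t)) = true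
      rw [popX_bs, popX_bs]; exact h
  · -- chr
    rintro (k | k | i)
    · show (((bp k).map (popP (Sum.inl k))).map Ltr.p).IsChain _
      rw [List.isChain_map, List.isChain_map]
      refine (hp5 k).imp fun s t h => ?_
      show grel (side Lp Lx) (.p s.1) (.p t.1) = true
      rw [pop_grel_p]; exact h
    · show (((ap k).map (popP (Sum.inl k))).reverse.map Ltr.q).IsChain _
      rw [List.isChain_map, List.isChain_reverse, List.isChain_map]
      refine (hp4 k).imp fun s t h => ?_
      show grel (side Lp Lx) (.q t.1) (.q s.1) = true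
      rw [pop_grel_q]; exact h
    · show ((bx i).map (popX (Sum.inr i))).IsChain _
      rw [List.isChain_map]
      refine (hx5 i).imp fun s t h => ?_
      show grel (side Lp Lx) (bs (popX (Sum.inr i) s)) (bs (popX (Sum.inr i) t)) = true
      rw [popX_bs, popX_bs]; exact h
  · -- lenl
    rintro (k | k | i)
    · show (((ap k).map (popP (Sum.inl k))).map Ltr.p).length ≤ 2
      simpa using hp2 k
    · show (((bp k).map (popP (Sum.inl k))).reverse.map Ltr.q).length ≤ 2
      simpa using hp3 k
    · show ((ax i).map (popX (Sum.inr i))).length ≤ 2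
      simpa using hx2 i
  · -- lenr
    rintro (k | k | i)
    · show (((bp k).map (popP (Sum.inl k))).map Ltr.p).length ≤ 2
      simpa using hp3 k
    · show (((ap k).map (popP (Sum.inl k))).reverse.map Ltr.q).length ≤ 2
      simpa using hp2 k
    · show ((bx i).map (popX (Sum.inr i))).length ≤ 2
      simpa using hx3 i

end Pool.Agent.Lib.MP_ea09ae_al
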