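import Pool.Agent.Lib.MP_ea09ae_al.Sym

/-!
# From a solution of the new system to a solution of the old one
-/

namespace Pool.Agent.Lib.MP_ea09ae_al

variable {C κ ι : Type}

theorem sound_word_p {α β α' β' : Type} (m : Mor α β α' β') (l : List α) :
    m.word (l.map .p) = (l.flatMap m.f).map .p := by
  induction l with
  | nil => simp [Mor.word]
  | cons a l ih =>
    simp only [Mor.word, List.map_cons, List.flatMap_cons, List.map_append] at ih ⊢
    rw [ih]
    rfl

theorem sound_word_append {α β α' β' : Type} (m : Mor α β α' β') (u v : List (Ltr α β)) :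
    m.word (u ++ v) = m.word u ++ m.word v := by
  simp [Mor.word]

theorem sound_word_q {α β α' β' : Type} (m : Mor α β α' β') (l : List α) :
    m.word (l.reverse.map .q) = (l.flatMap m.f).reverse.map .q := by
  induction l with
  | nil => simp [Mor.word]
  | cons a l ih =>
    rw [List.reverse_cons, List.map_append, sound_word_append, ih, List.flatMap_cons,
      List.reverse_append, List.map_append]
    congr 1
    simp [Mor.word, Mor.letter]

/-- the substitution used for the comparison -/
def soundRho (η : Mor ℕ ℕ ℕ ℕ) (τ : Mor κ ι ℕ ℕ) (w : List (Sy κ ι)) : List (Ltr ℕ ℕ) :=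
  w.flatMap (Sum.elim (fun l => [l]) (fun V => η.word (τ.letter V)))

theorem soundRho_append (η : Mor ℕ ℕ ℕ ℕ) (τ : Mor κ ι ℕ ℕ) (u v : List (Sy κ ι)) :
    soundRho η τ (u ++ v) = soundRho η τ u ++ soundRho η τ v := by
  simp [soundRho]

theorem soundRho_inl (η : Mor ℕ ℕ ℕ ℕ) (τ : Mor κ ι ℕ ℕ) (u : List (Ltr ℕ ℕ)) :
    soundRho η τ (u.map .inl) = u := by
  induction u with
  | nil => simp [soundRho]
  | cons a u ih =>
    simp only [soundRho, List.map_cons, List.flatMap_cons, Sum.elim_inl] at ih ⊢
    rw [ih]; rfl

theorem evs_append (z : C → ℕ) (u v : List (SS C κ ι)) :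
    evs z (u ++ v) = evs z u ++ evs z v := by
  simp [evs]

theorem evs_inl (z : C → ℕ) (u : List (SL C)) :
    evs (κ := κ) (ι := ι) z (u.map .inl) = ((evM z).word u).map .inl := by
  induction u with
  | nil => simp [evs, Mor.word]
  | cons a u ih =>
    simp only [evs, Mor.word, List.map_cons, List.flatMap_cons, Sum.elim_inl,
      List.map_append] at ih ⊢
    rw [ih]

theorem sound_pop (D : PopD C κ ι) (z : C → ℕ) (η : Mor ℕ ℕ ℕ ℕ) (τ : Mor κ ι ℕ ℕ)
    (V : Ltr κ ι) :
    soundRho η τ (evs z (D.pop V)) = (backsol D z η τ).letter V := by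
  have h1 : soundRho η τ (evs z (D.pop V)) = (evM z).word (D.pre V) ++
      (if D.keep V = true then η.word (τ.letter V) else []) ++ (evM z).word (D.suf V) := by
    unfold PopD.pop
    rw [evs_append, evs_append, soundRho_append, soundRho_append, evs_inl, evs_inl,
      soundRho_inl, soundRho_inl]
    congr 2
    split
    · simp [evs, soundRho]
    · simp [evs, soundRho]
  rw [h1]
  cases V with
  | p k =>
    have hk : D.keep (.p k) = D.kp k := rfl
    rw [hk]
    simp only [PopD.pre, PopD.suf, Mor.letter, backsol]
    rw [sound_word_p, sound_word_p, sound_word_p, List.map_append, List.map_append]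
    congr 2
    cases D.kp k <;> simp
  | q k =>
    have hk : D.keep (.q k) = D.kp k := rfl
    rw [hk]
    simp only [PopD.pre, PopD.suf, Mor.letter, backsol]
    rw [sound_word_q, sound_word_q, sound_word_q, List.reverse_append, List.reverse_append,
      List.map_append, List.map_append, ← List.append_assoc]
    congr 2
    cases D.kp k <;> simp
  | x i =>
    have hk : D.keep (.x i) = D.kx i := rfl
    rw [hk]
    rfl

theorem sound_old (D : PopD C κ ι) (z : C → ℕ) (η : Mor ℕ ℕ ℕ ℕ) (τ : Mor κ ι ℕ ℕ)
    (w : List (Sy κ ι)) :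
    (backsol D z η τ).val w = soundRho η τ (evs z (D.popw w)) := by
  induction w with
  | nil => simp [Mor.val, PopD.popw, evs, soundRho]
  | cons s w ih =>
    have e1 : D.popw (s :: w) =
        Sum.elim (fun l => [.inl (lift0 l)]) D.pop s ++ D.popw w := by
      simp [PopD.popw]
    have e2 : (backsol D z η τ).val (s :: w) =
        Sum.elim (fun l => [l]) (backsol D z η τ).letter s ++ (backsol D z η τ).val w := by
      simp [Mor.val]
    rw [e1, e2, evs_append, soundRho_append, ih]
    congr 1
    cases s with
    | inl l =>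
      have : ([Sum.inl (lift0 l)] : List (SS C κ ι)) = [lift0 l].map Sum.inl := rfl
      simp only [Sum.elim_inl]
      rw [this, evs_inl, soundRho_inl]
      cases l <;> simp [Mor.word, Mor.letter, lift0, evM, expo]
    | inr V =>
      simp only [Sum.elim_inr]
      exact (sound_pop D z η τ V).symm

theorem sound_new (η : Mor ℕ ℕ ℕ ℕ) (τ : Mor κ ι ℕ ℕ) (w : List (Sy κ ι)) :
    soundRho η τ (etas η w) = η.word (τ.val w) := by
  induction w with
  | nil => simp [Mor.val, etas, soundRho, Mor.word]
  | cons s w ih =>
    have e1 : etas η (s :: w) =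
        Sum.elim (fun l => (η.letter l).map .inl) (fun V => [.inr V]) s ++ etas η w := by
      simp [etas]
    have e2 : τ.val (s :: w) = Sum.elim (fun l => [l]) τ.letter s ++ τ.val w := by
      simp [Mor.val]
    rw [e1, e2, soundRho_append, sound_word_append, ih]
    congr 1
    cases s with
    | inl l =>
      simp only [Sum.elim_inl]
      rw [soundRho_inl]
      simp [Mor.word]
    | inr V =>
      simp [soundRho]

theorem sound_len (η : Mor ℕ ℕ ℕ ℕ) (g : ℕ) (hg : ∀ l, (η.letter l).length ≤ g)
    (u : List (Ltr ℕ ℕ)) : (η.word u).length ≤ g * u.length := by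
  induction u with
  | nil => simp [Mor.word]
  | cons a u ih =>
    have e : η.word (a :: u) = η.letter a ++ η.word u := by simp [Mor.word]
    rw [e, List.length_append, List.length_cons]
    have := hg a
    nlinarith

theorem sound (D : PopD C κ ι) (z : C → ℕ) (η : Mor ℕ ℕ ℕ ℕ) (S S' : Sys κ ι)
    (h : List.Forall₂ (fun e e' => etas η e'.1 = evs z (D.popw e.1) ∧
      etas η e'.2 = evs z (D.popw e.2)) S S')
    (τ : Mor κ ι ℕ ℕ) (hτ : Solves τ S') (g : ℕ) (hg : ∀ l, (η.letter l).length ≤ g) :
    Solves (backsol D z η τ) S ∧ wt (backsol D z η τ) S ≤ g * wt τ S' := by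
  induction h with
  | nil => exact ⟨fun e he => absurd he (by simp), by simp [wt]⟩
  | @cons e e' S S' he _ ih =>
    have hv : ∀ {w w' : List (Sy κ ι)}, etas η w' = evs z (D.popw w) →
        (backsol D z η τ).val w = η.word (τ.val w') := by
      intro w w' hw
      rw [sound_old, ← hw, sound_new]
    obtain ⟨ih1, ih2⟩ := ih (fun e he => hτ e (List.mem_cons_of_mem _ he))
    refine ⟨?_, ?_⟩
    · intro f hf
      rcases List.mem_cons.mp hf with rfl | hf
      · rw [hv he.1, hv he.2, hτ e' List.mem_cons_self]
      · exact ih1 f hf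
    · have h1 : wt (backsol D z η τ) (e :: S) =
          ((backsol D z η τ).val e.1).length + wt (backsol D z η τ) S := by simp [wt]
      have h2 : wt τ (e' :: S') = (τ.val e'.1).length + wt τ S' := by simp [wt]
      rw [h1, h2, hv he.1, mul_add]
      exact Nat.add_le_add (sound_len η g hg _) ih2

end Pool.Agent.Lib.MP_ea09ae_al
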