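import Pool.Agent.Lib.MP_ea09ae_al.Pop
import Pool.Agent.Lib.MP_ea09ae_al.Cut
import Pool.Agent.Lib.MP_ea09ae_al.Count
import Pool.Agent.Lib.MP_ea09ae_al.Sound
import Pool.Agent.Lib.MP_ea09ae_al.Complete
import Pool.Agent.Lib.MP_ea09ae_al.Lin
import Pool.Agent.Lib.MP_ea09ae_al.Names

/-!
# One step of recompression
-/

namespace Pool.Agent.Lib.MP_ea09ae_al

variable {C κ ι : Type}

theorem eps_length_le (P : List (List ℕ)) (X : List (List (Ltr ℕ ℕ)))
    (l : Ltr (List ℕ) (List (Ltr ℕ ℕ))) : ((epsM P X).letter l).length ≤ 1 := by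
  cases l with
  | p a => simp only [Mor.letter, epsM, List.length_map]; split <;> simp
  | q a => simp only [Mor.letter, epsM, List.length_map, List.length_reverse]; split <;> simp
  | x b => simp only [Mor.letter, epsM]; split <;> simp

theorem length_flatMap_le_mul {X Y : Type} (g : ℕ) (f : X → List Y) (w : List X)
    (h : ∀ a ∈ w, (f a).length ≤ g) : (w.flatMap f).length ≤ g * w.length := by
  induction w with
  | nil => simp
  | cons a w ih =>
    rw [List.flatMap_cons, List.length_append, List.length_cons]
    have h1 := h a (by simp)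
    have h2 := ih (fun b hb => h b (List.mem_cons_of_mem _ hb))
    nlinarith

/-- every letter block of a word of the system is in the list of all letter blocks -/
theorem mem_all (D : PopD C κ ι) (sd : Ltr ℕ ℕ → Bool) (S : Sys κ ι)
    (e : List (Sy κ ι) × List (Sy κ ι)) (he : e ∈ S) :
    (∀ u ∈ (D.blocks sd e.1).filterMap lblock, u ∈ D.all sd S) ∧
      (∀ u ∈ (D.blocks sd e.2).filterMap lblock, u ∈ D.all sd S) := by
  constructor <;> intro u hu <;>
  · rw [PopD.all, List.mem_flatMap]
    exact ⟨e, he, by simp [hu]⟩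

theorem named_of_mem_all (D : PopD C κ ι) (sd : Ltr ℕ ℕ → Bool) (z : C → ℕ) (S : Sys κ ι)
    (u : List (SL C)) (hu : u ∈ D.all sd S) : Named z (D.P sd z S) (D.X sd z S) u := by
  constructor
  · intro l hl
    rw [PopD.P, List.mem_map]
    exact ⟨l, by rw [PopD.PB, List.mem_filterMap]; exact ⟨u, hu, hl⟩, rfl⟩
  · intro l hl
    rw [PopD.X, List.mem_map]
    exact ⟨l, by rw [PopD.XB, List.mem_filterMap]; exact ⟨u, hu, hl⟩, rfl⟩

theorem length_PB_add_XB (D : PopD C κ ι) (sd : Ltr ℕ ℕ → Bool) (S : Sys κ ι) :
    (D.PB sd S).length + (D.XB sd S).length ≤ (D.all sd S).length := by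
  rw [PopD.PB, PopD.XB]
  induction D.all sd S with
  | nil => simp
  | cons b l ih =>
    rcases h : pack b with a | a | a
    · rw [List.filterMap_cons_some (b := a) (by rw [h]; rfl),
        List.filterMap_cons_none (by rw [h]; rfl), List.length_cons, List.length_cons]
      omega
    · rw [List.filterMap_cons_some (b := a) (by rw [h]; rfl),
        List.filterMap_cons_none (by rw [h]; rfl), List.length_cons, List.length_cons]
      omega
    · rw [List.filterMap_cons_none (by rw [h]; rfl),
        List.filterMap_cons_some (b := a) (by rw [h]; rfl), List.length_cons, List.length_cons]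
      omega

theorem sum_map_le {X : Type} (f g : X → ℕ) (l : List X) (h : ∀ a ∈ l, f a ≤ g a) :
    (l.map f).sum ≤ (l.map g).sum := by
  induction l with
  | nil => simp
  | cons a l ih =>
    simp only [List.map_cons, List.sum_cons]
    exact Nat.add_le_add (h a (by simp)) (ih (fun b hb => h b (List.mem_cons_of_mem _ hb)))

theorem sum_map_lt {X : Type} (f g : X → ℕ) (l : List X) (h : ∀ a ∈ l, f a ≤ g a)
    (h' : ∃ a ∈ l, f a < g a) : (l.map f).sum < (l.map g).sum := by
  induction l with
  | nil => simp at h'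
  | cons a l ih =>
    simp only [List.map_cons, List.sum_cons]
    obtain ⟨b, hb, hlt⟩ := h'
    have h1 := h a (by simp)
    have h2 := sum_map_le f g l (fun b hb => h b (List.mem_cons_of_mem _ hb))
    rcases List.mem_cons.1 hb with rfl | hb
    · omega
    · have := ih (fun b hb => h b (List.mem_cons_of_mem _ hb)) ⟨b, hb, hlt⟩
      omega

theorem length_all_le (D : PopD C κ ι) (sd : Ltr ℕ ℕ → Bool) (S : Sys κ ι) :
    (D.all sd S).length ≤
      (S.map (fun e => (D.blocks sd e.1).length + (D.blocks sd e.2).length)).sum := by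
  rw [PopD.all, List.length_flatMap]
  apply sum_map_le
  intro e _
  rw [List.length_append]
  exact Nat.add_le_add (length_lblocks sd D e.1).1 (length_lblocks sd D e.2).1

theorem lblock_of_nmb (z : C → ℕ) (P : List (List ℕ)) (X : List (List (Ltr ℕ ℕ)))
    (b : List (SS C κ ι)) (l : Ltr ℕ ℕ) (h : nmb z P X b = .inl l) :
    lblock b = some (lefts b) ∧ l = nm z P X (pack (lefts b)) := by
  match b, h with
  | [], h => exact ⟨rfl, (Sum.inl.inj h).symm⟩
  | [.inl s], h => exact ⟨rfl, (Sum.inl.inj h).symm⟩
  | [.inr V], h => exact absurd h (by simp [nmb])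
  | .inl s :: c :: b, h => exact ⟨rfl, (Sum.inl.inj h).symm⟩
  | .inr s :: c :: b, h => exact ⟨rfl, (Sum.inl.inj h).symm⟩

theorem nm_small (z : C → ℕ) (P : List (List ℕ)) (X : List (List (Ltr ℕ ℕ))) (B : ℕ)
    (hP : P.length ≤ B) (hX : X.length ≤ B) (u : List (SL C)) (hu : Named z P X u) :
    small B (nm z P X (pack u)) := by
  unfold Named at hu
  cases h : pack u with
  | p l =>
    rw [h] at hu
    exact lt_of_lt_of_le (List.idxOf_lt_length_iff.2 (hu.1 l rfl)) hP
  | q l =>
    rw [h] at hu
    exact lt_of_lt_of_le (List.idxOf_lt_length_iff.2 (hu.1 l rfl)) hP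
  | x w =>
    rw [h] at hu
    exact lt_of_lt_of_le (List.idxOf_lt_length_iff.2 (hu.2 w rfl)) hX

theorem expo_le (z : C → ℕ) (Z : ℕ) (hZ : 1 ≤ Z) (hz : ∀ c, z c < Z) (o : Option C) :
    expo z o ≤ Z := by
  cases o with
  | none => exact hZ
  | some c => exact hz c

theorem length_evp_le (z : C → ℕ) (Z : ℕ) (hZ : 1 ≤ Z) (hz : ∀ c, z c < Z)
    (l : List (ℕ × Option C)) : (evp z l).length ≤ Z * l.length := by
  apply length_flatMap_le_mul
  intro s _
  simpa [evM] using expo_le z Z hZ hz s.2

theorem length_evM_word_le (z : C → ℕ) (Z : ℕ) (hZ : 1 ≤ Z) (hz : ∀ c, z c < Z)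
    (w : List (SL C)) : ((evM z).word w).length ≤ Z * w.length := by
  apply length_flatMap_le_mul
  intro s _
  cases s with
  | p s => simpa [evM, Mor.letter] using expo_le z Z hZ hz s.2
  | q s => simpa [evM, Mor.letter] using expo_le z Z hZ hz s.2
  | x s => simpa [evM, Mor.letter] using expo_le z Z hZ hz s.2

theorem isChain_filterMap_pidx (Lp Lx : ℕ → Bool) (u : List (SL C)) (hp : u.all isP = true)
    (h : u.IsChain (fun s t => grel (side Lp Lx) (bs s) (bs t) = true)) :
    (u.filterMap pidx).IsChain (fun s t => grel Lp s.1 t.1 = true) := by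
  have hu : u = (u.filterMap pidx).map Ltr.p := by
    clear h
    induction u with
    | nil => rfl
    | cons a u ih =>
      rw [List.all_cons, Bool.and_eq_true] at hp
      cases a with
      | p s => rw [List.filterMap_cons_some (f := pidx) (b := s) rfl, List.map_cons, ← ih hp.2]
      | q s => simp [isP] at hp
      | x s => simp [isP] at hp
  rw [hu, List.isChain_map] at h
  refine h.imp ?_
  intro s t hst
  simpa [grel, bs, side] using hst

theorem isChain_filterMap_qidx (Lp Lx : ℕ → Bool) (u : List (SL C)) (hp : u.all isQ = true)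
    (h : u.IsChain (fun s t => grel (side Lp Lx) (bs s) (bs t) = true)) :
    (u.filterMap qidx).reverse.IsChain (fun s t => grel Lp s.1 t.1 = true) := by
  have hu : u = (u.filterMap qidx).map Ltr.q := by
    clear h
    induction u with
    | nil => rfl
    | cons a u ih =>
      rw [List.all_cons, Bool.and_eq_true] at hp
      cases a with
      | q s => rw [List.filterMap_cons_some (f := qidx) (b := s) rfl, List.map_cons, ← ih hp.2]
      | p s => simp [isQ] at hp
      | x s => simp [isQ] at hp
  rw [hu, List.isChain_map] at h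
  rw [List.isChain_reverse]
  refine h.imp ?_
  intro s t hst
  simp only [grel, bs, side, Bool.or_eq_true, decide_eq_true_eq, Bool.and_eq_true,
    Bool.not_eq_true', Bool.not_not, Ltr.q.injEq] at hst ⊢
  rcases hst with h1 | h1
  · exact Or.inl h1.symm
  · exact Or.inr ⟨h1.2, h1.1⟩

theorem length_filterMap_le' {X Y : Type} (f : X → Option Y) (l : List X) :
    (l.filterMap f).length ≤ l.length := by
  exact List.length_filterMap_le f l

theorem step {κ ι : Type} [Fintype κ] [Fintype ι] (S : Sys κ ι) (σ : Mor κ ι ℕ ℕ)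
    (hσ : Solves σ S) (Lp Lx : ℕ → Bool)
    (hcut : ∃ e ∈ S, ∃ (u : List (Ltr ℕ ℕ)) (s t : Ltr ℕ ℕ) (w : List (Ltr ℕ ℕ)),
        σ.val e.1 = u ++ s :: t :: w ∧ grel (side Lp Lx) s t = true)
    (T : ℕ) (hT : ∀ e ∈ S, e.1.length ≤ T ∧ e.2.length ≤ T) (B : ℕ)
    (hB : ctot Lp Lx S + 4 * vtot S + 2 * S.length ≤ B) :
    ∃ S' : Sys κ ι, S'.length = S.length ∧ vtot S' ≤ vtot S ∧ ltot S' ≤ B ∧
      (∀ e ∈ S', (∀ l, Sum.inl l ∈ e.1 → small B l) ∧ (∀ l, Sum.inl l ∈ e.2 → small B l)) ∧
      (∃ σ' : Mor κ ι ℕ ℕ, Solves σ' S' ∧ wt σ' S' < wt σ S) ∧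
      ∀ n, HasSol S' n →
        HasSol S (gfun S.length T (Fintype.card κ + Fintype.card ι) * n) := by
  obtain ⟨D, z, mid, hf⟩ := exists_fits Lp Lx σ
  set sd := side Lp Lx with hsd
  -- number of blocks
  have hblk : ∀ w : List (Sy κ ι), (D.blocks sd w).length ≤ cutc Lp Lx w + 4 * vcount w + 1 :=
    fun w => length_blocks Lp Lx D hf.chl hf.chr w
  have hsumblk : (S.map (fun e => (D.blocks sd e.1).length + (D.blocks sd e.2).length)).sum ≤
      B := by
    refine le_trans ?_ hB
    have : ∀ l : Sys κ ι, (l.map (fun e => (D.blocks sd e.1).length +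
        (D.blocks sd e.2).length)).sum ≤ ctot Lp Lx l + 4 * vtot l + 2 * l.length := by
      intro l
      induction l with
      | nil => simp [ctot, vtot]
      | cons e l ih =>
        simp only [ctot, vtot, List.map_cons, List.sum_cons, List.length_cons] at ih ⊢
        have h1 := hblk e.1
        have h2 := hblk e.2
        omega
    exact this S
  have hallB : (D.all sd S).length ≤ B := (length_all_le D sd S).trans hsumblk
  have hPX := length_PB_add_XB D sd S
  have hPlen : (D.P sd z S).length ≤ B := by rw [PopD.P, List.length_map]; omega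
  have hXlen : (D.X sd z S).length ≤ B := by rw [PopD.X, List.length_map]; omega
  refine ⟨D.news sd z S, by simp [PopD.news], ?_, ?_, ?_, ?_, ?_⟩
  · rw [vtot, vtot, PopD.news, List.map_map]
    apply sum_map_le
    intro e _
    exact Nat.add_le_add (vcount_neww sd D z _ _ e.1) (vcount_neww sd D z _ _ e.2)
  · refine le_trans ?_ hsumblk
    rw [ltot, PopD.news, List.map_map]
    apply sum_map_le
    intro e _
    exact Nat.add_le_add (lcount_neww sd D z _ _ e.1) (lcount_neww sd D z _ _ e.2)
  · intro e' he'
    rw [PopD.news, List.mem_map] at he'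
    obtain ⟨e, he, rfl⟩ := he'
    have key : ∀ w : List (Sy κ ι), (∀ u ∈ (D.blocks sd w).filterMap lblock, u ∈ D.all sd S) →
        ∀ l, Sum.inl l ∈ D.neww sd z (D.P sd z S) (D.X sd z S) w → small B l := by
      intro w hw l hl
      rw [PopD.neww, List.mem_map] at hl
      obtain ⟨b, hb, hbl⟩ := hl
      obtain ⟨h1, h2⟩ := lblock_of_nmb z _ _ b l hbl
      rw [h2]
      exact nm_small z _ _ B hPlen hXlen _
        (named_of_mem_all D sd z S _ (hw _ (List.mem_filterMap.2 ⟨b, hb, h1⟩)))
    exact ⟨key e.1 (mem_all D sd S e he).1, key e.2 (mem_all D sd S e he).2⟩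
  · refine ⟨newsol Lp Lx (D.P sd z S) (D.X sd z S) mid, ?_, ?_⟩
    · intro e' he'
      rw [PopD.news, List.mem_map] at he'
      obtain ⟨e, he, rfl⟩ := he'
      have h1 := newsol_val Lp Lx D z mid σ.letter hf (D.P sd z S) (D.X sd z S) e.1
        (fun u hu => named_of_mem_all D sd z S u ((mem_all D sd S e he).1 u hu))
      have h2 := newsol_val Lp Lx D z mid σ.letter hf (D.P sd z S) (D.X sd z S) e.2
        (fun u hu => named_of_mem_all D sd z S u ((mem_all D sd S e he).2 u hu))
      have h3 := hσ e he
      simp only [Mor.val] at h1 h2 h3 ⊢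
      rw [h1, h2, h3]
    · rw [wt, wt, PopD.news, List.map_map]
      have hle : ∀ e ∈ S, ((newsol Lp Lx (D.P sd z S) (D.X sd z S) mid).val
          (D.neww sd z (D.P sd z S) (D.X sd z S) e.1)).length ≤
          ((σ.val e.1).splitBy (grel sd)).length := by
        intro e he
        rw [newsol_val Lp Lx D z mid σ.letter hf (D.P sd z S) (D.X sd z S) e.1
          (fun u hu => named_of_mem_all D sd z S u ((mem_all D sd S e he).1 u hu))]
        have := length_flatMap_le_mul 1 (fun u => (epsM (D.P sd z S) (D.X sd z S)).letter (pack u))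
          ((σ.val e.1).splitBy (grel sd)) (fun a _ => eps_length_le _ _ _)
        simpa [Mor.val] using this
      apply sum_map_lt
      · intro e he
        exact (hle e he).trans (length_splitBy_le _ _)
      · obtain ⟨e, he, u, s, t, w, h1, h2⟩ := hcut
        refine ⟨e, he, lt_of_le_of_lt (hle e he) ?_⟩
        rw [h1]
        exact length_splitBy_lt _ u s t w h2
  · intro n hn
    obtain ⟨τ, hτ, hw⟩ := hn
    have hpop : ∀ w : List (Sy κ ι), w.length ≤ T → (D.popw w).length ≤ 5 * T := fun w hw' =>
      (length_popw D hf.lenl hf.lenr w).trans (Nat.mul_le_mul_left 5 hw')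
    have hall : ∀ u ∈ D.all sd S, u ≠ [] ∧ u.length ≤ 5 * T ∧
        u.IsChain (fun s t => grel sd (bs s) (bs t) = true) := by
      intro u hu
      rw [PopD.all, List.mem_flatMap] at hu
      obtain ⟨e, he, hu⟩ := hu
      rw [List.mem_append] at hu
      rcases hu with hu | hu
      · obtain ⟨h1, h2, h3⟩ := (length_lblocks sd D e.1).2.2 u hu
        exact ⟨h1, h2.trans (hpop e.1 (hT e he).1), h3⟩
      · obtain ⟨h1, h2, h3⟩ := (length_lblocks sd D e.2).2.2 u hu
        exact ⟨h1, h2.trans (hpop e.2 (hT e he).2), h3⟩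
    have hallR : (D.all sd S).length ≤ 10 * S.length * T := by
      refine (length_all_le D sd S).trans ?_
      have : ∀ l : Sys κ ι, (∀ e ∈ l, e.1.length ≤ T ∧ e.2.length ≤ T) →
          (l.map (fun e => (D.blocks sd e.1).length + (D.blocks sd e.2).length)).sum ≤
            10 * l.length * T := by
        intro l hl
        induction l with
        | nil => simp
        | cons e l ih =>
          simp only [List.map_cons, List.sum_cons, List.length_cons]
          have h1 := (length_lblocks sd D e.1).2.1.trans (hpop e.1 (hl e (by simp)).1)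
          have h2 := (length_lblocks sd D e.2).2.1.trans (hpop e.2 (hl e (by simp)).2)
          have h3 := ih (fun a ha => hl a (List.mem_cons_of_mem _ ha))
          nlinarith
      exact this S hT
    have hPBm : ∀ l ∈ D.PB sd S, l.length ≤ 5 * T ∧
        l.IsChain (fun s t => grel Lp s.1 t.1 = true) := by
      intro l hl
      rw [PopD.PB, List.mem_filterMap] at hl
      obtain ⟨u, hu, hl⟩ := hl
      obtain ⟨h1, h2, h3⟩ := hall u hu
      unfold pack at hl
      split_ifs at hl with c1 c2
      · simp only [getPQ, Option.some.injEq] at hl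
        subst hl
        exact ⟨(length_filterMap_le' _ _).trans h2, isChain_filterMap_pidx Lp Lx u c1 h3⟩
      · simp only [getPQ, Option.some.injEq] at hl
        subst hl
        refine ⟨?_, isChain_filterMap_qidx Lp Lx u c2 h3⟩
        rw [List.length_reverse]
        exact (length_filterMap_le' _ _).trans h2
      · simp [getPQ] at hl
    have hXBm : ∀ w ∈ D.XB sd S, w.length ≤ 5 * T ∧
        w.IsChain (fun s t => grel (side Lp Lx) (bs s) (bs t) = true) := by
      intro w hw'
      rw [PopD.XB, List.mem_filterMap] at hw'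
      obtain ⟨u, hu, hl⟩ := hw'
      obtain ⟨h1, h2, h3⟩ := hall u hu
      unfold pack at hl
      split_ifs at hl with c1 c2
      · simp [getX] at hl
      · simp [getX] at hl
      · simp only [getX, Option.some.injEq] at hl
        subst hl
        exact ⟨h2, h3⟩
    obtain ⟨z', hz1, hz2, hz3⟩ := exists_small Lp Lx (D.PB sd S) (D.XB sd S) z (5 * T)
      (10 * S.length * T) hPBm hXBm (hPX.trans hallR)
    set Z := 2 ^ ((2 * (5 * T * (Fintype.card ((κ ⊕ ι) × Fin 4) + 1)) + 1) ^
      (10 * S.length * T * (5 * T))) with hZ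
    have hZ1 : 1 ≤ Z := Nat.one_le_two_pow
    have hg : ∀ l, ((etaM z' (D.PB sd S) (D.XB sd S)).letter l).length ≤ 5 * T * Z := by
      have hPB : ∀ k, ((D.PB sd S).getD k []).length ≤ 5 * T := by
        intro k
        rcases lt_or_ge k (D.PB sd S).length with hk | hk
        · rw [List.getD_eq_getElem _ _ hk]
          exact (hPBm _ (List.getElem_mem hk)).1
        · rw [List.getD_eq_default _ _ hk]
          simp
      have hXB : ∀ k, ((D.XB sd S).getD k []).length ≤ 5 * T := by
        intro k
        rcases lt_or_ge k (D.XB sd S).length with hk | hk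
        · rw [List.getD_eq_getElem _ _ hk]
          exact (hXBm _ (List.getElem_mem hk)).1
        · rw [List.getD_eq_default _ _ hk]
          simp
      intro l
      cases l with
      | p k =>
        simp only [Mor.letter, etaM, List.length_map]
        refine (length_evp_le z' Z hZ1 hz3 _).trans ?_
        rw [mul_comm]
        exact Nat.mul_le_mul_right _ (hPB k)
      | q k =>
        simp only [Mor.letter, etaM, List.length_map, List.length_reverse]
        refine (length_evp_le z' Z hZ1 hz3 _).trans ?_
        rw [mul_comm]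
        exact Nat.mul_le_mul_right _ (hPB k)
      | x k =>
        simp only [Mor.letter, etaM]
        refine (length_evM_word_le z' Z hZ1 hz3 _).trans ?_
        rw [mul_comm]
        exact Nat.mul_le_mul_right _ (hXB k)
    have hcard : Fintype.card ((κ ⊕ ι) × Fin 4) = 4 * (Fintype.card κ + Fintype.card ι) := by
      simp [Fintype.card_prod, Fintype.card_sum, mul_comm]
    have hG : 5 * T * Z = gfun S.length T (Fintype.card κ + Fintype.card ι) := by
      rw [hZ, gfun, hcard]
    have hF : List.Forall₂ (fun e e' =>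
        etas (etaM z' (D.PB sd S) (D.XB sd S)) e'.1 = evs z' (D.popw e.1) ∧
        etas (etaM z' (D.PB sd S) (D.XB sd S)) e'.2 = evs z' (D.popw e.2))
        S (D.news sd z S) := by
      rw [PopD.news, List.forall₂_map_right_iff, List.forall₂_same]
      intro e he
      exact ⟨etas_neww sd D z z' S hz1 hz2 e.1 (mem_all D sd S e he).1,
        etas_neww sd D z z' S hz1 hz2 e.2 (mem_all D sd S e he).2⟩
    obtain ⟨h1, h2⟩ := sound D z' (etaM z' (D.PB sd S) (D.XB sd S)) S (D.news sd z S) hF τ hτ
      (5 * T * Z) hg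
    refine ⟨_, h1, h2.trans ?_⟩
    rw [← hG]
    exact Nat.mul_le_mul_left _ hw

end Pool.Agent.Lib.MP_ea09ae_al
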