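import Pool.Agent.Lib.MP_ea09ae_al.Defs

/-!
# Symbolic words, popping, blocks and names: definitions
-/

namespace Pool.Agent.Lib.MP_ea09ae_al

/-- Symbolic letters: a letter together with an optional exponent parameter. -/
abbrev SL (C : Type) : Type := Ltr (ℕ × Option C) (ℕ × Option C)

/-- Evaluation of symbolic letters at the exponents `z`. -/
def evM {C : Type} (z : C → ℕ) : Mor (ℕ × Option C) (ℕ × Option C) ℕ ℕ where
  f := fun s => List.replicate (expo z s.2) s.1
  g := fun s => List.replicate (expo z s.2) (.x s.1)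

/-- the letter below a symbolic letter -/
def bs {C : Type} : SL C → Ltr ℕ ℕ
  | .p s => .p s.1
  | .q s => .q s.1
  | .x s => .x s.1

/-- Symbolic symbols: a symbolic letter or a variable. -/
abbrev SS (C κ ι : Type) : Type := SL C ⊕ Ltr κ ι

/-- Popping data: what is taken off the two ends of the value of each variable, and whether the
variable is kept. -/
structure PopD (C κ ι : Type) : Type where
  kp : κ → Bool
  kx : ι → Bool
  ap : κ → List (ℕ × Option C)
  bp : κ → List (ℕ × Option C)
  ax : ι → List (SL C)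
  bx : ι → List (SL C)

variable {C κ ι : Type}

def PopD.keep (D : PopD C κ ι) : Ltr κ ι → Bool
  | .p k => D.kp k
  | .q k => D.kp k
  | .x i => D.kx i

def PopD.pre (D : PopD C κ ι) : Ltr κ ι → List (SL C)
  | .p k => (D.ap k).map .p
  | .q k => (D.bp k).reverse.map .q
  | .x i => D.ax i

def PopD.suf (D : PopD C κ ι) : Ltr κ ι → List (SL C)
  | .p k => (D.bp k).map .p
  | .q k => (D.ap k).reverse.map .q
  | .x i => D.bx i

def PopD.pop (D : PopD C κ ι) (V : Ltr κ ι) : List (SS C κ ι) :=
  (D.pre V).map .inl ++ (if D.keep V = true then [.inr V] else []) ++ (D.suf V).map .inl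

def lift0 : Ltr ℕ ℕ → SL C
  | .p a => .p (a, none)
  | .q a => .q (a, none)
  | .x a => .x (a, none)

/-- the popped word -/
def PopD.popw (D : PopD C κ ι) (w : List (Sy κ ι)) : List (SS C κ ι) :=
  w.flatMap (Sum.elim (fun l => [.inl (lift0 l)]) D.pop)

/-- evaluation of the exponents in a symbolic word with variables -/
def evs (z : C → ℕ) (w : List (SS C κ ι)) : List (Sy κ ι) :=
  w.flatMap (Sum.elim (fun s => ((evM z).letter s).map .inl) (fun V => [.inr V]))

/-- the relation along which symbolic words are split -/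
def srel (sd : Ltr ℕ ℕ → Bool) : SS C κ ι → SS C κ ι → Bool
  | .inl s, .inl t => grel sd (bs s) (bs t)
  | _, _ => false

/-- The blocks of the popped word. -/
def PopD.blocks (D : PopD C κ ι) (sd : Ltr ℕ ℕ → Bool) (w : List (Sy κ ι)) :
    List (List (SS C κ ι)) :=
  (D.popw w).splitBy (srel sd)

/-- `D`, `z`, `mid` describe the values `σ`. -/
structure Fits (sd : Ltr ℕ ℕ → Bool) (D : PopD C κ ι) (z : C → ℕ)
    (mid σ : Ltr κ ι → List (Ltr ℕ ℕ)) : Prop where
  val : ∀ V, σ V = (evM z).word (D.pre V) ++ mid V ++ (evM z).word (D.suf V)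
  no : ∀ V, D.keep V = false → mid V = []
  yes : ∀ V, D.keep V = true → mid V ≠ [] ∧ D.pre V ≠ [] ∧ D.suf V ≠ []
  cutl : ∀ V, D.keep V = true → ∀ s ∈ (D.pre V).getLast?, ∀ t ∈ (mid V).head?,
    grel sd (bs s) t = false
  cutr : ∀ V, D.keep V = true → ∀ s ∈ (mid V).getLast?, ∀ t ∈ (D.suf V).head?,
    grel sd s (bs t) = false
  chl : ∀ V, (D.pre V).IsChain (fun s t => grel sd (bs s) (bs t) = true)
  chr : ∀ V, (D.suf V).IsChain (fun s t => grel sd (bs s) (bs t) = true)
  lenl : ∀ V, (D.pre V).length ≤ 2
  lenr : ∀ V, (D.suf V).length ≤ 2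

/-! ### packing a block into one letter -/

def isP {α β : Type} : Ltr α β → Bool
  | .p _ => true
  | _ => false

def isQ {α β : Type} : Ltr α β → Bool
  | .q _ => true
  | _ => false

def pidx {α β : Type} : Ltr α β → Option α
  | .p a => some a
  | _ => none

def qidx {α β : Type} : Ltr α β → Option α
  | .q a => some a
  | _ => none

/-- A word becomes one letter of the new alphabet; words in the letters `p` and words in the
letters `q` give paired letters. -/
def pack {α β : Type} (w : List (Ltr α β)) : Ltr (List α) (List (Ltr α β)) :=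
  if w.all isP = true then .p (w.filterMap pidx)
  else if w.all isQ = true then .q (w.filterMap qidx).reverse
  else .x w

/-- the letters in a list of symbolic symbols -/
def lefts (b : List (SS C κ ι)) : List (SL C) := b.filterMap Sum.getLeft?

/-- evaluation of a word of indices -/
def evp (z : C → ℕ) (l : List (ℕ × Option C)) : List ℕ := l.flatMap (evM z).f

/-- What a block contributes to the runs of the value. -/
def Tb (sd : Ltr ℕ ℕ → Bool) (z : C → ℕ) (mid : Ltr κ ι → List (Ltr ℕ ℕ)) :
    List (SS C κ ι) → List (List (Ltr ℕ ℕ))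
  | [.inr V] => (mid V).splitBy (grel sd)
  | b => [(evM z).word (lefts b)]

/-- `some` of the letters for a letter block, `none` for a variable. -/
def lblock : List (SS C κ ι) → Option (List (SL C))
  | [.inr _] => none
  | b => some (lefts b)

/-- all letter blocks of a system -/
def PopD.all (D : PopD C κ ι) (sd : Ltr ℕ ℕ → Bool) (S : Sys κ ι) : List (List (SL C)) :=
  S.flatMap (fun e => (D.blocks sd e.1).filterMap lblock ++ (D.blocks sd e.2).filterMap lblock)

def getPQ : Ltr (List (ℕ × Option C)) (List (SL C)) → Option (List (ℕ × Option C))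
  | .p l => some l
  | .q l => some l
  | .x _ => none

def getX : Ltr (List (ℕ × Option C)) (List (SL C)) → Option (List (SL C))
  | .x w => some w
  | _ => none

/-- the paired blocks of a system -/
def PopD.PB (D : PopD C κ ι) (sd : Ltr ℕ ℕ → Bool) (S : Sys κ ι) : List (List (ℕ × Option C)) :=
  (D.all sd S).filterMap (fun b => getPQ (pack b))

/-- the unpaired blocks of a system -/
def PopD.XB (D : PopD C κ ι) (sd : Ltr ℕ ℕ → Bool) (S : Sys κ ι) : List (List (SL C)) :=
  (D.all sd S).filterMap (fun b => getX (pack b))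

/-- The name of a packed block, for given lists of values of blocks. -/
def nm (z : C → ℕ) (P : List (List ℕ)) (X : List (List (Ltr ℕ ℕ))) :
    Ltr (List (ℕ × Option C)) (List (SL C)) → Ltr ℕ ℕ
  | .p l => .p (P.idxOf (evp z l))
  | .q l => .q (P.idxOf (evp z l))
  | .x w => .x (X.idxOf ((evM z).word w))

/-- The symbol of the new equation for a block. -/
def nmb (z : C → ℕ) (P : List (List ℕ)) (X : List (List (Ltr ℕ ℕ))) :
    List (SS C κ ι) → Sy κ ι
  | [.inr V] => .inr V
  | b => .inl (nm z P X (pack (lefts b)))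

/-- The new word. -/
def PopD.neww (D : PopD C κ ι) (sd : Ltr ℕ ℕ → Bool) (z : C → ℕ) (P : List (List ℕ))
    (X : List (List (Ltr ℕ ℕ))) (w : List (Sy κ ι)) : List (Sy κ ι) :=
  (D.blocks sd w).map (nmb z P X)

/-- The values of the paired blocks. -/
def PopD.P (D : PopD C κ ι) (sd : Ltr ℕ ℕ → Bool) (z : C → ℕ) (S : Sys κ ι) :
    List (List ℕ) := (D.PB sd S).map (evp z)

/-- The values of the unpaired blocks. -/
def PopD.X (D : PopD C κ ι) (sd : Ltr ℕ ℕ → Bool) (z : C → ℕ) (S : Sys κ ι) :
    List (List (Ltr ℕ ℕ)) := (D.XB sd S).map (evM z).word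

/-- The new system. -/
def PopD.news (D : PopD C κ ι) (sd : Ltr ℕ ℕ → Bool) (z : C → ℕ) (S : Sys κ ι) : Sys κ ι :=
  S.map (fun e => (D.neww sd z (D.P sd z S) (D.X sd z S) e.1,
    D.neww sd z (D.P sd z S) (D.X sd z S) e.2))

/-- Renaming of runs: runs without a name are erased. -/
def epsM (P : List (List ℕ)) (X : List (List (Ltr ℕ ℕ))) :
    Mor (List ℕ) (List (Ltr ℕ ℕ)) ℕ ℕ where
  f := fun l => if l ∈ P then [P.idxOf l] else []
  g := fun w => if w ∈ X then [.x (X.idxOf w)] else []

/-- The new solution. -/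
def newsol (Lp Lx : ℕ → Bool) (P : List (List ℕ)) (X : List (List (Ltr ℕ ℕ)))
    (mid : Mor κ ι ℕ ℕ) : Mor κ ι ℕ ℕ where
  f := fun k => ((mid.f k).splitBy (grel Lp)).flatMap (epsM P X).f
  g := fun i => ((mid.g i).splitBy (grel (side Lp Lx))).flatMap (fun w => (epsM P X).letter (pack w))

/-- Expansion of the new letters at the exponents `z`. -/
def etaM (z : C → ℕ) (PB : List (List (ℕ × Option C))) (XB : List (List (SL C))) :
    Mor ℕ ℕ ℕ ℕ where
  f := fun k => evp z (PB.getD k [])
  g := fun k => (evM z).word (XB.getD k [])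

/-- expansion of words with variables -/
def etas (η : Mor ℕ ℕ ℕ ℕ) (w : List (Sy κ ι)) : List (Sy κ ι) :=
  w.flatMap (Sum.elim (fun l => (η.letter l).map .inl) (fun V => [.inr V]))

/-- The solution of the old system obtained from a solution `τ` of the new one. -/
def backsol (D : PopD C κ ι) (z : C → ℕ) (η : Mor ℕ ℕ ℕ ℕ) (τ : Mor κ ι ℕ ℕ) : Mor κ ι ℕ ℕ where
  f := fun k => evp z (D.ap k) ++ (if D.kp k = true then (τ.f k).flatMap η.f else []) ++
    evp z (D.bp k)
  g := fun i => (evM z).word (D.ax i) ++ (if D.kx i = true then η.word (τ.g i) else []) ++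
    (evM z).word (D.bx i)

/-- The bound for the length of an expanded letter. -/
def gfun (N T c : ℕ) : ℕ := 5 * T * 2 ^ ((2 * (5 * T * (4 * c + 1)) + 1) ^ (10 * N * T * (5 * T)))

end Pool.Agent.Lib.MP_ea09ae_al
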