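import Pool.Agent.Lib.MP_ea09ae_al.Defs

/-!
# The monoid `⟨a, b, c ∣ abc = 1⟩` and token words

Tokens: `p 0 = a`, `p 1 = ab`, `q 0 = bc`, `q 1 = c`, `x 0 = b`.
-/

namespace Pool.Agent.Lib.MP_ea09ae_al

/-- The defining relation `abc = 1` (with `a = 0`, `b = 1`, `c = 2`). -/
def abcRel : FreeMonoid (Fin 3) → FreeMonoid (Fin 3) → Prop := fun u w =>
  u = FreeMonoid.of 0 * FreeMonoid.of 1 * FreeMonoid.of 2 ∧ w = 1

/-- The monoid `⟨a, b, c ∣ abc = 1⟩`. -/
abbrev M2 : Type := PresentedMonoid abcRel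

/-- generators -/
def gen (i : Fin 3) : M2 := PresentedMonoid.of abcRel i

theorem gen_rel : gen 0 * gen 1 * gen 2 = 1 := by
  have h := PresentedMonoid.mk_eq_mk_of_rel (rels := abcRel)
    (x := FreeMonoid.of 0 * FreeMonoid.of 1 * FreeMonoid.of 2) (y := 1) ⟨rfl, rfl⟩
  rw [map_mul, map_mul, map_one] at h
  exact h

/-- The value of a token; the other letters have value `1`. -/
def mval : Ltr ℕ ℕ → M2
  | .p 0 => gen 0
  | .p 1 => gen 0 * gen 1
  | .q 0 => gen 1 * gen 2
  | .q 1 => gen 2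
  | .x 0 => gen 1
  | _ => 1

/-- The value of a word in tokens. -/
def mword (w : List (Ltr ℕ ℕ)) : M2 := (w.map mval).prod

theorem mword_nil : mword [] = 1 := rfl

theorem mword_append (u v : List (Ltr ℕ ℕ)) : mword (u ++ v) = mword u * mword v := by
  simp [mword]

theorem mword_cons (s : Ltr ℕ ℕ) (v : List (Ltr ℕ ℕ)) : mword (s :: v) = mval s * mword v := by
  simp [mword]

theorem mval_mirror (k : ℕ) : mval (.p k) * mval (.q k) = 1 := by
  match k with
  | 0 =>
    change gen 0 * (gen 1 * gen 2) = 1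
    rw [← mul_assoc, gen_rel]
  | 1 =>
    change gen 0 * gen 1 * gen 2 = 1
    exact gen_rel
  | k + 2 =>
    change (1 : M2) * 1 = 1
    exact mul_one 1

theorem mword_mirror (w : List ℕ) : mword (w.map .p) * mword (w.reverse.map .q) = 1 := by
  induction w with
  | nil => simp [mword]
  | cons k w ih =>
    rw [List.map_cons, List.reverse_cons, List.map_append, mword_cons, mword_append,
      List.map_singleton, mword_cons, mword_nil, mul_one]
    calc mval (.p k) * mword (w.map .p) * (mword (w.reverse.map .q) * mval (.q k))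
        = mval (.p k) * (mword (w.map .p) * mword (w.reverse.map .q)) * mval (.q k) := by
          simp only [mul_assoc]
      _ = 1 := by rw [ih, mul_one, mval_mirror]

/-! ### the stack machine -/

/-- the action of a generator on a stack (top of the stack = head of the list) -/
def tpush : Fin 3 → List (Ltr ℕ ℕ) → List (Ltr ℕ ℕ)
  | 0, s => .p 0 :: s
  | 1, .p 0 :: s => .p 1 :: s
  | 1, s => .x 0 :: s
  | 2, .p 1 :: s => s
  | 2, .x 0 :: s => .q 0 :: s
  | 2, s => .q 1 :: s

/-- the action of a generator, as an element of the opposite of the monoid of maps -/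
def tpushE (i : Fin 3) : (Function.End (List (Ltr ℕ ℕ)))ᵐᵒᵖ :=
  MulOpposite.op (tpush i : Function.End (List (Ltr ℕ ℕ)))

/-- the action of the monoid on stacks (from the right) -/
def act : M2 →* (Function.End (List (Ltr ℕ ℕ)))ᵐᵒᵖ :=
  PresentedMonoid.lift (M := (Function.End (List (Ltr ℕ ℕ)))ᵐᵒᵖ) tpushE (by
    rintro a b ⟨rfl, rfl⟩
    rw [map_mul, map_mul, map_one, FreeMonoid.lift_eval_of, FreeMonoid.lift_eval_of,
      FreeMonoid.lift_eval_of]
    apply MulOpposite.unop_injective
    funext s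
    rfl)

/-- apply an element of the monoid to a stack -/
def run (m : M2) (s : List (Ltr ℕ ℕ)) : List (Ltr ℕ ℕ) := (act m).unop s

theorem run_one (s : List (Ltr ℕ ℕ)) : run 1 s = s := by
  unfold run
  rw [map_one]
  rfl

theorem run_mul (m m' : M2) (s : List (Ltr ℕ ℕ)) : run (m * m') s = run m' (run m s) := by
  unfold run
  rw [map_mul]
  rfl

theorem run_gen (i : Fin 3) (s : List (Ltr ℕ ℕ)) : run (gen i) s = tpush i s := rfl

/-- the letters which occur in canonical words -/
def tOk : Ltr ℕ ℕ → Prop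
  | .p k => k < 2
  | .q k => k < 2
  | .x k => k = 0

/-- the adjacent pairs which do not occur in canonical words -/
def tBad (s t : Ltr ℕ ℕ) : Prop :=
  (s = .p 0 ∧ t = .x 0) ∨ (s = .p 0 ∧ t = .q 0) ∨ (s = .p 1 ∧ t = .q 1) ∨ (s = .x 0 ∧ t = .q 1)

/-- canonical words -/
def tCan (w : List (Ltr ℕ ℕ)) : Prop := w.IsChain (fun s t => ¬ tBad s t) ∧ ∀ l ∈ w, tOk l

theorem run_mval {t : Ltr ℕ ℕ} (ht : tOk t) (s : List (Ltr ℕ ℕ))
    (h : ∀ l ∈ s.head?, ¬ tBad l t) : run (mval t) s = t :: s := by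
  match t, ht with
  | .p 0, _ => rfl
  | .p 1, _ =>
    change run (gen 0 * gen 1) s = _
    rw [run_mul, run_gen, run_gen]
    rfl
  | .p (k + 2), ht => exact absurd ht (by simp [tOk])
  | .q 0, _ =>
    change run (gen 1 * gen 2) s = _
    rw [run_mul, run_gen, run_gen]
    match s, h with
    | [], _ => rfl
    | .p 0 :: s, h => exact absurd (Or.inr (Or.inl ⟨rfl, rfl⟩)) (h (.p 0) rfl)
    | .p (k + 1) :: s, _ => rfl
    | .q k :: s, _ => rfl
    | .x k :: s, _ => rfl
  | .q 1, _ =>
    change run (gen 2) s = _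
    rw [run_gen]
    match s, h with
    | [], _ => rfl
    | .p 0 :: s, _ => rfl
    | .p 1 :: s, h => exact absurd (Or.inr (Or.inr (Or.inl ⟨rfl, rfl⟩))) (h (.p 1) rfl)
    | .p (k + 2) :: s, _ => rfl
    | .q k :: s, _ => rfl
    | .x 0 :: s, h => exact absurd (Or.inr (Or.inr (Or.inr ⟨rfl, rfl⟩))) (h (.x 0) rfl)
    | .x (k + 1) :: s, _ => rfl
  | .q (k + 2), ht => exact absurd ht (by simp [tOk])
  | .x 0, _ =>
    change run (gen 1) s = _
    rw [run_gen]
    match s, h with
    | [], _ => rfl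
    | .p 0 :: s, h => exact absurd (Or.inl ⟨rfl, rfl⟩) (h (.p 0) rfl)
    | .p (k + 1) :: s, _ => rfl
    | .q k :: s, _ => rfl
    | .x k :: s, _ => rfl
  | .x (k + 1), ht => exact absurd ht (by simp [tOk])

theorem tCan_append {u v : List (Ltr ℕ ℕ)} : tCan (u ++ v) ↔
    tCan u ∧ tCan v ∧ ∀ s ∈ u.getLast?, ∀ t ∈ v.head?, ¬ tBad s t := by
  unfold tCan
  rw [List.isChain_append]
  simp only [List.mem_append]
  constructor
  · rintro ⟨⟨h1, h2, h3⟩, h4⟩
    exact ⟨⟨h1, fun l hl => h4 l (Or.inl hl)⟩, ⟨h2, fun l hl => h4 l (Or.inr hl)⟩, h3⟩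
  · rintro ⟨⟨h1, h2⟩, ⟨h3, h4⟩, h5⟩
    exact ⟨⟨h1, h3, h5⟩, fun l hl => hl.elim (h2 l) (h4 l)⟩

theorem run_mword {w : List (Ltr ℕ ℕ)} (hw : tCan w) : run (mword w) [] = w.reverse := by
  induction w using List.reverseRecOn with
  | nil => rw [mword_nil, run_one]; rfl
  | append_singleton w t ih =>
    obtain ⟨h1, h2, h3⟩ := tCan_append.1 hw
    rw [mword_append, run_mul, ih h1, mword_cons, mword_nil, mul_one,
      run_mval (h2.2 t (List.mem_singleton_self t)), List.reverse_append]
    · rfl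
    · intro l hl
      rw [List.head?_reverse] at hl
      exact h3 l hl t rfl

theorem tCan_unique {w w' : List (Ltr ℕ ℕ)} (hw : tCan w) (hw' : tCan w')
    (h : mword w = mword w') : w = w' := by
  have h1 := run_mword hw
  rw [h, run_mword hw'] at h1
  exact (List.reverse_injective h1).symm

theorem tCan_nil : tCan [] := ⟨List.IsChain.nil, by simp⟩

theorem tCan_singleton {t : Ltr ℕ ℕ} (ht : tOk t) : tCan [t] :=
  ⟨List.IsChain.singleton t, by simpa using ht⟩

theorem not_tBad_p (s : Ltr ℕ ℕ) (k : ℕ) : ¬ tBad s (.p k) := by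
  rintro (⟨-, h⟩ | ⟨-, h⟩ | ⟨-, h⟩ | ⟨-, h⟩) <;> cases h

theorem not_tBad_q (t : Ltr ℕ ℕ) (k : ℕ) : ¬ tBad (.q k) t := by
  rintro (⟨h, -⟩ | ⟨h, -⟩ | ⟨h, -⟩ | ⟨h, -⟩) <;> cases h

/-- the product of two canonical words -/
theorem tok_mul (X : List (Ltr ℕ ℕ)) : ∀ Y : List (Ltr ℕ ℕ), tCan X → tCan Y →
    ∃ Z : List (Ltr ℕ ℕ), tCan Z ∧ mword Z = mword X * mword Y ∧
    ∃ (u v : List (Ltr ℕ ℕ)) (w : List ℕ),
      (X = u ++ w.map .p ∧ Y = w.reverse.map .q ++ v ∧ Z = u ++ v) ∨
      (X = u ++ .p 0 :: w.map .p ∧ Y = w.reverse.map .q ++ .x 0 :: v ∧ Z = u ++ .p 1 :: v) ∨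
      (X = u ++ .x 0 :: w.map .p ∧ Y = w.reverse.map .q ++ .q 1 :: v ∧ Z = u ++ .q 0 :: v) := by
  induction X using List.reverseRecOn with
  | nil =>
    intro Y _ hY
    exact ⟨Y, hY, by rw [mword_nil, one_mul], [], Y, [], Or.inl ⟨rfl, rfl, rfl⟩⟩
  | append_singleton X s ih =>
    intro Y hX hY
    obtain ⟨hX1, hs, hXs⟩ := tCan_append.1 hX
    have hsok : tOk s := hs.2 s (List.mem_singleton_self s)
    match Y, hY with
    | [], _ =>
      exact ⟨X ++ [s], hX, by rw [mword_nil, mul_one], X ++ [s], [], [],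
        Or.inl ⟨by simp, rfl, by simp⟩⟩
    | t :: Y, hY =>
      have hY' : tCan ([t] ++ Y) := hY
      obtain ⟨ht, hY1, htY⟩ := tCan_append.1 hY'
      have htok : tOk t := ht.2 t (List.mem_singleton_self t)
      by_cases hcan : ∃ k : ℕ, s = .p k ∧ t = .q k
      · -- cancellation
        obtain ⟨k, rfl, rfl⟩ := hcan
        obtain ⟨Z, hZ, hZm, u, v, w, huvw⟩ := ih Y hX1 hY1
        refine ⟨Z, hZ, ?_, u, v, w ++ [k], ?_⟩
        · rw [hZm, mword_append, mword_cons, mword_nil, mul_one, mword_cons]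
          calc mword X * mword Y = mword X * (mval (.p k) * mval (.q k)) * mword Y := by
                rw [mval_mirror, mul_one]
            _ = _ := by simp only [mul_assoc]
        · rcases huvw with ⟨h1, h2, h3⟩ | ⟨h1, h2, h3⟩ | ⟨h1, h2, h3⟩
          · left
            refine ⟨?_, ?_, h3⟩
            · rw [h1]; simp
            · rw [h2]; simp
          · right; left
            refine ⟨?_, ?_, h3⟩
            · rw [h1]; simp
            · rw [h2]; simp
          · right; right
            refine ⟨?_, ?_, h3⟩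
            · rw [h1]; simp
            · rw [h2]; simp
      by_cases h1 : s = .p 0 ∧ t = .x 0
      · obtain ⟨rfl, rfl⟩ := h1
        refine ⟨X ++ .p 1 :: Y, ?_, ?_, X, Y, [], Or.inr (Or.inl ⟨rfl, rfl, rfl⟩)⟩
        · refine tCan_append.2 ⟨hX1, ?_, ?_⟩
          · refine (tCan_append (u := [.p 1])).2 ⟨tCan_singleton (by simp [tOk]), hY1, ?_⟩
            intro l hl t ht hb
            have hl' : l = .p 1 := by simpa using hl.symm
            subst hl'
            rcases hb with ⟨h, -⟩ | ⟨h, -⟩ | ⟨-, h⟩ | ⟨h, -⟩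
            · cases h
            · cases h
            · subst h
              exact htY (.x 0) rfl (.q 1) ht (Or.inr (Or.inr (Or.inr ⟨rfl, rfl⟩)))
            · cases h
          · intro l _ t ht
            have ht' : t = .p 1 := by simpa using ht.symm
            subst ht'
            exact not_tBad_p l 1
        · rw [mword_append, mword_append, mword_cons, mword_cons, mword_cons, mword_nil, mul_one]
          change mword X * (gen 0 * gen 1 * mword Y) = mword X * gen 0 * (gen 1 * mword Y)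
          simp only [mul_assoc]
      by_cases h2 : s = .x 0 ∧ t = .q 1
      · obtain ⟨rfl, rfl⟩ := h2
        refine ⟨X ++ .q 0 :: Y, ?_, ?_, X, Y, [], Or.inr (Or.inr ⟨rfl, rfl, rfl⟩)⟩
        · refine tCan_append.2 ⟨hX1, ?_, ?_⟩
          · refine (tCan_append (u := [.q 0])).2 ⟨tCan_singleton (by simp [tOk]), hY1, ?_⟩
            intro l hl t _
            have hl' : l = .q 0 := by simpa using hl.symm
            subst hl'
            exact not_tBad_q t 0
          · intro l hl t ht hb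
            have ht' : t = .q 0 := by simpa using ht.symm
            subst ht'
            rcases hb with ⟨-, h⟩ | ⟨h, -⟩ | ⟨-, h⟩ | ⟨-, h⟩
            · cases h
            · subst h
              exact hXs (.p 0) hl (.x 0) rfl (Or.inl ⟨rfl, rfl⟩)
            · cases h
            · cases h
        · rw [mword_append, mword_append, mword_cons, mword_cons, mword_cons, mword_nil, mul_one]
          change mword X * (gen 1 * gen 2 * mword Y) = mword X * gen 1 * (gen 2 * mword Y)
          simp only [mul_assoc]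
      · -- nothing happens
        refine ⟨(X ++ [s]) ++ t :: Y, tCan_append.2 ⟨hX, hY, ?_⟩, mword_append _ _,
          X ++ [s], t :: Y, [], Or.inl ⟨by simp, rfl, rfl⟩⟩
        intro l hl r hr hb
        have hl' : l = s := by simpa using hl.symm
        have hr' : r = t := by simpa using hr.symm
        subst hl' hr'
        rcases hb with h | h | h | h
        · exact h1 h
        · exact hcan ⟨0, h⟩
        · exact hcan ⟨1, h⟩
        · exact h2 h

theorem exists_tCan (m : M2) : ∃ w, tCan w ∧ mword w = m := by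
  have hm : m ∈ Submonoid.closure (Set.range (PresentedMonoid.of abcRel)) := by
    rw [PresentedMonoid.closure_range_of]
    exact Submonoid.mem_top m
  induction hm using Submonoid.closure_induction with
  | mem x hx =>
    obtain ⟨i, rfl⟩ := hx
    match i with
    | 0 => exact ⟨[.p 0], tCan_singleton (by simp [tOk]), by
        rw [mword_cons, mword_nil, mul_one]; rfl⟩
    | 1 => exact ⟨[.x 0], tCan_singleton (by simp [tOk]), by
        rw [mword_cons, mword_nil, mul_one]; rfl⟩
    | 2 => exact ⟨[.q 1], tCan_singleton (by simp [tOk]), by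
        rw [mword_cons, mword_nil, mul_one]; rfl⟩
  | one => exact ⟨[], tCan_nil, mword_nil⟩
  | mul x y _ _ hx hy =>
    obtain ⟨X, hX, rfl⟩ := hx
    obtain ⟨Y, hY, rfl⟩ := hy
    obtain ⟨Z, hZ, hZm, -⟩ := tok_mul X Y hX hY
    exact ⟨Z, hZ, hZm⟩

/-- Every element has a canonical token word, compatible with products. -/
theorem exists_tok : ∃ tok : M2 → List (Ltr ℕ ℕ), tok 1 = [] ∧ tok (gen 0) = [.p 0] ∧
    tok (gen 1) = [.x 0] ∧ tok (gen 2) = [.q 1] ∧ (∀ m, mword (tok m) = m) ∧
    ∀ m m' : M2, ∃ (u v : List (Ltr ℕ ℕ)) (w : List ℕ),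
      (tok m = u ++ w.map .p ∧ tok m' = w.reverse.map .q ++ v ∧ tok (m * m') = u ++ v) ∨
      (tok m = u ++ .p 0 :: w.map .p ∧ tok m' = w.reverse.map .q ++ .x 0 :: v ∧
        tok (m * m') = u ++ .p 1 :: v) ∨
      (tok m = u ++ .x 0 :: w.map .p ∧ tok m' = w.reverse.map .q ++ .q 1 :: v ∧
        tok (m * m') = u ++ .q 0 :: v) := by
  choose tok htok using exists_tCan
  have hu : ∀ (m : M2) (w : List (Ltr ℕ ℕ)), tCan w → mword w = m → tok m = w := fun m w hw h =>
    tCan_unique (htok m).1 hw ((htok m).2.trans h.symm)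
  refine ⟨tok, hu _ _ tCan_nil mword_nil, ?_, ?_, ?_, fun m => (htok m).2, ?_⟩
  · exact hu _ _ (tCan_singleton (by simp [tOk])) (by rw [mword_cons, mword_nil, mul_one]; rfl)
  · exact hu _ _ (tCan_singleton (by simp [tOk])) (by rw [mword_cons, mword_nil, mul_one]; rfl)
  · exact hu _ _ (tCan_singleton (by simp [tOk])) (by rw [mword_cons, mword_nil, mul_one]; rfl)
  · intro m m'
    obtain ⟨Z, hZ, hZm, u, v, w, huvw⟩ := tok_mul (tok m) (tok m') (htok m).1 (htok m').1
    have hZ' : tok (m * m') = Z := hu _ _ hZ (by rw [hZm, (htok m).2, (htok m').2])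
    refine ⟨u, v, w, ?_⟩
    rw [hZ']
    exact huvw

end Pool.Agent.Lib.MP_ea09ae_al
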