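import Pool.Agent.Lib.MP_ea09ae_al.Token

/-!
# Definitions: the token system of a system of equations over `⟨a, b, c ∣ abc = 1⟩`
-/

namespace Pool.Agent.Lib.MP_ea09ae_al

/-- Words in the constants `a, b, c` and the variables `ℕ`. -/
abbrev EWord : Type := List (Fin 3 ⊕ ℕ)

/-- A system of equations over the monoid. -/
abbrev ESys : Type := List (EWord × EWord)

/-- The value of a word under an assignment of the variables. -/
def evalWord (σ : ℕ → M2) (w : EWord) : M2 := (w.map (Sum.elim gen σ)).prod

/-- The system has a solution in the monoid. -/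
def Solvable (S : ESys) : Prop := ∃ σ : ℕ → M2, ∀ e ∈ S, evalWord σ e.1 = evalWord σ e.2

/-- Bounded systems: at most `n` equations, words of length at most `n`, variables below `n`. -/
def EBd (n : ℕ) (S : ESys) : Prop :=
  S.length ≤ n ∧ ∀ e ∈ S, e.1.length ≤ n ∧ e.2.length ≤ n ∧
    (∀ k, Sum.inr k ∈ e.1 → k < n) ∧ (∀ k, Sum.inr k ∈ e.2 → k < n)

/-- indices of the paired variables: equation, side, position -/
abbrev KK (n : ℕ) : Type := Fin n × Bool × Fin n

/-- indices of the other variables: the original variables, and, for equation, side, position,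
the partial products (`0`) and the two auxiliary variables (`1`, `2`) -/
abbrev II (n : ℕ) : Type := Fin n ⊕ (Fin n × Bool × Fin (n + 1) × Fin 3)

/-- the side `s` of the equation `j` (empty if there is no such equation) -/
def sideWord (S : ESys) (j : ℕ) (s : Bool) : EWord :=
  if s = true then (S.getD j ([], [])).2 else (S.getD j ([], [])).1

/-- the token word with variables of one symbol -/
def symw (n : ℕ) : Option (Fin 3 ⊕ ℕ) → List (Sy (KK n) (II n))
  | none => []
  | some (.inl 0) => [.inl (.p 0)]
  | some (.inl 1) => [.inl (.x 0)]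
  | some (.inl 2) => [.inl (.q 1)]
  | some (.inr k) => if h : k < n then [.inr (.x (.inl ⟨k, h⟩))] else []

/-- the three equations of one multiplication step, in the case `c` -/
def mult (n : ℕ) (S : ESys) (c : Fin 3) (j : Fin n) (s : Bool) (i : Fin n) :
    Sys (KK n) (II n) :=
  let u : Sy (KK n) (II n) := .inr (.x (.inr (j, s, i.castSucc, 1)))
  let v : Sy (KK n) (II n) := .inr (.x (.inr (j, s, i.castSucc, 2)))
  let P : Sy (KK n) (II n) := .inr (.x (.inr (j, s, i.castSucc, 0)))
  let P' : Sy (KK n) (II n) := .inr (.x (.inr (j, s, i.succ, 0)))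
  let pp : Sy (KK n) (II n) := .inr (.p (j, s, i))
  let qq : Sy (KK n) (II n) := .inr (.q (j, s, i))
  let y := symw n ((sideWord S j s)[(i : ℕ)]?)
  if c = 0 then [([P], [u, pp]), (y, [qq, v]), ([P'], [u, v])]
  else if c = 1 then
    [([P], [u, .inl (.p 0), pp]), (y, [qq, .inl (.x 0), v]), ([P'], [u, .inl (.p 1), v])]
  else
    [([P], [u, .inl (.x 0), pp]), (y, [qq, .inl (.q 1), v]), ([P'], [u, .inl (.q 0), v])]

/-- The token system for given cases `c`. -/
def tri (n : ℕ) (S : ESys) (c : Fin n → Bool → Fin n → Fin 3) : Sys (KK n) (II n) :=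
  ((List.finRange n).flatMap fun j => [false, true].flatMap fun s =>
    (([.inr (.x (.inr (j, s, 0, 0)))], []) : List (Sy (KK n) (II n)) × List (Sy (KK n) (II n))) ::
      (List.finRange n).flatMap fun i => mult n S (c j s i) j s i) ++
  (List.finRange n).map fun j =>
    ([.inr (.x (.inr (j, false, Fin.last n, 0)))], [.inr (.x (.inr (j, true, Fin.last n, 0)))])

end Pool.Agent.Lib.MP_ea09ae_al
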