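import Pool.Agent.Lib.MP_ea09ae_al.TriDefs

/-!
# Words in `a, b, c` and their normal forms
-/

namespace Pool.Agent.Lib.MP_ea09ae_al

/-- One step of the stack machine which computes the (reversed) normal form. -/
def push (st : List (Fin 3)) (l : Fin 3) : List (Fin 3) :=
  if l = 2 ∧ st.take 2 = [1, 0] then st.drop 2 else l :: st

/-- The reversed normal form of a word. -/
def nf (w : List (Fin 3)) : List (Fin 3) := w.foldl push []

/-- The element of the monoid given by a word. -/
def wval (w : List (Fin 3)) : M2 := (w.map gen).prod

theorem Wd_wval_nil : wval [] = 1 := rfl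

theorem Wd_wval_append (u v : List (Fin 3)) : wval (u ++ v) = wval u * wval v := by
  unfold wval
  rw [List.map_append, List.prod_append]

theorem Wd_wval_push (st : List (Fin 3)) (l : Fin 3) :
    wval (push st l).reverse = wval st.reverse * gen l := by
  unfold push
  split_ifs with h
  · obtain ⟨hl, ht⟩ := h
    have hst : st = 1 :: 0 :: st.drop 2 := by
      conv_lhs => rw [← List.take_append_drop 2 st, ht]
      rfl
    have h2 : st.reverse = (st.drop 2).reverse ++ [0, 1] := by
      conv_lhs => rw [hst]
      simp
    rw [h2, Wd_wval_append, hl]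
    have h3 : wval [0, 1] * gen 2 = 1 := by
      unfold wval
      simp only [List.map_cons, List.map_nil, List.prod_cons, List.prod_nil, mul_one]
      exact gen_rel
    rw [mul_assoc, h3, mul_one]
  · rw [List.reverse_cons, Wd_wval_append]
    congr 1

theorem Wd_wval_foldl (w : List (Fin 3)) (st : List (Fin 3)) :
    wval (w.foldl push st).reverse = wval st.reverse * wval w := by
  induction w generalizing st with
  | nil =>
    simp [Wd_wval_nil]
  | cons a w ih =>
    rw [List.foldl_cons, ih, Wd_wval_push]
    have : wval (a :: w) = gen a * wval w := by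
      unfold wval
      simp
    rw [this, mul_assoc]

/-- The action of one letter. -/
def Wd_pushE (l : Fin 3) : (Function.End (List (Fin 3)))ᵐᵒᵖ :=
  MulOpposite.op (fun st => push st l)

/-- The stack machine as an action of the monoid. -/
noncomputable def Wd_actM : M2 →* (Function.End (List (Fin 3)))ᵐᵒᵖ :=
  PresentedMonoid.lift (rels := abcRel) Wd_pushE (by
    intro u w h
    obtain ⟨hu, hw⟩ := h
    rw [hu, hw]
    simp only [map_mul, map_one, FreeMonoid.lift_eval_of]
    apply MulOpposite.unop_injective
    funext st
    show push (push (push st 0) 1) 2 = st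
    simp [push])

theorem Wd_actM_wval (w : List (Fin 3)) (st : List (Fin 3)) :
    MulOpposite.unop (Wd_actM (wval w)) st = w.foldl push st := by
  induction w generalizing st with
  | nil =>
    rw [Wd_wval_nil, map_one]
    rfl
  | cons a w ih =>
    have : wval (a :: w) = gen a * wval w := by
      unfold wval
      simp
    rw [this, map_mul, MulOpposite.unop_mul]
    show MulOpposite.unop (Wd_actM (wval w)) (MulOpposite.unop (Wd_actM (gen a)) st) = _
    rw [ih]
    have h2 : MulOpposite.unop (Wd_actM (gen a)) st = push st a := rfl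
    rw [h2]
    rfl

theorem nf_eq_iff (w w' : List (Fin 3)) : nf w = nf w' ↔ wval w = wval w' := by
  constructor
  · intro h
    have h1 := Wd_wval_foldl w []
    have h2 := Wd_wval_foldl w' []
    rw [List.reverse_nil, Wd_wval_nil, one_mul] at h1 h2
    rw [← h1, ← h2]
    unfold nf at h
    rw [h]
  · intro h
    have h1 := Wd_actM_wval w []
    have h2 := Wd_actM_wval w' []
    unfold nf
    rw [← h1, ← h2, h]

/-- The word of one token. -/
def Wd_tword : Ltr ℕ ℕ → List (Fin 3)
  | .p 0 => [0]
  | .p 1 => [0, 1]
  | .q 0 => [1, 2]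
  | .q 1 => [2]
  | .x 0 => [1]
  | _ => []

theorem Wd_wval_tword (l : Ltr ℕ ℕ) : (Wd_tword l).length ≤ 2 ∧ wval (Wd_tword l) = mval l := by
  match l with
  | .p 0 => simp [Wd_tword, wval, mval]
  | .p 1 => simp [Wd_tword, wval, mval]
  | .p (n+2) => simp [Wd_tword, wval, mval]
  | .q 0 => simp [Wd_tword, wval, mval]
  | .q 1 => simp [Wd_tword, wval, mval]
  | .q (n+2) => simp [Wd_tword, wval, mval]
  | .x 0 => simp [Wd_tword, wval, mval]
  | .x (n+1) => simp [Wd_tword, wval, mval]

/-- A token word as a word in `a, b, c`. -/
theorem exists_word (w : List (Ltr ℕ ℕ)) :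
    ∃ u : List (Fin 3), u.length ≤ 2 * w.length ∧ wval u = mword w := by
  induction w with
  | nil => exact ⟨[], by simp, rfl⟩
  | cons a w ih =>
    obtain ⟨u, h1, h2⟩ := ih
    obtain ⟨h3, h4⟩ := Wd_wval_tword a
    refine ⟨Wd_tword a ++ u, ?_, ?_⟩
    · rw [List.length_append, List.length_cons]
      omega
    · rw [Wd_wval_append, h4, h2]
      unfold mword
      simp

/-- Substitution of words for the variables. -/
def substw (τ : List (List (Fin 3))) (w : EWord) : List (Fin 3) :=
  w.flatMap (Sum.elim (fun l => [l]) (fun k => τ.getD k []))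

/-- `τ` solves `S`. -/
def Check (S : ESys) (τ : List (List (Fin 3))) : Prop :=
  ∀ e ∈ S, nf (substw τ e.1) = nf (substw τ e.2)

theorem Wd_wval_substw (τ : List (List (Fin 3))) (w : EWord) :
    wval (substw τ w) = evalWord (fun k => wval (τ.getD k [])) w := by
  induction w with
  | nil => rfl
  | cons a w ih =>
    unfold substw evalWord at *
    rw [List.flatMap_cons, Wd_wval_append, ih, List.map_cons, List.prod_cons]
    congr 1
    rcases a with l | k
    · simp [wval]
    · simp

theorem check_solvable (S : ESys) (τ : List (List (Fin 3))) (h : Check S τ) : Solvable S := by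
  refine ⟨fun k => wval (τ.getD k []), fun e he => ?_⟩
  rw [← Wd_wval_substw, ← Wd_wval_substw]
  exact (nf_eq_iff _ _).mp (h e he)

/-- From short token words to a short list of words. -/
theorem check_of_tokens (n W : ℕ) (S : ESys) (τ : ℕ → List (Ltr ℕ ℕ))
    (hW : ∀ k, (τ k).length ≤ W) (hn : ∀ k, n ≤ k → τ k = [])
    (h : ∀ e ∈ S, evalWord (fun k => mword (τ k)) e.1 = evalWord (fun k => mword (τ k)) e.2) :
    ∃ t : List (List (Fin 3)), t.length ≤ n ∧ (∀ u ∈ t, u.length ≤ 2 * W) ∧ Check S t := by
  choose u hu1 hu2 using fun k => exists_word (τ k)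
  refine ⟨(List.range n).map u, by simp, ?_, ?_⟩
  · intro v hv
    rw [List.mem_map] at hv
    obtain ⟨k, _, rfl⟩ := hv
    exact le_trans (hu1 k) (Nat.mul_le_mul_left 2 (hW k))
  · have hfun : (fun k => wval (((List.range n).map u).getD k [])) = fun k => mword (τ k) := by
      funext k
      by_cases hk : k < n
      · rw [← hu2 k]
        congr 1
        rw [List.getD_eq_getElem?_getD]
        simp [hk]
      · rw [not_lt] at hk
        rw [hn k hk, List.getD_eq_default _ _ (by simpa using hk)]
        rfl
    intro e he
    rw [nf_eq_iff, Wd_wval_substw, Wd_wval_substw, hfun]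
    exact h e he

/-- The code of an element is at most the code of the list. -/
theorem Wd_encode_le_of_mem {A : Type} [Encodable A] {l : List A} {a : A} (h : a ∈ l) :
    Encodable.encode a ≤ Encodable.encode l := by
  induction l with
  | nil => simp at h
  | cons b l ih =>
    rw [Encodable.encode_list_cons]
    rcases List.mem_cons.mp h with h | h
    · rw [h]
      exact le_trans (Nat.left_le_pair _ _) (Nat.le_succ _)
    · exact le_trans (le_trans (ih h) (Nat.right_le_pair _ _)) (Nat.le_succ _)

theorem Wd_length_le_encode' {A : Type} [Encodable A] (l : List A) :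
    l.length ≤ Encodable.encode l := by
  induction l with
  | nil => simp
  | cons b l ih =>
    rw [Encodable.encode_list_cons, List.length_cons]
    exact Nat.succ_le_succ (le_trans ih (Nat.right_le_pair _ _))

/-- The code of a system bounds everything. -/
theorem ebd_encode (S : ESys) : EBd (Encodable.encode S + 1) S := by
  refine ⟨le_trans (Wd_length_le_encode' S) (Nat.le_succ _), fun e he => ?_⟩
  have h0 : Encodable.encode e ≤ Encodable.encode S := Wd_encode_le_of_mem he
  have h1 : Encodable.encode e.1 ≤ Encodable.encode e := by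
    conv_rhs => rw [← Prod.mk.eta (p := e), Encodable.encode_prod_val]
    exact Nat.left_le_pair _ _
  have h2 : Encodable.encode e.2 ≤ Encodable.encode e := by
    conv_rhs => rw [← Prod.mk.eta (p := e), Encodable.encode_prod_val]
    exact Nat.right_le_pair _ _
  have h3 := Wd_length_le_encode' e.1
  have h4 := Wd_length_le_encode' e.2
  have hk : ∀ (w : EWord) (k : ℕ), Sum.inr k ∈ w → k ≤ Encodable.encode w := by
    intro w k hk
    have h5 := Wd_encode_le_of_mem hk
    have h6 : k ≤ Encodable.encode (Sum.inr k : Fin 3 ⊕ ℕ) := by
      rw [Encodable.encode_inr]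
      simp
      omega
    exact le_trans h6 h5
  refine ⟨by omega, by omega, fun k hm => ?_, fun k hm => ?_⟩
  · have := hk e.1 k hm
    omega
  · have := hk e.2 k hm
    omega

end Pool.Agent.Lib.MP_ea09ae_al
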